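import Pool.Agent.TD.U.Desc1

/-! Block U4: integral extensions. -/

open scoped ContDiff Topology
open Polynomial

namespace Pool.Agent.TD

namespace Desc2Aux

theorem comap_eq_res {K A B : Type} [NormedField K] [CommRing A] [CommRing B] [Algebra K A]
    [Algebra K B] (f : A →ₐ[K] B) : (BG.comap f : Ber K B → Ber K A) = Ber.res f := by
  funext z
  exact Ber.ext_v fun a => rfl

/-- Basic neighbourhoods in the spectrum. -/
theorem exists_basic {K B : Type} [NormedField K] [CommRing B] [Algebra K B] (z : Ber K B)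
    {V : Set (Ber K B)} (hV : V ∈ 𝓝 z) :
    ∃ (t : Finset B) (N : B → Set ℝ), (∀ b ∈ t, N b ∈ 𝓝 (z.v b)) ∧
      ∀ z' : Ber K B, (∀ b ∈ t, z'.v b ∈ N b) → z' ∈ V := by
  rw [nhds_induced, Filter.mem_comap] at hV
  obtain ⟨W, hW, hWV⟩ := hV
  rw [nhds_pi, Filter.mem_pi'] at hW
  obtain ⟨t, N, hN, hNW⟩ := hW
  exact ⟨t, N, fun b _ => hN b, fun z' hz' => hWV (hNW fun b hb => hz' b hb)⟩

end Desc2Aux

open Desc2Aux

/-- Local polyhedrality for integral extensions of algebras of finite type. -/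
theorem finConv_int (hSTA : BG.STA_Stmt) (hINT : BG.INT_Stmt) {K A B : Type} [NormedField K]
    [IsUltrametricDist K] [CommRing A] [Algebra K A] [Algebra.FiniteType K A] [CommRing B]
    [Algebra K B] (f : A →ₐ[K] B) (h1 : Function.Injective f) (h2 : f.toRingHom.IsIntegral)
    (z : Ber K B) : (berLS K B).FinConv z := by
  classical
  intro u hu V hV
  obtain ⟨t, N, hN, hNV⟩ := exists_basic z hV
  obtain ⟨S0, hS0⟩ := (Algebra.FiniteType.out : (⊤ : Subalgebra K A).FG)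
  let B1 : Subalgebra K B := Algebra.adjoin K (((S0.image f) ∪ u ∪ t : Finset B) : Set B)
  have hft : Algebra.FiniteType K B1 := by
    rw [← Subalgebra.fg_iff_finiteType]
    exact Subalgebra.fg_adjoin_finset _
  have huB : ∀ b ∈ u, b ∈ B1 := fun b hb => Algebra.subset_adjoin (by
    simp only [Finset.coe_union, Set.mem_union, Finset.mem_coe]
    exact Or.inl (Or.inr hb))
  have htB : ∀ b ∈ t, b ∈ B1 := fun b hb => Algebra.subset_adjoin (by
    simp only [Finset.coe_union, Set.mem_union, Finset.mem_coe]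
    exact Or.inr hb)
  have hfB : ∀ a : A, f a ∈ B1 := by
    intro a
    have h3 : (⊤ : Subalgebra K A).map f ≤ B1 := by
      rw [← hS0, AlgHom.map_adjoin]
      apply Algebra.adjoin_mono
      intro b hb
      obtain ⟨s, hs, rfl⟩ := hb
      simp only [Finset.coe_union, Set.mem_union, Finset.mem_coe]
      exact Or.inl (Or.inl (Finset.mem_image_of_mem f hs))
    exact h3 ⟨a, Algebra.mem_top, rfl⟩
  have hint : (B1.val : B1 →ₐ[K] B).toRingHom.IsIntegral := by
    intro b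
    obtain ⟨p, hp, hpb⟩ := h2 b
    let g : A →+* B1 := (f.codRestrict B1 hfB).toRingHom
    refine ⟨p.map g, hp.map g, ?_⟩
    rw [eval₂_map]
    exact hpb
  obtain ⟨hc, hs, -, -⟩ := hINT K B1 B B1.val Subtype.val_injective hint
  -- the point below
  let z1 : Ber K B1 := BG.comap B1.val z
  let u1 : Finset B1 := u.attach.image fun b => ⟨b.1, huB b.1 b.2⟩
  have hu1 : ∀ b (hb : b ∈ u), (⟨b, huB b hb⟩ : B1) ∈ u1 := fun b hb =>
    Finset.mem_image.2 ⟨⟨b, hb⟩, Finset.mem_attach _ _, rfl⟩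
  have hu1' : ∀ b ∈ u1, (b : B) ∈ u := by
    intro b hb
    obtain ⟨c, -, rfl⟩ := Finset.mem_image.1 hb
    exact c.2
  let V1 : Set (Ber K B1) := {w | ∀ b ∈ t.attach, w.v ⟨b.1, htB b.1 b.2⟩ ∈ N b.1}
  have hV1 : V1 ∈ 𝓝 z1 := by
    have h3 : ∀ᶠ w in 𝓝 z1, ∀ b ∈ t.attach, w.v ⟨b.1, htB b.1 b.2⟩ ∈ N b.1 := by
      rw [Filter.eventually_all_finset]
      intro b _
      have h4 : Continuous fun w : Ber K B1 => w.v ⟨b.1, htB b.1 b.2⟩ := Ber.continuous_v _
      exact h4.continuousAt.eventually (hN b.1 b.2)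
    exact h3
  obtain ⟨V1', hV1', hVV, hdom, S, hSfin, hSc, hSu⟩ := (hSTA K B1 z1).2 u1 (fun b hb => by
    show z.v (b : B) ≠ 0
    exact hu _ (hu1' b hb)) V1 hV1
  refine ⟨BG.comap B1.val ⁻¹' V1', hc.continuousAt.preimage_mem_nhds hV1', ?_, ?_, ?_⟩
  · intro w hw
    exact hNV w fun b hb => hVV hw ⟨b, hb⟩ (Finset.mem_attach _ _)
  · intro b hb w hw
    exact hdom _ (hu1 b hb) hw
  · let r : (u1 → ℝ) →ₗ[ℝ] (u → ℝ) :=
      { toFun := fun x b => x ⟨⟨b.1, huB b.1 b.2⟩, hu1 b.1 b.2⟩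
        map_add' := fun x x' => rfl
        map_smul' := fun c x => rfl }
    refine ⟨(fun σ => r '' σ) '' S, hSfin.image _, ?_, ?_⟩
    · rintro _ ⟨σ, hσ, rfl⟩
      exact (hSc σ hσ).linear_image r
    · have h3 : (berLS K B).trop u '' (BG.comap B1.val ⁻¹' V1') =
          r '' ((berLS K B1).trop u1 '' V1') := by
        ext x
        constructor
        · rintro ⟨w, hw, rfl⟩
          exact ⟨_, ⟨BG.comap B1.val w, hw, rfl⟩, rfl⟩
        · rintro ⟨_, ⟨w1, hw1, rfl⟩, rfl⟩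
          obtain ⟨w, rfl⟩ := hs w1
          exact ⟨w, hw1, rfl⟩
      rw [h3, hSu, Set.sUnion_image, Set.sUnion_eq_biUnion, Set.image_iUnion₂]

/-- (U4) -/
theorem van_of_int (hSTA : BG.STA_Stmt) (hINT : BG.INT_Stmt) {K A B : Type} [NormedField K]
    [IsUltrametricDist K] [CommRing A] [Algebra K A] [Algebra.FiniteType K A] [CommRing B]
    [Algebra K B] (f : A →ₐ[K] B) (h1 : Function.Injective f) (h2 : f.toRingHom.IsIntegral)
    (z : Ber K A) {p : ℕ} {θ : Raw A p 0} (hθ : IsCst θ) (hs : (berLS K A).SFat z θ)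
    (hv : ∀ z', Ber.res f z' = z → (berLS K B).Van z' (pullR f θ)) :
    (berLS K A).Van z θ := by
  obtain ⟨-, hsur, hcl, hprop⟩ := hINT K A B f h1 h2
  rw [comap_eq_res] at hsur hcl hprop
  refine Mor.descend (berMor f) ?_ ?_ ?_ ?_ hθ hs ?_
  · exact ⟨Set.univ, Filter.univ_mem, fun w _ => hsur w⟩
  · exact hprop {z} isCompact_singleton
  · intro W hW hzW
    refine ⟨(Ber.res f '' Wᶜ)ᶜ, ?_, ?_⟩
    · refine (hcl _ hW.isClosed_compl).isOpen_compl.mem_nhds ?_
      rintro ⟨w, hw, hwz⟩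
      exact hw (hzW hwz)
    · intro w hw
      by_contra hcon
      exact hw ⟨w, hcon, rfl⟩
  · intro z' _
    exact finConv_int hSTA hINT f h1 h2 z'
  · exact hv

end Pool.Agent.TD
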