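import Pool.Agent.TD.U.Mon1

/-! Block U: constant forms just below the Gauss point. -/

open scoped ContDiff Topology
open Polynomial

namespace Pool.Agent.TD

variable {K A : Type} [NormedField K] [CommRing A] [Algebra K A]

namespace U_MON2

/-- `θ` and `η` agree just below the Gauss point of radius `r`. -/
def Near (y : Ber K A) (r : ℝ) {p : ℕ} (θ η : Raw A[X] p 0) : Prop :=
  ∃ ε : ℝ, 0 < ε ∧ ε < r ∧ ∀ ρ', r - ε < ρ' → ρ' < r → ∀ z', IsGz 0 1 y ρ' z' →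
    (berLS K A[X]).Van z' (θ - η)

/-- The forms `x0 + dlog |X| ∧ v0`. -/
def Sp (y : Ber K A) : (p : ℕ) → Raw A[X] p 0 → Prop
  | 0, η => ∃ x0 : Raw A 0 0, IsCst x0 ∧ (berLS K A).SFat y x0 ∧ η = pullR (prX K A).ix x0
  | p + 1, η => ∃ (x0 : Raw A (p + 1) 0) (v0 : Raw A p 0), IsCst x0 ∧ IsCst v0 ∧
      (berLS K A).SFat y x0 ∧ (berLS K A).SFat y v0 ∧
      η = pullR (prX K A).ix x0 + wdg1 (dlg (X : A[X])) (pullR (prX K A).ix v0)

variable {y : Ber K A} {r : ℝ} {p : ℕ}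

theorem Near.add {θ η θ' η' : Raw A[X] p 0} (h : Near y r θ η) (k : Near y r θ' η') :
    Near y r (θ + θ') (η + η') := by
  obtain ⟨ε, h1, h2, h3⟩ := h
  obtain ⟨δ, k1, k2, k3⟩ := k
  refine ⟨min ε δ, lt_min h1 k1, lt_of_le_of_lt (min_le_left _ _) h2, ?_⟩
  intro ρ' l1 l2 z' hz'
  have e : θ + θ' - (η + η') = (θ - η) + (θ' - η') := by abel
  rw [e]
  have m1 := min_le_left ε δ
  have m2 := min_le_right ε δ
  exact LogSpace.Van.add _ (h3 ρ' (by linarith) l2 z' hz') (k3 ρ' (by linarith) l2 z' hz')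

theorem Near.smul (c : ℝ) {θ η : Raw A[X] p 0} (h : Near y r θ η) :
    Near y r (c • θ) (c • η) := by
  obtain ⟨ε, h1, h2, h3⟩ := h
  refine ⟨ε, h1, h2, ?_⟩
  intro ρ' l1 l2 z' hz'
  have e : c • θ - c • η = c • (θ - η) := (smul_sub c θ η).symm
  rw [e]
  exact ((berLS K A[X]).VanM p 0 z').smul_mem c (h3 ρ' l1 l2 z' hz')

theorem one_ne (y : Ber K A) : y.v 1 ≠ 0 := by
  rw [y.one]
  exact one_ne_zero

theorem ovr {ρ : ℝ} (hρ : 0 < ρ) {z : Ber K A[X]} (hz : IsGz 0 1 y ρ z) :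
    (prX K A).toFun z = y := by
  apply Ber.ext_v
  intro a
  exact gz_C 0 1 y (one_ne y) ρ hρ z hz a

theorem vX {ρ : ℝ} (hρ : 0 < ρ) {z : Ber K A[X]} (hz : IsGz 0 1 y ρ z) : z.v X = ρ := by
  have h := gz_lin 0 1 y (one_ne y) ρ hρ z hz
  rw [map_one, one_mul, map_zero, sub_zero, y.one, one_mul] at h
  exact h

theorem vX_ne {ρ : ℝ} (hρ : 0 < ρ) {z : Ber K A[X]} (hz : IsGz 0 1 y ρ z) : z.v X ≠ 0 := by
  rw [vX hρ hz]
  exact hρ.ne'

/-- The differential of the logarithm of a function close to a monomial. -/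
theorem van_dlg {z : Ber K A[X]} {F : A[X]} {a : A} {n : ℕ} (hF : z.v F ≠ 0)
    (ha : z.v (C a) ≠ 0) (hX : z.v X ≠ 0) (h : z.v (F - C a * X ^ n) < z.v F) :
    (berLS K A[X]).Van z (dlg F - (dlg (C a) + (n : ℝ) • dlg X)) := by
  have hg : ∀ i : Fin 2, z ∈ (berLS K A[X]).dom ((![C a, X] : Fin 2 → A[X]) i) := by
    intro i
    fin_cases i
    · exact ha
    · exact hX
  have ho : IsOpen {z' : Ber K A[X] | z'.v (F - C a * X ^ n) < z'.v F} :=
    isOpen_lt (Ber.continuous_v _) (Ber.continuous_v _)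
  have h1 := (berLS K A[X]).dls_van (n := 2) (f := F) (g := ![C a, X]) hF hg
    ![1, (n : ℝ)] 0 (by
    filter_upwards [ho.mem_nhds h, ((berLS K A[X]).isOpen_dom (C a)).mem_nhds ha,
      ((berLS K A[X]).isOpen_dom X).mem_nhds hX] with z' hz' h1 h2
    have h1' : z'.v (C a) ≠ 0 := h1
    have h2' : z'.v X ≠ 0 := h2
    rw [Fin.sum_univ_two]
    show Real.log (z'.v F) = 0 + (1 * Real.log (z'.v (C a)) + (n : ℝ) * Real.log (z'.v X))
    rw [← z'.sub_eq hz', z'.mul, z'.pow, Real.log_mul h1' (pow_ne_zero _ h2'), Real.log_pow]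
    ring)
  rw [Fin.sum_univ_two] at h1
  have e : (![1, (n : ℝ)] : Fin 2 → ℝ) 0 • dlg ((![C a, X] : Fin 2 → A[X]) 0) +
      (![1, (n : ℝ)] : Fin 2 → ℝ) 1 • dlg ((![C a, X] : Fin 2 → A[X]) 1) =
      dlg (C a : A[X]) + (n : ℝ) • dlg X := by
    show (1 : ℝ) • dlg (C a : A[X]) + (n : ℝ) • dlg X = _
    rw [one_smul]
  rw [e] at h1
  exact h1

theorem sfat_dlg {X Φ : Type} [TopologicalSpace X] (L : LogSpace X Φ) {z : X} {f : Φ}
    (h : z ∈ L.dom f) : L.SFat z (dlg f) :=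
  ⟨{f}, isSF_dlg (Finset.mem_singleton_self f), by simpa using h⟩

theorem Sp.sfat {η : Raw A[X] p 0} (h : Sp y p η) {ρ : ℝ} (hρ : 0 < ρ) {z : Ber K A[X]}
    (hz : IsGz 0 1 y ρ z) : (berLS K A[X]).SFat z η := by
  cases p with
  | zero =>
    obtain ⟨x0, -, hs, rfl⟩ := h
    exact (prX K A).sfatY (ovr hρ hz) hs
  | succ p =>
    obtain ⟨x0, v0, -, -, hs, hs', rfl⟩ := h
    exact ((prX K A).sfatY (ovr hρ hz) hs).add
      (LogSpace.SFat.wdg1 _ (sfat_dlg _ (vX_ne hρ hz)) ((prX K A).sfatY (ovr hρ hz) hs'))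

/-- Product of a form `x0 + dlog |X| ∧ v0` with `dlog |a| + n dlog |X|`. -/
theorem Sp.step {η : Raw A[X] p 0} (h : Sp y p η) {a : A} (ha : y.v a ≠ 0) (n : ℕ) :
    Sp y (p + 1) (wdg1 (dlg (C a : A[X]) + (n : ℝ) • dlg X) η) := by
  have hda : (berLS K A).SFat y (dlg a) := sfat_dlg _ ha
  have e1 : ∀ {q : ℕ} (x0 : Raw A q 0), pullR (prX K A).ix (wdg1 (dlg a) x0) =
      wdg1 (dlg (C a : A[X])) (pullR (prX K A).ix x0) := fun x0 => pullR_wdg1 _ _ _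
  cases p with
  | zero =>
    obtain ⟨x0, hc, hs, rfl⟩ := h
    refine ⟨wdg1 (dlg a) x0, (n : ℝ) • x0, (isCst_dlg a).wdg1 hc, hc.smul _,
      LogSpace.SFat.wdg1 _ hda hs, hs.smul _, ?_⟩
    rw [e1, pullR_smul, wdg1_smul_right, wdg1_add_left, wdg1_smul_left]
  | succ p =>
    obtain ⟨x0, v0, hc, hc', hs, hs', rfl⟩ := h
    refine ⟨wdg1 (dlg a) x0, (n : ℝ) • x0 + (-1 : ℝ) • wdg1 (dlg a) v0, (isCst_dlg a).wdg1 hc,
      (hc.smul _).add (((isCst_dlg a).wdg1 hc').smul _), LogSpace.SFat.wdg1 _ hda hs,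
      (hs.smul _).add ((LogSpace.SFat.wdg1 _ hda hs').smul _), ?_⟩
    classical
    obtain ⟨s, hs1, -⟩ := id hs'
    have hsp : IsSF (s.image (prX K A).ix) (pullR (prX K A).ix v0) := hs1.pullR
    have e2 : wdg1 (dlg X) ((n : ℝ) • pullR (prX K A).ix x0 +
        (-1 : ℝ) • wdg1 (dlg (C a : A[X])) (pullR (prX K A).ix v0)) =
        (n : ℝ) • wdg1 (dlg X) (pullR (prX K A).ix x0) +
        (-1 : ℝ) • wdg1 (dlg X) (wdg1 (dlg (C a : A[X])) (pullR (prX K A).ix v0)) := by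
      rw [wdg1_add_right, wdg1_smul_right, wdg1_smul_right]
    have e3 : ∀ {q : ℕ} (θ : Raw A[X] q 0), wdg1 (dlg (C a : A[X]) + (n : ℝ) • dlg X) θ =
        wdg1 (dlg (C a : A[X])) θ + (n : ℝ) • wdg1 (dlg X) θ := fun θ => by
      rw [wdg1_add_left, wdg1_smul_left]
    rw [e1, pullR_add, pullR_smul, pullR_smul, e1, e2, wdg1_add_right, e3, e3,
      wdg1_self hsp, wdg1_anti (η := dlg (C a : A[X])) (η' := dlg X) hsp, smul_zero, add_zero,
      neg_one_smul]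
    abel

theorem wdg1_split (η η' : Raw A[X] 1 0) (θ θ' : Raw A[X] p 0) :
    wdg1 η θ - wdg1 η' θ' = wdg1 η (θ - θ') + wdg1 (η - η') θ' := by
  have e1 : θ - θ' = θ + (-1 : ℝ) • θ' := by rw [neg_one_smul, sub_eq_add_neg]
  have e2 : η - η' = η + (-1 : ℝ) • η' := by rw [neg_one_smul, sub_eq_add_neg]
  rw [e1, e2, wdg1_add_right, wdg1_add_left, wdg1_smul_right, wdg1_smul_left, neg_one_smul,
    neg_one_smul]
  abel

theorem symR_near (hr : 0 < r) (z : Ber K A[X]) (hz : IsGz 0 1 y r z) :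
    ∀ (p : ℕ) (f : Fin p → A[X]), (∀ i, z.v (f i) ≠ 0) →
      ∃ η, Sp y p η ∧ Near y r (symR p f) η
  | 0, f, _ => by
    refine ⟨one0, ⟨one0, isCst_one0, ⟨∅, isSF_one0 ∅, by simp⟩, rfl⟩, r / 2, by linarith,
      by linarith, ?_⟩
    intro ρ' h1 h2 z' hz'
    have e : symR 0 f - one0 = (0 : Raw A[X] 0 0) := sub_self one0
    rw [e]
    exact ((berLS K A[X]).VanM 0 0 z').zero_mem
  | p + 1, f, hf => by
    obtain ⟨η, hη, δ, k1, k2, k3⟩ := symR_near hr z hz p (fun i => f i.succ) (fun i => hf i.succ)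
    obtain ⟨a, n, ε, h1, h2, ha, h3⟩ := dom_mono y r hr z hz (f 0) (hf 0)
    refine ⟨_, hη.step ha n, min ε δ, lt_min h1 k1, lt_of_le_of_lt (min_le_left _ _) h2, ?_⟩
    intro ρ' l1 l2 z' hz'
    have m1 := min_le_left ε δ
    have m2 := min_le_right ε δ
    have hρ : 0 < ρ' := by linarith
    obtain ⟨h4, h5⟩ := h3 ρ' (by linarith) l2 z' hz'
    have k4 := k3 ρ' (by linarith) l2 z' hz'
    have hCa : z'.v (C a) ≠ 0 := by
      rw [gz_C 0 1 y (one_ne y) ρ' hρ z' hz']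
      exact ha
    have h6 := van_dlg h4 hCa (vX_ne hρ hz') h5
    have e : symR (p + 1) f - wdg1 (dlg (C a : A[X]) + (n : ℝ) • dlg X) η =
        wdg1 (dlg (f 0)) (symR p (fun i => f i.succ) - η) +
          wdg1 (dlg (f 0) - (dlg (C a) + (n : ℝ) • dlg X)) η := wdg1_split _ _ _ _
    rw [e]
    exact LogSpace.Van.add _ (LogSpace.Van.wdg1_right _ (sfat_dlg _ h4) k4)
      (LogSpace.Van.wdg1_left _ h6 (hη.sfat hρ hz'))

end U_MON2

/-- Constant forms at the Gauss point are `x0 + dlog |X| ∧ v0` just below it. -/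
theorem below_gauss (y : Ber K A) (r : ℝ) (hr : 0 < r) (z : Ber K A[X]) (hz : IsGz 0 1 y r z)
    {p : ℕ} (θ : Raw A[X] (p + 1) 0) (hθ : IsCst θ) (hs : (berLS K A[X]).SFat z θ) :
    ∃ (x0 : Raw A (p + 1) 0) (v0 : Raw A p 0) (ε : ℝ), IsCst x0 ∧ IsCst v0 ∧
      (berLS K A).SFat y x0 ∧ (berLS K A).SFat y v0 ∧ 0 < ε ∧ ε < r ∧
      ∀ ρ', r - ε < ρ' → ρ' < r → ∀ z', IsGz 0 1 y ρ' z' → (berLS K A[X]).Van z'
        (θ - (pullR (prX K A).ix x0 + wdg1 (dlg (X : A[X])) (pullR (prX K A).ix v0))) := by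
  obtain ⟨u, hu, hd⟩ := hs
  have key : ∃ (x0 : Raw A (p + 1) 0) (v0 : Raw A p 0), IsCst x0 ∧ IsCst v0 ∧
      (berLS K A).SFat y x0 ∧ (berLS K A).SFat y v0 ∧ U_MON2.Near y r θ
        (pullR (prX K A).ix x0 + wdg1 (dlg (X : A[X])) (pullR (prX K A).ix v0)) := by
    have hspan := cst_span hu hθ
    clear hθ hu
    induction hspan using Submodule.span_induction with
    | mem x hx =>
      obtain ⟨f, hf, rfl⟩ := hx
      obtain ⟨η, hη, hn⟩ := U_MON2.symR_near hr z hz (p + 1) f (fun i => hd _ (hf i))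
      obtain ⟨x0, v0, h1, h2, h3, h4, rfl⟩ := hη
      exact ⟨x0, v0, h1, h2, h3, h4, hn⟩
    | zero =>
      refine ⟨0, 0, isCst_zero, isCst_zero, LogSpace.SFat.zero _, LogSpace.SFat.zero _, r / 2,
        by linarith, by linarith, ?_⟩
      intro ρ' h1 h2 z' hz'
      have e : (0 : Raw A[X] (p + 1) 0) - (pullR (prX K A).ix 0 +
          wdg1 (dlg (X : A[X])) (pullR (prX K A).ix 0)) = 0 := by
        funext x w v
        show (0 : ℝ) - (0 + ∑ j : Fin (p + 1), (-1 : ℝ) ^ (j : ℕ) * _ * 0) = 0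
        simp
      rw [e]
      exact ((berLS K A[X]).VanM (p + 1) 0 z').zero_mem
    | add x x' _ _ hx hx' =>
      obtain ⟨x0, v0, h1, h2, h3, h4, h5⟩ := hx
      obtain ⟨x1, v1, k1, k2, k3, k4, k5⟩ := hx'
      refine ⟨x0 + x1, v0 + v1, h1.add k1, h2.add k2, h3.add k3, h4.add k4, ?_⟩
      have e : pullR (prX K A).ix (x0 + x1) + wdg1 (dlg (X : A[X])) (pullR (prX K A).ix (v0 + v1)) =
          (pullR (prX K A).ix x0 + wdg1 (dlg (X : A[X])) (pullR (prX K A).ix v0)) +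
          (pullR (prX K A).ix x1 + wdg1 (dlg (X : A[X])) (pullR (prX K A).ix v1)) := by
        rw [pullR_add, pullR_add, wdg1_add_right]
        abel
      rw [e]
      exact h5.add k5
    | smul c x _ hx =>
      obtain ⟨x0, v0, h1, h2, h3, h4, h5⟩ := hx
      refine ⟨c • x0, c • v0, h1.smul c, h2.smul c, h3.smul c, h4.smul c, ?_⟩
      have e : pullR (prX K A).ix (c • x0) + wdg1 (dlg (X : A[X])) (pullR (prX K A).ix (c • v0)) =
          c • (pullR (prX K A).ix x0 + wdg1 (dlg (X : A[X])) (pullR (prX K A).ix v0)) := by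
        rw [pullR_smul, pullR_smul, wdg1_smul_right, smul_add]
      rw [e]
      exact h5.smul c
  obtain ⟨x0, v0, h1, h2, h3, h4, ε, h5, h6, h7⟩ := key
  exact ⟨x0, v0, ε, h1, h2, h3, h4, h5, h6, h7⟩

end Pool.Agent.TD
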