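import Pool.Agent.TD.U.Sys2

/-! Block U3: sections over the circle. -/

open scoped ContDiff Topology
open Polynomial

namespace Pool.Agent.TD

variable {K R k : Type} [NormedField K] [CommRing R] [Algebra K R] [NormedField k]
  [IsUltrametricDist k] {y : Ber K R} {ι : R →+* k}

namespace IsResF

omit [IsUltrametricDist k] in
theorem v_X_ne (h : IsResF y ι) {r : ℝ} (hr : 0 < r) {w : Ber k k[X]} (hw : w.v X = r) :
    (fibU h w).v (X : R[X]) ≠ 0 := by
  rw [fibU_v, map_X, hw]; exact hr.ne'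

/-- `dlog |1| = 0`. -/
theorem dlS_one {z : Ber K R[X]} (h1 : z.v (1 : R[X]) ≠ 0) :
    (berLS K R[X]).dlS (z := z) (1 : R[X]) h1 = 0 := by
  have h2 := (berLS K R[X]).dlS_eq_sum (z := z) (f := (1 : R[X])) (n := 0) (g := Fin.elim0) h1
    (fun i => i.elim0) Fin.elim0 0 (Filter.Eventually.of_forall fun z' => by
      show Real.log (z'.v 1) = _
      rw [z'.one]
      simp)
  rw [h2]
  simp

omit [IsUltrametricDist k] in
/-- `dlog |X - 0| = dlog |X|`. -/
theorem lin_zero (h : IsResF y ι) (w : Ber k k[X]) (hX : (fibU h w).v (X : R[X]) ≠ 0) :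
    h.lin 0 w = (berLS K R[X]).dlS X hX := by
  have e0 : (0 : k) = ι 0 / ι 1 := by simp
  have e1 : (C (1 : R) * X - C 0 : R[X]) = X := by simp
  have e2 : (C (1 : R) : R[X]) = 1 := C_1
  have h1 : (fibU h w).v (C (1 : R) * X - C 0) ≠ 0 := by rw [e1]; exact hX
  have h2 : (fibU h w).v (C (1 : R)) ≠ 0 := by rw [e2, (fibU h w).one]; exact one_ne_zero
  rw [e0, h.lin_eq w (by simp) h1 h2]
  have e3 : (berLS K R[X]).dlS (z := fibU h w) (C (1 : R)) h2 = 0 := by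
    have : ∀ (f : R[X]) (hf : (fibU h w).v f ≠ 0), f = 1 →
        (berLS K R[X]).dlS (z := fibU h w) f hf = 0 := by
      rintro f hf rfl
      exact dlS_one hf
    exact this _ _ e2
  have e4 : (berLS K R[X]).dlS (z := fibU h w) (C (1 : R) * X - C 0) h1 =
      (berLS K R[X]).dlS X hX := by
    have : ∀ (f : R[X]) (hf : (fibU h w).v f ≠ 0), f = X →
        (berLS K R[X]).dlS (z := fibU h w) f hf = (berLS K R[X]).dlS X hX := by
      rintro f hf rfl
      rfl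
    exact this _ _ e1
  rw [e3, e4, sub_zero]

/-- (U3) for forms of type `(p+1, 0)`. -/
theorem circle [IsAlgClosed k] (h : IsResF y ι) (p : ℕ) {r : ℝ} (hr : 0 < r)
    (s : ∀ w, (berLS K R[X]).Stalk (p + 1) 0 (fibU h w))
    (hs : ∀ w : Ber k k[X], w.v X = r → ∃ θ : Raw R[X] (p + 1) 0, IsCst θ ∧
      ∀ᶠ w' in 𝓝 w, w'.v X = r → ∃ k' : (berLS K R[X]).SFat (fibU h w') θ,
      s w' = (berLS K R[X]).germ θ k') :
    ∃ x ∈ (berLS K R).Lp (p + 1) y, ∃ v ∈ (berLS K R).Lp p y, ∀ w, ∀ hw : w.v X = r,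
      s w = h.pb (p + 1) 0 w x + (berLS K R[X]).wdS p 0 _
        ((berLS K R[X]).dlS X (h.v_X_ne hr hw)) (h.pb p 0 w v) := by
  have hLC : ∀ w : Ber k k[X], w.v X = r →
      (h.sys p).LC s {w : Ber k k[X] | w.v X = r} w := by
    intro w hw
    obtain ⟨θ, hθ, he⟩ := hs w hw
    obtain ⟨hk, -⟩ := he.self_of_nhds hw
    exact h.lc_sys p s w θ hθ hk he
  obtain ⟨x, v, hxv⟩ := RSys.circle_section (h.sys p) hr s hLC
  refine ⟨x.1, x.2, v.1, v.2, fun w hw => ?_⟩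
  rw [← h.lin_zero w]
  exact hxv w hw

theorem circle0 [IsAlgClosed k] (h : IsResF y ι) {r : ℝ} (hr : 0 < r)
    (s : ∀ w, (berLS K R[X]).Stalk 0 0 (fibU h w))
    (hs : ∀ w : Ber k k[X], w.v X = r → ∃ θ : Raw R[X] 0 0, IsCst θ ∧
      ∀ᶠ w' in 𝓝 w, w'.v X = r → ∃ k' : (berLS K R[X]).SFat (fibU h w') θ,
      s w' = (berLS K R[X]).germ θ k') :
    ∃ x ∈ (berLS K R).Lp 0 y, ∀ w, w.v X = r → s w = h.pb 0 0 w x := by
  have hLC : ∀ w : Ber k k[X], w.v X = r →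
      h.sys0.LC s {w : Ber k k[X] | w.v X = r} w := by
    intro w hw
    obtain ⟨θ, hθ, he⟩ := hs w hw
    exact h.lc_sys0 s w θ hθ he
  obtain ⟨x, v, hxv⟩ := RSys.circle_section h.sys0 hr s hLC
  refine ⟨x.1, x.2, fun w hw => ?_⟩
  have h1 := hxv w hw
  have h2 : h.sys0.j w 0 v = 0 := rfl
  rw [h2, add_zero] at h1
  exact h1

end IsResF

end Pool.Agent.TD
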