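import Pool.Agent.TD.U.U5b
import Pool.Agent.TD.U.Sys3
import Pool.Agent.TD.U.Desc2
import Pool.Agent.TD.U.Mon2
import Pool.Agent.TD.U.Fib

/-! Block U5: degree zero part of the fibre theorem. -/

open scoped ContDiff Topology
open Polynomial

namespace Pool.Agent.TD

namespace U5aAux

/-- A global section agrees near `z` with every raw form which represents its germ at `z`. -/
theorem near_of_germ {X Φ : Type} [TopologicalSpace X] (L : LogSpace X Φ) {p q : ℕ} (c : L.G p q)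
    {z : X} {θ : Raw Φ p q} (h : L.SFat z θ) (e : c.1 z = L.germ θ h) :
    ∀ᶠ z' in 𝓝 z, ∃ h' : L.SFat z' θ, c.1 z' = L.germ θ h' := by
  obtain ⟨η, hη⟩ := c.2 z
  obtain ⟨k, ek⟩ := hη.self_of_nhds
  have hV : L.Van z (η - θ) := (L.germ_eq_iff k h).1 (ek.symm.trans e)
  filter_upwards [hη, LogSpace.Van.nhds L hV, LogSpace.SFat.nhds L h] with z' hk' hv h'
  obtain ⟨k', e'⟩ := hk'
  exact ⟨h', e'.trans ((L.germ_eq_iff k' h').2 hv)⟩

theorem shp_zero_one {R : Type} [CommRing R] (f : R[X]) : shp (0 : R) 1 f = f := by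
  unfold shp
  rw [scaleRoots_one, C_0, add_zero, comp_X]

/-- Gauss points of centre `0` are mapped to Gauss points of centre `0`. -/
theorem isGz_res {K A R : Type} [NormedField K] [CommRing A] [Algebra K A] [CommRing R]
    [Algebra K R] (f : A →ₐ[K] R) (hf : Function.Injective f) {x : Ber K R} {y : Ber K A}
    (hy : Ber.res f x = y) {ρ : ℝ} {z : Ber K R[X]} (hz : IsGz 0 1 x ρ z) :
    IsGz 0 1 y ρ (Ber.res (Polynomial.mapAlgHom f) z) := by
  subst hy
  intro F
  have e : (Ber.res (Polynomial.mapAlgHom f) z).v F = z.v (F.map (f : A →+* R)) := rfl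
  rw [e, hz]
  unfold gz
  rw [shp_zero_one, shp_zero_one]
  have hd : (F.map (f : A →+* R)).natDegree = F.natDegree :=
    natDegree_map_eq_of_injective hf F
  rw [hd]
  have h1 : (Ber.res f x).v (1 : A) = x.v (1 : R) := by rw [Ber.one, Ber.one]
  rw [h1]
  refine congrArg (fun t => t / x.v (1 : R) ^ F.natDegree) ?_
  refine iSup_congr fun i => ?_
  rw [coeff_map]
  rfl

theorem isCst_pullR {Φ Φ' : Type} {p q : ℕ} {θ : Raw Φ' p q} (h : IsCst θ) (φ : Φ' → Φ) :
    IsCst (pullR φ θ) := fun _ _ _ _ => h _ _ _ _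

theorem isCst_sub {Φ : Type} {p q : ℕ} {θ η : Raw Φ p q} (h : IsCst θ) (k : IsCst η) :
    IsCst (θ - η) := fun x x' w v => by
  show θ x w v - η x w v = θ x' w v - η x' w v
  rw [h x x', k x x']

/-- The model form `x0 + dlog|X| ∧ v0`. -/
noncomputable def mdl {R : Type} [CommRing R] (φ : R → R[X]) {p : ℕ} (x0 : Raw R (p + 1) 0)
    (v0 : Raw R p 0) : Raw R[X] (p + 1) 0 :=
  pullR φ x0 + wdg1 (dlg (X : R[X])) (pullR φ v0)

theorem isGz_unique {K R : Type} [NormedField K] [CommRing R] [Algebra K R] {b d : R}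
    {x : Ber K R} {ρ : ℝ} {z z' : Ber K R[X]} (h : IsGz b d x ρ z) (h' : IsGz b d x ρ z') :
    z = z' := Ber.ext_v fun f => (h f).trans (h' f).symm

/-- The Gauss point of centre `0` and radius `r` lies in the circle. -/
theorem gz_mem_circ {K A : Type} [NormedField K] [CommRing A] [Algebra K A] {y : Ber K A} {r : ℝ}
    (hr : 0 < r) {z : Ber K A[X]} (hz : IsGz 0 1 y r z) : z ∈ circ y r := by
  have h1 : y.v (1 : A) ≠ 0 := by rw [y.one]; exact one_ne_zero
  refine ⟨Ber.ext_v fun a => gz_C 0 1 y h1 r hr z hz a, ?_⟩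
  have h2 := gz_lin 0 1 y h1 r hr z hz
  rw [y.one, one_mul] at h2
  simpa using h2

theorem smul_oneS_inj {X Φ : Type} [TopologicalSpace X] (L : LogSpace X Φ) {z : X} {t t' : ℝ}
    (h : t • L.oneS z = t' • L.oneS z) : t = t' := by
  have h1 : (t - t') • L.oneS z = 0 := by rw [sub_smul, h, sub_self]
  unfold LogSpace.oneS at h1
  rw [← LogSpace.germ_smul, LogSpace.germ_eq_zero] at h1
  obtain ⟨u, hu, V, hV, hVd, hv⟩ := h1
  obtain ⟨x, hx⟩ := rs_surjective u (L.trop u z)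
  have h2 := hv {L.trop u z} (convex_singleton _) (by
    rintro _ rfl
    exact ⟨z, mem_of_mem_nhds hV, rfl⟩) x ![] ![] (by rw [hx]; rfl) (fun i => i.elim0)
    (fun i => i.elim0)
  have h3 : (t - t') * 1 = 0 := h2
  linarith

theorem exists_smul_oneS {X Φ : Type} [TopologicalSpace X] (L : LogSpace X Φ) {z : X}
    {c : L.Stalk 0 0 z} (hc : c ∈ L.Lp 0 z) : ∃ t : ℝ, c = t • L.oneS z := by
  rw [LogSpace.Lp_zero, Submodule.mem_span_singleton] at hc
  obtain ⟨t, ht⟩ := hc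
  exact ⟨t, ht.symm⟩

end U5aAux

open U5aAux

/-- Comparison downstairs for forms of type `(p+1, 0)`, raw form. -/
theorem circ_raw (hSTA : BG.STA_Stmt) (hINT : BG.INT_Stmt) {K A : Type} [NormedField K]
    [IsUltrametricDist K] [CommRing A] [IsDomain A] [Algebra K A] [Algebra.FiniteType K A]
    (y : Ber K A) {r : ℝ} (hr : 0 < r) {p : ℕ} (c : (berLS K A[X]).G (p + 1) 0)
    (hc : ∀ z ∈ circ y r, (berLS K A[X]).ddS (p + 1) 0 z (c.1 z) = 0) :
    ∃ (x0 : Raw A (p + 1) 0) (v0 : Raw A p 0), IsCst x0 ∧ IsCst v0 ∧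
      (berLS K A).SFat y x0 ∧ (berLS K A).SFat y v0 ∧
      ∀ z ∈ circ y r, ∃ h : (berLS K A[X]).SFat z (pullR (prX K A).ix x0 +
        wdg1 (dlg (X : A[X])) (pullR (prX K A).ix v0)), c.1 z = (berLS K A[X]).germ _ h := by
  have hone : y.v (1 : A) ≠ 0 := by rw [y.one]; exact one_ne_zero
  -- constant representatives at the points of the circle
  have hrep : ∀ z ∈ circ y r, ∃ θ : Raw A[X] (p + 1) 0, IsCst θ ∧
      ∃ h : (berLS K A[X]).SFat z θ, c.1 z = (berLS K A[X]).germ θ h := fun z hz =>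
    (berLS K A[X]).exists_cst ((berLS K A[X]).poincare0 (hSTA K A[X] z).1 (c.1 z) (hc z hz))
  obtain ⟨zr, hzr⟩ := exists_gz (0 : A) 1 y hone r hr
  have hzrc : zr ∈ circ y r := gz_mem_circ hr hzr
  obtain ⟨θ, hθ, hθs, hθe⟩ := hrep zr hzrc
  obtain ⟨x0, v0, ε, hx0, hv0, hx0s, hv0s, hε, hεr, hbel⟩ := below_gauss y r hr zr hzr θ hθ hθs
  refine ⟨x0, v0, hx0, hv0, hx0s, hv0s, ?_⟩
  intro z hz
  have hzX : z.v (X : A[X]) ≠ 0 := by rw [hz.2]; exact hr.ne'
  -- the model form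
  have hmod : ∀ z ∈ circ y r, (berLS K A[X]).SFat z (pullR (prX K A).ix x0 +
        wdg1 (dlg (X : A[X])) (pullR (prX K A).ix v0)) := by
    intro z hz
    have hzX : z.v (X : A[X]) ≠ 0 := by rw [hz.2]; exact hr.ne'
    refine LogSpace.SFat.add ((prX K A).sfatY hz.1 hx0s) ?_
    refine LogSpace.SFat.wdg1 _ ⟨{X}, isSF_dlg (Finset.mem_singleton_self _), ?_⟩
      ((prX K A).sfatY hz.1 hv0s)
    intro f hf
    rw [Finset.mem_singleton.1 hf]
    exact hzX
  refine ⟨hmod z hz, ?_⟩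
  obtain ⟨θz, hθz, hθzs, hθze⟩ := hrep z hz
  rw [hθze, (berLS K A[X]).germ_eq_iff]
  obtain ⟨R, _, _, f, hf1, hf2, hR⟩ := exists_intCl K A
  obtain ⟨hF1, hF2⟩ := mapX_int f hf1 hf2
  have hcm : IsCst (pullR (prX K A).ix x0 + wdg1 (dlg (X : A[X])) (pullR (prX K A).ix v0)) :=
    (isCst_pullR hx0 _).add ((isCst_dlg X).wdg1 (isCst_pullR hv0 _))
  refine van_of_int hSTA hINT (Polynomial.mapAlgHom f) hF1 hF2 z (isCst_sub hθz hcm)
    (hθzs.sub (hmod z hz)) ?_
  intro z' hz'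
  -- upstairs
  let m : Mor (berLS K R[X]) (berLS K A[X]) := berMor (Polynomial.mapAlgHom f)
  let y' : Ber K R := (prX K R).toFun z'
  have hyy : Ber.res f y' = y := by
    rw [← hz.1]
    apply Ber.ext_v
    intro a
    show z'.v (C (f a)) = z.v (C a)
    rw [← hz']
    show z'.v (C (f a)) = z'.v ((C a).map (f : A →+* R))
    rw [map_C]
    rfl
  have hcirc : ∀ z'' : Ber K R[X], (prX K R).toFun z'' = y' → z''.v X = r →
      m.toFun z'' ∈ circ y r := by
    intro z'' h1 h2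
    refine ⟨?_, ?_⟩
    · rw [← hyy, ← h1]
      apply Ber.ext_v
      intro a
      show z''.v ((C a).map (f : A →+* R)) = z''.v (C (f a))
      rw [map_C]
      rfl
    · show z''.v ((X : A[X]).map (f : A →+* R)) = r
      rw [map_X]
      exact h2
  obtain ⟨k, _, _, ι, h⟩ := exists_resF y'
  have hcl : IsAlgClosed k := resF_algClosed hR h
  obtain ⟨w', hw'⟩ := fibU_surj h z' rfl
  let c' := m.pullG (p + 1) 0 c
  -- germs upstairs from germs downstairs
  have hup : ∀ (z'' : Ber K R[X]) (η : Raw A[X] (p + 1) 0)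
      (hη : (berLS K A[X]).SFat (m.toFun z'') η)
      (_ : c.1 (m.toFun z'') = (berLS K A[X]).germ η hη),
      c'.1 z'' = (berLS K R[X]).germ (pullR m.ix η) (m.sfat hη) := by
    intro z'' η hη e
    show m.pullS (p + 1) 0 z'' (c.1 (m.toFun z'')) = _
    rw [e, Mor.pullS_germ]
  obtain ⟨x, hx, v, hv, hxv⟩ := h.circle p hr (fun w => c'.1 (fibU h w)) (by
    intro w hw
    have hmem : m.toFun (fibU h w) ∈ circ y r :=
      hcirc _ (fibU_over h w) (by rw [fibU_v, map_X, hw])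
    obtain ⟨θw, hθw, hθws, hθwe⟩ := hrep _ hmem
    refine ⟨pullR m.ix θw, isCst_pullR hθw _, ?_⟩
    have := (fibU_continuous h).continuousAt.eventually
      (near_of_germ _ c' (m.sfat hθws) (hup _ θw hθws hθwe))
    filter_upwards [this] with w'' hw'' _ using hw'')
  obtain ⟨X0, hX0, hX0s, rfl⟩ := (berLS K R).exists_cst hx
  obtain ⟨V0, hV0, hV0s, rfl⟩ := (berLS K R).exists_cst hv
  have hS : ∀ w : Ber k k[X], w.v X = r → ∃ k' : (berLS K R[X]).SFat (fibU h w)
      (mdl (prX K R).ix X0 V0), c'.1 (fibU h w) = (berLS K R[X]).germ _ k' := by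
    intro w hw
    have h1 := hxv w hw
    refine ⟨?_, ?_⟩
    · refine LogSpace.SFat.add ((prX K R).sfatY (fibU_over h w) hX0s) ?_
      refine LogSpace.SFat.wdg1 _ ⟨{X}, isSF_dlg (Finset.mem_singleton_self _), ?_⟩
        ((prX K R).sfatY (fibU_over h w) hV0s)
      intro f hf
      rw [Finset.mem_singleton.1 hf]
      exact h.v_X_ne hr hw
    · rw [h1]
      unfold IsResF.pb
      rw [Mor.pullY_germ, Mor.pullY_germ]
      unfold LogSpace.dlS
      rw [LogSpace.wdS_germ, ← LogSpace.germ_add]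
      rfl
  -- the Gauss point upstairs
  have hone' : ι (1 : R) ≠ 0 := by rw [map_one]; exact one_ne_zero
  have hd' : y'.v (1 : R) ≠ 0 := by rw [y'.one]; exact one_ne_zero
  obtain ⟨wr, hwr1, hwr2, -⟩ := exists_eta (ι (0 : R) / ι (1 : R)) r hr.le
  have hzr' : IsGz 0 1 y' r (fibU h wr) := fibU_gz h 0 1 hone' r hr wr hwr2
  have hwrX : wr.v X = r := by
    have h1 := hwr1 0
    rw [show ι (0 : R) = 0 from map_zero ι, zero_div, sub_zero, norm_zero, C_0, sub_zero,
      max_eq_left hr.le] at h1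
    exact h1
  have hmr : m.toFun (fibU h wr) = zr := isGz_unique (isGz_res f hf1 hyy hzr') hzr
  have hθs' : (berLS K A[X]).SFat (m.toFun (fibU h wr)) θ := by rw [hmr]; exact hθs
  have hθe' : c.1 (m.toFun (fibU h wr)) = (berLS K A[X]).germ θ hθs' := by
    have : ∀ z1 : Ber K A[X], z1 = zr → ∀ hs : (berLS K A[X]).SFat z1 θ,
        c.1 z1 = (berLS K A[X]).germ θ hs := by
      rintro _ rfl hs; exact hθe
    exact this _ hmr _
  obtain ⟨k1, hk1⟩ := hS wr hwrX
  have hV1 : (berLS K R[X]).Van (fibU h wr) (mdl (prX K R).ix X0 V0 - pullR m.ix θ) :=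
    ((berLS K R[X]).germ_eq_iff k1 (m.sfat hθs')).1 (hk1.symm.trans (hup _ θ hθs' hθe'))
  obtain ⟨W, hW, ε', hε', hε'r, hW'⟩ := gz_nhds (0 : R) 1 y' hd' r hr (fibU h wr) hzr' _
    (LogSpace.Van.nhds _ hV1)
  have hyW : y' ∈ W := mem_of_mem_nhds hW
  obtain ⟨ρ', hρ1, hρ2, hρ3, hρ4⟩ : ∃ ρ', r - ε < ρ' ∧ ρ' < r ∧ |ρ' - r| < ε' ∧ 0 < ρ' := by
    have hmin : 0 < min ε ε' := lt_min hε hε'
    have hm1 : min ε ε' ≤ ε := min_le_left _ _
    have hm2 : min ε ε' ≤ ε' := min_le_right _ _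
    refine ⟨r - min ε ε' / 2, by linarith, by linarith, ?_, by linarith⟩
    rw [show r - min ε ε' / 2 - r = -(min ε ε' / 2) by ring, abs_neg, abs_of_pos (by linarith)]
    linarith
  obtain ⟨z2, hz2⟩ := exists_gz (0 : R) 1 y' hd' ρ' hρ4
  have hV2 : (berLS K R[X]).Van z2 (mdl (prX K R).ix X0 V0 - pullR m.ix θ) :=
    (hW' y' hyW).2 ρ' hρ3 z2 hz2
  have hV3 := hbel ρ' hρ1 hρ2 (m.toFun z2) (isGz_res f hf1 hyy hz2)
  have hV4 := m.van hV3
  have hkey : mdl (prX K R).ix X0 V0 - pullR m.ix (mdl (prX K A).ix x0 v0) =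
      pullR (prX K R).ix (X0 - pullR f x0) +
        wdg1 (dlg (C (1 : R) * X - C 0)) (pullR (prX K R).ix (V0 - pullR f v0)) := by
    have hc1 : (C (1 : R) * X - C 0 : R[X]) = X := by rw [C_0, sub_zero, C_1, one_mul]
    rw [hc1]
    have hcomp : m.ix ∘ (prX K A).ix = (prX K R).ix ∘ f := by
      funext a
      show (C a : A[X]).map (f : A →+* R) = C (f a)
      rw [map_C]
      rfl
    have hmX : m.ix (X : A[X]) = (X : R[X]) := by
      show (X : A[X]).map (f : A →+* R) = X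
      rw [map_X]
    have h1 : pullR m.ix (mdl (prX K A).ix x0 v0) = mdl (prX K R).ix (pullR f x0) (pullR f v0) := by
      unfold mdl
      rw [pullR_add, pullR_wdg1]
      have e1 : ∀ {q' : ℕ} (η : Raw A q' 0), pullR m.ix (pullR (prX K A).ix η) =
          pullR (prX K R).ix (pullR f η) := by
        intro q' η
        funext x w v
        show η ((x ∘ m.ix) ∘ (prX K A).ix) _ _ = η ((x ∘ (prX K R).ix) ∘ f) _ _
        rw [Function.comp_assoc, Function.comp_assoc, hcomp]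
        congr 1 <;> funext j
        · exact j.elim0
        · show (v j ∘ m.ix) ∘ (prX K A).ix = (v j ∘ (prX K R).ix) ∘ f
          rw [Function.comp_assoc, Function.comp_assoc, hcomp]
      rw [e1, e1]
      have e2 : pullR m.ix (dlg (X : A[X])) = dlg (X : R[X]) := by
        funext x w v
        show v 0 (m.ix X) = v 0 X
        rw [hmX]
      rw [e2]
    rw [h1]
    have e3 : ∀ {q' : ℕ} (η : Raw R[X] 1 0) (a b : Raw R[X] q' 0),
        wdg1 η (a - b) = wdg1 η a - wdg1 η b := by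
      intro q' η a b
      have e4 : a = (a - b) + b := by rw [sub_add_cancel]
      conv_rhs => rw [e4, wdg1_add_right]
      rw [add_sub_cancel_right]
    have e5 : pullR (prX K R).ix (V0 - pullR f v0) =
        pullR (prX K R).ix V0 - pullR (prX K R).ix (pullR f v0) := rfl
    have e6 : pullR (prX K R).ix (X0 - pullR f x0) =
        pullR (prX K R).ix X0 - pullR (prX K R).ix (pullR f x0) := rfl
    rw [e5, e6, e3]
    unfold mdl
    abel
  have hV5 : (berLS K R[X]).Van z2 (mdl (prX K R).ix X0 V0 -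
      pullR m.ix (mdl (prX K A).ix x0 v0)) := by
    have h1 := LogSpace.Van.add _ hV2 hV4
    have h2 : mdl (prX K R).ix X0 V0 - pullR m.ix θ + pullR m.ix (θ -
        (pullR (prX K A).ix x0 + wdg1 (dlg (X : A[X])) (pullR (prX K A).ix v0))) =
        mdl (prX K R).ix X0 V0 - pullR m.ix (mdl (prX K A).ix x0 v0) := by
      funext x w v
      show (mdl (prX K R).ix X0 V0 x w v - pullR m.ix θ x w v) + (pullR m.ix θ x w v -
        pullR m.ix (mdl (prX K A).ix x0 v0) x w v) = mdl (prX K R).ix X0 V0 x w v -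
        pullR m.ix (mdl (prX K A).ix x0 v0) x w v
      ring
    rwa [h2] at h1
  rw [hkey] at hV5
  have hfx : (berLS K R).SFat y' (pullR f x0) := by
    have := (berMor f).sfatY hyy hx0s
    exact this
  have hfv : (berLS K R).SFat y' (pullR f v0) := by
    have := (berMor f).sfatY hyy hv0s
    exact this
  obtain ⟨hX, hV⟩ := gz_ind (0 : R) 1 y' hd' ρ' hρ4 z2 hz2 (X0 - pullR f x0)
    (isCst_sub hX0 (isCst_pullR hx0 _)) (hX0s.sub hfx) (V0 - pullR f v0)
    (isCst_sub hV0 (isCst_pullR hv0 _)) (hV0s.sub hfv) hV5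
  -- back to `z'`
  have hzX' : z'.v (X : R[X]) = r := by
    rw [← hz.2, ← hz']
    show z'.v X = z'.v ((X : A[X]).map (f : A →+* R))
    rw [map_X]
  have hV6 : (berLS K R[X]).Van z' (mdl (prX K R).ix X0 V0 -
      pullR m.ix (mdl (prX K A).ix x0 v0)) := by
    rw [hkey]
    refine LogSpace.Van.add _ ((prX K R).van (z := z') hX) ?_
    refine LogSpace.Van.wdg1_right _ ?_ ((prX K R).van (z := z') hV)
    refine ⟨{C (1 : R) * X - C 0}, isSF_dlg (Finset.mem_singleton_self _), ?_⟩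
    intro g hg
    rw [Finset.mem_singleton.1 hg]
    show z'.v (C (1 : R) * X - C 0) ≠ 0
    rw [C_0, sub_zero, C_1, one_mul, hzX']
    exact hr.ne'
  have hwX : w'.v X = r := by
    have h1 : (fibU h w').v (X : R[X]) = r := by rw [hw']; exact hzX'
    rw [fibU_v, map_X] at h1
    exact h1
  have hV7 : (berLS K R[X]).Van z' (mdl (prX K R).ix X0 V0 - pullR m.ix θz) := by
    have hθzs' : (berLS K A[X]).SFat (m.toFun (fibU h w')) θz := by
      rw [hw']
      show (berLS K A[X]).SFat (Ber.res (Polynomial.mapAlgHom f) z') θz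
      rw [hz']; exact hθzs
    have hθze' : c.1 (m.toFun (fibU h w')) = (berLS K A[X]).germ θz hθzs' := by
      have : ∀ z1 : Ber K A[X], z1 = z → ∀ hs : (berLS K A[X]).SFat z1 θz,
          c.1 z1 = (berLS K A[X]).germ θz hs := by
        rintro _ rfl hs; exact hθze
      refine this _ ?_ _
      rw [hw']; exact hz'
    obtain ⟨k2, hk2⟩ := hS w' hwX
    have := ((berLS K R[X]).germ_eq_iff k2 (m.sfat hθzs')).1
      (hk2.symm.trans (hup _ θz hθzs' hθze'))
    rwa [hw'] at this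
  have h8 := ((berLS K R[X]).VanM (p + 1) 0 z').sub_mem hV6 hV7
  have h9 : mdl (prX K R).ix X0 V0 - pullR m.ix (mdl (prX K A).ix x0 v0) -
      (mdl (prX K R).ix X0 V0 - pullR m.ix θz) = pullR (Polynomial.mapAlgHom f) (θz -
        (pullR (prX K A).ix x0 + wdg1 (dlg (X : A[X])) (pullR (prX K A).ix v0))) := by
    funext x w v
    show mdl (prX K R).ix X0 V0 x w v - pullR m.ix (mdl (prX K A).ix x0 v0) x w v -
      (mdl (prX K R).ix X0 V0 x w v - pullR m.ix θz x w v) = pullR m.ix θz x w v -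
      pullR m.ix (mdl (prX K A).ix x0 v0) x w v
    ring
  rw [h9] at h8
  exact h8

/-- The same for type `(0,0)`. -/
theorem circ_raw0 (hSTA : BG.STA_Stmt) (hINT : BG.INT_Stmt) {K A : Type} [NormedField K]
    [IsUltrametricDist K] [CommRing A] [IsDomain A] [Algebra K A] [Algebra.FiniteType K A]
    (y : Ber K A) {r : ℝ} (hr : 0 < r) (c : (berLS K A[X]).G 0 0)
    (hc : ∀ z ∈ circ y r, (berLS K A[X]).ddS 0 0 z (c.1 z) = 0) :
    ∃ t : ℝ, ∀ z ∈ circ y r, c.1 z = t • (berLS K A[X]).oneS z := by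
  have hone : y.v (1 : A) ≠ 0 := by rw [y.one]; exact one_ne_zero
  have hrep : ∀ z ∈ circ y r, ∃ t : ℝ, c.1 z = t • (berLS K A[X]).oneS z := fun z hz =>
    exists_smul_oneS _ ((berLS K A[X]).poincare0 (hSTA K A[X] z).1 (c.1 z) (hc z hz))
  obtain ⟨zr, hzr⟩ := exists_gz (0 : A) 1 y hone r hr
  have hzrc : zr ∈ circ y r := gz_mem_circ hr hzr
  obtain ⟨t, ht⟩ := hrep zr hzrc
  refine ⟨t, ?_⟩
  intro z hz
  obtain ⟨tz, htz⟩ := hrep z hz
  obtain ⟨R, _, _, f, hf1, hf2, hR⟩ := exists_intCl K A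
  obtain ⟨hF1, hF2⟩ := mapX_int f hf1 hf2
  obtain ⟨z', hz'⟩ : ∃ z', Ber.res (Polynomial.mapAlgHom f) z' = z := by
    obtain ⟨z', hz'⟩ := (hINT K A[X] R[X] (Polynomial.mapAlgHom f) hF1 hF2).2.1 z
    exact ⟨z', by rw [← hz']; rfl⟩
  -- upstairs
  let m : Mor (berLS K R[X]) (berLS K A[X]) := berMor (Polynomial.mapAlgHom f)
  let y' : Ber K R := (prX K R).toFun z'
  have hyy : Ber.res f y' = y := by
    rw [← hz.1]
    apply Ber.ext_v
    intro a
    show z'.v (C (f a)) = z.v (C a)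
    rw [← hz']
    show z'.v (C (f a)) = z'.v ((C a).map (f : A →+* R))
    rw [map_C]
    rfl
  have hcirc : ∀ z'' : Ber K R[X], (prX K R).toFun z'' = y' → z''.v X = r →
      m.toFun z'' ∈ circ y r := by
    intro z'' h1 h2
    refine ⟨?_, ?_⟩
    · rw [← hyy, ← h1]
      apply Ber.ext_v
      intro a
      show z''.v ((C a).map (f : A →+* R)) = z''.v (C (f a))
      rw [map_C]
      rfl
    · show z''.v ((X : A[X]).map (f : A →+* R)) = r
      rw [map_X]
      exact h2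
  obtain ⟨k, _, _, ι, h⟩ := exists_resF y'
  have hcl : IsAlgClosed k := resF_algClosed hR h
  obtain ⟨w', hw'⟩ := fibU_surj h z' rfl
  let c' := m.pullG 0 0 c
  have hup : ∀ (z'' : Ber K R[X]) (τ : ℝ), c.1 (m.toFun z'') = τ • (berLS K A[X]).oneS _ →
      c'.1 z'' = τ • (berLS K R[X]).oneS z'' := by
    intro z'' τ e
    show m.pullS 0 0 z'' (c.1 (m.toFun z'')) = _
    rw [e, (m.pullS 0 0 z'').map_smul, Mor.pullS_oneS]
  obtain ⟨x, hx, hxv⟩ := h.circle0 hr (fun w => c'.1 (fibU h w)) (by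
    intro w hw
    have hmem : m.toFun (fibU h w) ∈ circ y r :=
      hcirc _ (fibU_over h w) (by rw [fibU_v, map_X, hw])
    obtain ⟨τ, hτ⟩ := hrep _ hmem
    have e1 := hup _ τ hτ
    unfold LogSpace.oneS at e1
    rw [← LogSpace.germ_smul] at e1
    refine ⟨τ • one0, isCst_one0.smul τ, ?_⟩
    have := (fibU_continuous h).continuousAt.eventually (near_of_germ _ c' _ e1)
    filter_upwards [this] with w'' hw'' _ using hw'')
  obtain ⟨t', rfl⟩ := exists_smul_oneS _ hx
  have hS : ∀ w : Ber k k[X], w.v X = r → c'.1 (fibU h w) = t' • (berLS K R[X]).oneS _ := by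
    intro w hw
    have h1 := hxv w hw
    rw [h1]
    unfold IsResF.pb
    rw [((prX K R).pullY (fibU_over h w) 0 0).map_smul, Mor.pullY_oneS]
  have hone' : ι (1 : R) ≠ 0 := by rw [map_one]; exact one_ne_zero
  obtain ⟨wr, hwr1, hwr2, -⟩ := exists_eta (ι (0 : R) / ι (1 : R)) r hr.le
  have hzr' : IsGz 0 1 y' r (fibU h wr) := fibU_gz h 0 1 hone' r hr wr hwr2
  have hwrX : wr.v X = r := by
    have h1 := hwr1 0
    rw [show ι (0 : R) = 0 from map_zero ι, zero_div, sub_zero, norm_zero, C_0, sub_zero,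
      max_eq_left hr.le] at h1
    exact h1
  have hmr : m.toFun (fibU h wr) = zr := isGz_unique (isGz_res f hf1 hyy hzr') hzr
  have e1 : t' = t := by
    refine smul_oneS_inj _ ((hS wr hwrX).symm.trans (hup _ t ?_))
    rw [hmr]; exact ht
  have hzX' : z'.v (X : R[X]) = r := by
    rw [← hz.2, ← hz']
    show z'.v X = z'.v ((X : A[X]).map (f : A →+* R))
    rw [map_X]
  have hwX : w'.v X = r := by
    have h1 : (fibU h w').v (X : R[X]) = r := by rw [hw']; exact hzX'
    rw [fibU_v, map_X] at h1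
    exact h1
  have e2 : t' = tz := by
    refine smul_oneS_inj _ ((hS w' hwX).symm.trans (hup _ tz ?_))
    have : m.toFun (fibU h w') = z := by rw [hw']; exact hz'
    rw [this]; exact htz
  rw [htz, ← e2, e1]

end Pool.Agent.TD
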