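import Pool.Agent.TD.U.Defs
import Pool.Agent.TD.T.Res

/-! Block U: residue fields. -/

open scoped ContDiff Topology
open Polynomial

namespace Pool.Agent.TD

open T_RES in
/-- Residue fields exist. -/
theorem exists_resF {K R : Type} [NormedField K] [CommRing R] [Algebra K R] (y : Ber K R) :
    ∃ (k : Type) (_ : NormedField k) (_ : IsUltrametricDist k) (ι : R →+* k), IsResF y ι := by
  let p : Ideal R := (val y).supp
  have hp : p.IsPrime := inferInstance
  let vR : Valuation (R ⧸ p) NNReal := (val y).onQuot le_rfl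
  have hvR : ∀ a : R, (vR (Ideal.Quotient.mk p a) : ℝ) = y.v a := fun a => rfl
  have hsupp : vR.supp = ⊥ := (val y).supp_quot_supp
  have hS : nonZeroDivisors (R ⧸ p) ≤ vR.supp.primeCompl := by
    intro s hs
    rw [Ideal.mem_primeCompl_iff, hsupp, Ideal.mem_bot]
    exact nonZeroDivisors.ne_zero hs
  let L : Type := FractionRing (R ⧸ p)
  let vL : Valuation L NNReal := vR.extendToLocalization hS L
  have hvL : ∀ x : R ⧸ p, vL (algebraMap (R ⧸ p) L x) = vR x := fun x =>
    vR.extendToLocalization_apply_map_apply hS L x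
  let w : AbsoluteValue L ℝ := absOf vL
  let ι : R →+* WithAbs w :=
    (WithAbs.equiv w).symm.toRingHom.comp
        ((algebraMap (R ⧸ p) L).comp (Ideal.Quotient.mk p))
  have hι : ∀ a : R, ι a = WithAbs.toAbs w
      (algebraMap (R ⧸ p) L (Ideal.Quotient.mk p a)) := fun a => rfl
  have hn : ∀ a : R, ‖ι a‖ = y.v a := by
    intro a
    rw [hι a, WithAbs.norm_toAbs_eq]
    show ((vL (algebraMap (R ⧸ p) L (Ideal.Quotient.mk p a)) : NNReal) : ℝ) = y.v a
    rw [hvL]
    exact hvR a
  refine ⟨WithAbs w, inferInstance, ?_, ι, hn, ?_⟩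
  · apply IsUltrametricDist.isUltrametricDist_of_forall_norm_add_le_max_norm
    intro x y
    exact absOf_add vL x.ofAbs y.ofAbs
  · intro x
    obtain ⟨a', b', hb', hab⟩ := IsFractionRing.div_surjective (A := R ⧸ p) x.ofAbs
    obtain ⟨a, rfl⟩ := Ideal.Quotient.mk_surjective a'
    obtain ⟨b, rfl⟩ := Ideal.Quotient.mk_surjective b'
    refine ⟨a, b, ?_, ?_⟩
    · intro h0
      have h1 : y.v b = 0 := by
        rw [← hn b, h0, norm_zero]
      have h2 : b ∈ p := by
        show b ∈ (val y).supp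
        rw [Valuation.mem_supp_iff]
        exact Subtype.ext h1
      exact nonZeroDivisors.ne_zero hb' (Ideal.Quotient.eq_zero_iff_mem.2 h2)
    · rw [hι, hι, ← WithAbs.toAbs_div, hab]

/-- Monic polynomials over `R` are products of linear ones. -/
def MonSplits (R : Type) [CommRing R] : Prop := ∀ f : R[X], f.Monic →
  ∃ s : Multiset R, f = (s.map fun a => X - C a).prod

theorem resF_algClosed {K R k : Type} [NormedField K] [CommRing R] [Algebra K R] [NormedField k]
    (hR : MonSplits R) {y : Ber K R} {ι : R →+* k} (h : IsResF y ι) : IsAlgClosed k := by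
  apply IsAlgClosed.of_exists_root
  intro p hp hirr
  choose a b hb hab using fun i : ℕ => h.frac (p.coeff i)
  set n := p.natDegree with hn
  have hn0 : 0 < n := hirr.natDegree_pos
  set d : R := ∏ i ∈ Finset.range n, b i with hd
  have hd0 : ι d ≠ 0 := by
    rw [hd, map_prod]
    exact Finset.prod_ne_zero_iff.2 fun i _ => hb i
  have hl : p.scaleRoots (ι d) ∈ lifts ι := by
    rw [lifts_iff_coeff_lifts]
    intro i
    rw [coeff_scaleRoots, ← hn]
    rcases lt_trichotomy i n with hi | hi | hi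
    · have h1 : b i ∣ d := by
        rw [hd]; exact Finset.dvd_prod_of_mem b (Finset.mem_range.2 hi)
      obtain ⟨e, he⟩ := h1
      obtain ⟨m, hm⟩ : ∃ m, n - i = m + 1 := ⟨n - i - 1, by omega⟩
      refine ⟨a i * (e * d ^ m), ?_⟩
      rw [hab i, hm, pow_succ, map_mul, map_mul, map_pow]
      have h2 : ι d = ι (b i) * ι e := by rw [← map_mul, ← he]
      have h3 := hb i
      field_simp
      rw [h2]
      ring
    · refine ⟨1, ?_⟩
      rw [hi, Nat.sub_self, pow_zero, mul_one, map_one, hn]
      exact hp.coeff_natDegree.symm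
    · refine ⟨0, ?_⟩
      rw [coeff_eq_zero_of_natDegree_lt (by omega), zero_mul, map_zero]
  obtain ⟨q, hq, hqd, hqm⟩ := lifts_and_natDegree_eq_and_monic hl
    ((monic_scaleRoots_iff (ι d)).2 hp)
  rw [natDegree_scaleRoots, ← hn] at hqd
  obtain ⟨s, hs⟩ := hR q hqm
  have hs0 : s ≠ 0 := by
    intro h0
    rw [h0, Multiset.map_zero, Multiset.prod_zero] at hs
    rw [hs, natDegree_one] at hqd
    omega
  obtain ⟨r, hr⟩ := Multiset.exists_mem_of_ne_zero hs0
  have h1 : eval r q = 0 := by
    have h2 : X - C r ∣ q := by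
      rw [hs]
      exact Multiset.dvd_prod (Multiset.mem_map_of_mem (fun a => X - C a) hr)
    exact (dvd_iff_isRoot.1 h2)
  have h3 : eval (ι r) (p.scaleRoots (ι d)) = 0 := by
    rw [← hq, eval_map, eval₂_at_apply, h1, map_zero]
  refine ⟨ι r / ι d, ?_⟩
  have h4 := scaleRoots_eval_mul p (ι r / ι d) (ι d)
  rw [mul_div_cancel₀ _ hd0, h3] at h4
  exact (mul_eq_zero.1 h4.symm).resolve_left (pow_ne_zero _ hd0)

end Pool.Agent.TD
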