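import Pool.Agent.TD.U.Tk1

/-! Block U: the line over an algebraically closed field (not complete). -/

open scoped Topology
open Polynomial

namespace Pool.Agent.TD

variable {k : Type} [NormedField k] [IsUltrametricDist k] [IsAlgClosed k]

omit [IsUltrametricDist k] in
/-- The value of a polynomial in terms of its roots. -/
theorem Tk2_prod (w : Ber k k[X]) (f : k[X]) :
    w.v f = ‖f.leadingCoeff‖ * (f.roots.map fun a => w.v (X - C a)).prod := by
  have h1 : C f.leadingCoeff * (f.roots.map fun a => X - C a).prod = f :=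
    C_leadingCoeff_mul_prod_multiset_X_sub_C IsAlgClosed.card_roots_eq_natDegree
  have h2 : w.v (C f.leadingCoeff) = ‖f.leadingCoeff‖ := w.ext f.leadingCoeff
  conv_lhs => rw [← h1]
  rw [w.mul, w.mprod, Multiset.map_map, h2]
  rfl

/-- Points are determined by the values on linear polynomials. -/
theorem ext_lin {w w' : Ber k k[X]} (h : ∀ β, w.v (X - C β) = w'.v (X - C β)) : w = w' := by
  apply Ber.ext_v
  intro f
  rw [Tk2_prod, Tk2_prod]
  congr 2
  exact Multiset.map_congr rfl fun a _ => h a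

theorem le_lin {w w' : Ber k k[X]} (h : ∀ β, w.v (X - C β) ≤ w'.v (X - C β)) : w ≤ w' := by
  intro f
  show w.v f ≤ w'.v f
  rw [Tk2_prod, Tk2_prod]
  refine mul_le_mul_of_nonneg_left ?_ (norm_nonneg _)
  exact Multiset.prod_map_le_prod_map₀ _ _ (fun a _ => w.nonneg _) fun a _ => h a

/-- Nets of points converge if the values on linear polynomials do. -/
theorem tendsto_lin {ι : Type} {l : Filter ι} {w : ι → Ber k k[X]} {w0 : Ber k k[X]}
    (h : ∀ β, Filter.Tendsto (fun n => (w n).v (X - C β)) l (𝓝 (w0.v (X - C β)))) :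
    Filter.Tendsto w l (𝓝 w0) := by
  rw [nhds_induced, Filter.tendsto_comap_iff, tendsto_pi_nhds]
  intro f
  have h1 := tendsto_multiset_prod f.roots fun a _ => h a
  have h2 := h1.const_mul ‖f.leadingCoeff‖
  have h3 : (fun n => (w n).v f) = fun n =>
      ‖f.leadingCoeff‖ * (f.roots.map fun a => (w n).v (X - C a)).prod := by
    funext n
    exact Tk2_prod (w n) f
  show Filter.Tendsto (fun n => (w n).v f) l (𝓝 (w0.v f))
  rw [h3, Tk2_prod w0 f]
  exact h2

/-- The value at `X - β'` from the value at `X - β`. -/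
theorem Tk2_of_lt (w : Ber k k[X]) {β β' : k} (h : w.v (X - C β) < ‖β - β'‖) :
    w.v (X - C β') = ‖β - β'‖ := by
  have h1 : w.v (C (β - β')) = ‖β - β'‖ := w.ext (β - β')
  have h2 : w.v (C (β - β') + (X - C β)) = w.v (C (β - β')) := w.add_eq (by rwa [h1])
  rw [← h1, ← h2]
  congr 1
  rw [C_sub]
  ring

theorem Tk2_of_lt' (w : Ber k k[X]) {β β' : k} (h : w.v (X - C β) < w.v (X - C β')) :
    ‖β - β'‖ = w.v (X - C β') := by
  have h1 : w.v (C (β - β')) = ‖β - β'‖ := w.ext (β - β')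
  have h2 : w.v ((X - C β') + -(X - C β)) = w.v (X - C β') := w.add_eq (by rwa [w.neg])
  rw [← h1, ← h2]
  congr 1
  rw [C_sub]
  ring

theorem Tk2_le (w : Ber k k[X]) (β β' : k) :
    w.v (X - C β') ≤ max (w.v (X - C β)) ‖β - β'‖ := by
  have h1 : w.v (C (β - β')) = ‖β - β'‖ := w.ext (β - β')
  rw [← h1]
  have h2 := w.add (X - C β) (C (β - β'))
  have h3 : (X - C β) + C (β - β') = X - C β' := by
    rw [C_sub]
    ring
  rwa [h3] at h2

/-- Classification: Gauss points of positive radius, and points which are limits of discs. -/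
theorem classify (w : Ber k k[X]) :
    (∃ a ρ, 0 < ρ ∧ ∀ β, w.v (X - C β) = max ρ ‖a - β‖) ∨
    ∀ S : Finset k, (∀ β ∈ S, w.v (X - C β) ≠ 0) →
      ∃ β, ∀ β' ∈ S, w.v (X - C β) < w.v (X - C β') := by
  by_cases hmin : ∃ β0, ∀ β, w.v (X - C β0) ≤ w.v (X - C β)
  · obtain ⟨β0, h0⟩ := hmin
    rcases (w.nonneg (X - C β0)).eq_or_lt with h1 | h1
    · right
      intro S hS
      refine ⟨β0, fun β' hβ' => ?_⟩
      rw [← h1]
      exact lt_of_le_of_ne (w.nonneg _) (hS β' hβ').symm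
    · left
      refine ⟨β0, w.v (X - C β0), h1, fun β => ?_⟩
      apply le_antisymm (Tk2_le w β0 β)
      refine max_le (h0 β) ?_
      by_contra hc
      push Not at hc
      have h2 : w.v (X - C β0) < ‖β0 - β‖ := (h0 β).trans_lt hc
      rw [Tk2_of_lt w h2] at hc
      exact lt_irrefl _ hc
  · right
    push Not at hmin
    intro S hS
    rcases S.eq_empty_or_nonempty with rfl | hne
    · exact ⟨0, fun β' h => absurd h (Finset.notMem_empty β')⟩
    · obtain ⟨β1, hβ1, h1⟩ := S.exists_min_image (fun β => w.v (X - C β)) hne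
      obtain ⟨β, hβ⟩ := hmin β1
      exact ⟨β, fun β' hβ' => hβ.trans_le (h1 β' hβ')⟩

/-- At a point of the second kind every neighbourhood contains a whole disc around the point, with
centre `β`, arbitrarily small compared to the distances to `S`. -/
theorem limit_disc (w : Ber k k[X]) (h : ∀ S : Finset k, (∀ β ∈ S, w.v (X - C β) ≠ 0) →
      ∃ β, ∀ β' ∈ S, w.v (X - C β) < w.v (X - C β')) (W : Set (Ber k k[X])) (hW : W ∈ 𝓝 w)
    (S : Finset k) (hS : ∀ β ∈ S, w.v (X - C β) ≠ 0) :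
    ∃ (β : k) (ρ : ℝ) (e : Ber k k[X]), 0 < ρ ∧ (∀ β', e.v (X - C β') = max ρ ‖β - β'‖) ∧
      w.v (X - C β) ≤ ρ ∧ w ≤ e ∧ e ∈ W ∧ ∀ β' ∈ S, ρ < w.v (X - C β') := by
  classical
  -- the neighbourhood
  obtain ⟨I, hI, t, ht, hsub⟩ : ∃ I : Set k, I.Finite ∧ ∃ t : k → Set ℝ,
      (∀ β, t β ∈ 𝓝 (w.v (X - C β))) ∧ ∀ e : Ber k k[X], (∀ β ∈ I, e.v (X - C β) ∈ t β) →
        e ∈ W := by
    let Φ : Ber k k[X] → k → ℝ := fun w' β => w'.v (X - C β)
    have h1 : Filter.Tendsto (fun w' : Ber k k[X] => w') (Filter.comap Φ (𝓝 (Φ w))) (𝓝 w) := by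
      apply tendsto_lin
      intro β
      have h2 : Filter.Tendsto Φ (Filter.comap Φ (𝓝 (Φ w))) (𝓝 (Φ w)) := Filter.tendsto_comap
      exact (tendsto_pi_nhds.1 h2) β
    have h3 := h1 hW
    rw [Filter.mem_map, Filter.mem_comap] at h3
    obtain ⟨u, hu, hu'⟩ := h3
    rw [nhds_pi, Filter.mem_pi] at hu
    obtain ⟨I, hI, t, ht, hsub⟩ := hu
    exact ⟨I, hI, t, ht, fun e he => hu' (hsub he)⟩
  by_cases hz : ∃ β0, w.v (X - C β0) = 0
  · obtain ⟨β0, h0⟩ := hz
    have hval : ∀ β', w.v (X - C β') = ‖β0 - β'‖ := by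
      intro β'
      rcases (norm_nonneg (β0 - β')).eq_or_lt with h1 | h1
      · have h2 : β0 = β' := sub_eq_zero.1 (norm_eq_zero.1 h1.symm)
        rw [← h1, ← h2, h0]
      · exact Tk2_of_lt w (by rwa [h0])
    have e1 : ∀ᶠ ρ : ℝ in 𝓝[>] 0, ∀ β ∈ I, max ρ ‖β0 - β‖ ∈ t β := by
      rw [Filter.eventually_all_finite hI]
      intro β _
      have h2 : Filter.Tendsto (fun ρ : ℝ => max ρ ‖β0 - β‖) (𝓝 0) (𝓝 (max 0 ‖β0 - β‖)) :=
        (continuous_id.max continuous_const).tendsto 0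
      rw [max_eq_right (norm_nonneg _)] at h2
      have h4 : t β ∈ 𝓝 ‖β0 - β‖ := by
        rw [← hval]
        exact ht β
      have h5 : ∀ᶠ ρ : ℝ in 𝓝 0, max ρ ‖β0 - β‖ ∈ t β := h2 h4
      exact h5.filter_mono nhdsWithin_le_nhds
    have e2 : ∀ᶠ ρ : ℝ in 𝓝[>] 0, ∀ β ∈ S, ρ < w.v (X - C β) := by
      rw [Filter.eventually_all_finset]
      intro β hβ
      have h2 : (0 : ℝ) < w.v (X - C β) := lt_of_le_of_ne (w.nonneg _) (hS β hβ).symm
      exact (eventually_lt_nhds h2).filter_mono nhdsWithin_le_nhds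
    obtain ⟨ρ, ⟨h1, h2⟩, h3⟩ := ((e1.and e2).and self_mem_nhdsWithin).exists
    have h3' : (0 : ℝ) < ρ := h3
    obtain ⟨e, he1, -, he3⟩ := exists_eta (k := k) β0 ρ h3'.le
    have hle : w.v (X - C β0) ≤ ρ := by rw [h0]; exact h3'.le
    refine ⟨β0, ρ, e, h3', he1, hle, he3 w hle, hsub e fun β hβ => ?_, h2⟩
    rw [he1]
    exact h1 β hβ
  · push Not at hz
    obtain ⟨β1, h1⟩ := h (S ∪ hI.toFinset) fun β _ => hz β
    have hpos : 0 < w.v (X - C β1) := lt_of_le_of_ne (w.nonneg _) (hz β1).symm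
    obtain ⟨e, he1, -, he3⟩ := exists_eta (k := k) β1 (w.v (X - C β1)) hpos.le
    refine ⟨β1, w.v (X - C β1), e, hpos, he1, le_rfl, he3 w le_rfl, hsub e fun β hβ => ?_,
      fun β' hβ' => h1 β' (Finset.mem_union_left _ hβ')⟩
    have h2 := h1 β (Finset.mem_union_right _ (hI.mem_toFinset.2 hβ))
    rw [he1, Tk2_of_lt' w h2, max_eq_right h2.le]
    exact mem_of_mem_nhds (ht β)

end Pool.Agent.TD
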