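import Pool.Agent.TD.U.Defs
import Pool.Agent.TD.U.Tk2

/-! Block U3, abstract form: normal forms. -/

open scoped ContDiff Topology
open Polynomial

namespace Pool.Agent.TD

namespace RSys

variable {k M N : Type} [NormedField k] [IsUltrametricDist k] [IsAlgClosed k] [AddCommGroup M]
  [AddCommGroup N] (P : RSys k M N)

/-- `w` is the Gauss point of centre `a` and radius `ρ > 0`. -/
def IsG (a : k) (ρ : ℝ) (w : Ber k k[X]) : Prop := 0 < ρ ∧ ∀ β, w.v (X - C β) = max ρ ‖a - β‖

theorem ev_lt (w : Ber k k[X]) (β β' : k) (h : w.v (X - C β) < w.v (X - C β')) :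
    ∀ᶠ w' in 𝓝 w, w'.v (X - C β) < w'.v (X - C β') :=
  (Ber.continuous_v (X - C β)).continuousAt.eventually_lt
    (Ber.continuous_v (X - C β')).continuousAt h

theorem ev_const_lt (w : Ber k k[X]) (β : k) (c : ℝ) (h : c < w.v (X - C β)) :
    ∀ᶠ w' in 𝓝 w, c < w'.v (X - C β) :=
  (Ber.continuous_v (X - C β)).continuousAt.eventually_const_lt h

theorem normal_aux {a : k} {ρ : ℝ} {w : Ber k k[X]} (hw : IsG a ρ w) (S₀ : Finset k)
    (v₀ : k → N) :
    ∃ (x : M) (S : Finset k) (v : k → N), (∀ β ∈ S, ‖a - β‖ ≤ ρ) ∧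
      (∀ β ∈ S, ∀ β' ∈ S, β ≠ β' → ρ ≤ ‖β - β'‖) ∧
      ∀ᶠ w' in 𝓝 w, ∑ β ∈ S₀, P.j w' β (v₀ β) = P.i w' x + ∑ β ∈ S, P.j w' β (v β) := by
  classical
  obtain ⟨hρ, hw⟩ := hw
  induction S₀ using Finset.induction_on with
  | empty =>
    refine ⟨0, ∅, 0, by simp, by simp, ?_⟩
    simp
  | insert b S₀ hb ih =>
    obtain ⟨x, S, v, h1, h2, h3⟩ := ih
    have hwa : w.v (X - C a) = ρ := by
      rw [hw, sub_self, norm_zero, max_eq_left hρ.le]
    by_cases hc : ρ < ‖a - b‖
    · have h4 : w.v (X - C a) < w.v (X - C b) := by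
        rw [hwa, hw b]
        exact lt_max_of_lt_right hc
      refine ⟨P.l (b - a) (v₀ b) + x, S, v, h1, h2, ?_⟩
      filter_upwards [h3, ev_lt w a b h4] with w' e1 e2
      rw [Finset.sum_insert hb, e1, P.j1 w' b a e2, map_add, add_assoc]
    · push Not at hc
      have hwb : w.v (X - C b) = ρ := by rw [hw, max_eq_left hc]
      by_cases hd : ∃ β ∈ S, ‖b - β‖ < ρ
      · obtain ⟨β, hβ, hd⟩ := hd
        refine ⟨x, S, Function.update v β (v₀ b + v β), h1, h2, ?_⟩
        have h4 : ‖b - β‖ < w.v (X - C b) := by rwa [hwb]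
        filter_upwards [h3, ev_const_lt w b _ h4] with w' e1 e2
        rw [Finset.sum_insert hb, e1, P.j2 w' b β e2]
        rw [← Finset.add_sum_erase S _ hβ, ← Finset.add_sum_erase S
          (fun β_1 => P.j w' β_1 (Function.update v β (v₀ b + v β) β_1)) hβ]
        have h5 : ∑ β_1 ∈ S.erase β, P.j w' β_1 (Function.update v β (v₀ b + v β) β_1) =
            ∑ β_1 ∈ S.erase β, P.j w' β_1 (v β_1) := by
          refine Finset.sum_congr rfl fun c hc => ?_
          rw [Function.update_of_ne (Finset.ne_of_mem_erase hc)]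
        rw [h5, Function.update_self, map_add]
        abel
      · push Not at hd
        have hbS : b ∉ S := by
          intro hb'
          have := hd b hb'
          rw [sub_self, norm_zero] at this
          exact absurd this (not_le.2 hρ)
        refine ⟨x, insert b S, Function.update v b (v₀ b), ?_, ?_, ?_⟩
        · intro β hβ
          rcases Finset.mem_insert.1 hβ with rfl | hβ
          · exact hc
          · exact h1 β hβ
        · intro β hβ β' hβ' hne
          rcases Finset.mem_insert.1 hβ with e | hβ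
          · rcases Finset.mem_insert.1 hβ' with e' | hβ'
            · exact absurd (e.trans e'.symm) hne
            · rw [e]
              exact hd β' hβ'
          · rcases Finset.mem_insert.1 hβ' with e' | hβ'
            · rw [e', norm_sub_rev]
              exact hd β hβ
            · exact h2 β hβ β' hβ' hne
        · filter_upwards [h3] with w' e1
          rw [Finset.sum_insert hb, e1, Finset.sum_insert hbS, Function.update_self]
          have h5 : ∑ β_1 ∈ S, P.j w' β_1 (Function.update v b (v₀ b) β_1) =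
              ∑ β_1 ∈ S, P.j w' β_1 (v β_1) := by
            refine Finset.sum_congr rfl fun c hcS => ?_
            have hcb : c ≠ b := fun e => hbS (e ▸ hcS)
            rw [Function.update_of_ne hcb]
          rw [h5]
          abel

/-- Normal form at a Gauss point: the centres can be chosen in the disc, in different classes. -/
theorem normal_form {s : ∀ w, P.E w} {D : Set (Ber k k[X])} {a : k} {ρ : ℝ} {w : Ber k k[X]}
    (hw : IsG a ρ w) (h : P.LC s D w) :
    ∃ (x : M) (S : Finset k) (v : k → N), (∀ β ∈ S, ‖a - β‖ ≤ ρ) ∧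
      (∀ β ∈ S, ∀ β' ∈ S, β ≠ β' → ρ ≤ ‖β - β'‖) ∧
      ∀ᶠ w' in 𝓝 w, w' ∈ D → s w' = P.i w' x + ∑ β ∈ S, P.j w' β (v β) := by
  obtain ⟨x₀, S₀, v₀, -, h0⟩ := h
  obtain ⟨x, S, v, h1, h2, h3⟩ := P.normal_aux hw S₀ v₀
  refine ⟨x₀ + x, S, v, h1, h2, ?_⟩
  filter_upwards [h0, h3] with w' e0 e3 hD
  rw [e0 hD, e3, map_add, add_assoc]

/-- At a point which is a limit of discs sections are base elements. -/
theorem limit_form {s : ∀ w, P.E w} {D : Set (Ber k k[X])} {w : Ber k k[X]}
    (hw : ∀ S : Finset k, (∀ β ∈ S, w.v (X - C β) ≠ 0) →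
      ∃ β, ∀ β' ∈ S, w.v (X - C β) < w.v (X - C β')) (h : P.LC s D w) :
    ∃ x : M, ∀ᶠ w' in 𝓝 w, w' ∈ D → s w' = P.i w' x := by
  obtain ⟨x₀, S₀, v₀, hS₀, h0⟩ := h
  obtain ⟨β, hβ⟩ := hw S₀ hS₀
  refine ⟨x₀ + ∑ β' ∈ S₀, P.l (β' - β) (v₀ β'), ?_⟩
  have h1 : ∀ᶠ w' in 𝓝 w, ∀ β' ∈ S₀, w'.v (X - C β) < w'.v (X - C β') :=
    (Filter.eventually_all_finset S₀).2 fun β' hβ' => ev_lt w β β' (hβ β' hβ')
  filter_upwards [h0, h1] with w' e0 e1 hD
  rw [e0 hD, map_add, map_sum]
  congr 1
  exact Finset.sum_congr rfl fun β' hβ' => P.j1 w' β' β (e1 β' hβ') _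

end RSys

end Pool.Agent.TD
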