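import Pool.Agent.TD.U.Abs1

/-! Block U3, abstract form: total coefficients vanish inside the circle. -/

open scoped ContDiff Topology
open Polynomial

namespace Pool.Agent.TD

namespace RSys

namespace Abs2

theorem tri {k : Type} [NormedField k] [IsUltrametricDist k] (a b c : k) :
    ‖a - c‖ ≤ max ‖a - b‖ ‖b - c‖ := by
  have h := IsUltrametricDist.dist_triangle_max a b c
  rwa [dist_eq_norm, dist_eq_norm, dist_eq_norm] at h

end Abs2

variable {k M N : Type} [NormedField k] [IsUltrametricDist k] [IsAlgClosed k] [AddCommGroup M]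
  [AddCommGroup N] (P : RSys k M N)

/-- The coefficient of a section at a Gauss point in the direction of the complement of the disc:
`tot = τ` means: for all `ρ'` slightly smaller than `ρ` (and for `ρ` itself) ... ; formulated through
a normal form at the point. -/
def Tot (s : ∀ w, P.E w) (D : Set (Ber k k[X])) (a : k) (ρ : ℝ) (w : Ber k k[X]) (τ : N) : Prop :=
  IsG a ρ w ∧ ∃ (x : M) (S : Finset k) (v : k → N), (∀ β ∈ S, ‖a - β‖ ≤ ρ) ∧
      (∀ β ∈ S, ∀ β' ∈ S, β ≠ β' → ρ ≤ ‖β - β'‖) ∧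
      (∀ᶠ w' in 𝓝 w, w' ∈ D → s w' = P.i w' x + ∑ β ∈ S, P.j w' β (v β)) ∧ τ = ∑ β ∈ S, v β

/-- Total coefficients, with arbitrary centres in the disc. -/
def TT (s : ∀ w, P.E w) (D : Set (Ber k k[X])) (a : k) (ρ : ℝ) (w : Ber k k[X]) (τ : N) : Prop :=
  IsG a ρ w ∧ ∃ (x : M) (S : Finset k) (v : k → N), (∀ β ∈ S, ‖a - β‖ ≤ ρ) ∧
      (∀ᶠ w' in 𝓝 w, w' ∈ D → s w' = P.i w' x + ∑ β ∈ S, P.j w' β (v β)) ∧ τ = ∑ β ∈ S, v β

omit [IsAlgClosed k] in
/-- Independence for centres in arbitrary position. -/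
theorem ind_sum {a : k} {ρ : ℝ} {w : Ber k k[X]} (hw : IsG a ρ w) {ι : Type} (T : Finset ι)
    (x : M) (b : ι → k) (u : ι → N) (hb : ∀ t ∈ T, ‖a - b t‖ ≤ ρ)
    (h : P.i w x + ∑ t ∈ T, P.j w (b t) (u t) = 0) : x = 0 ∧ ∑ t ∈ T, u t = 0 := by
  classical
  have hρ := hw.1
  let st : Setoid k :=
    { r := fun β β' => ‖β - β'‖ < ρ
      iseqv :=
        { refl := fun β => by rw [sub_self, norm_zero]; exact hρ
          symm := fun {β β'} h => by rw [norm_sub_rev]; exact h
          trans := fun {β β' β''} h h' => (Abs2.tri β β' β'').trans_lt (max_lt h h') } }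
  let c : k → k := fun β => Quotient.out (Quotient.mk st β)
  have hc1 : ∀ β, ‖c β - β‖ < ρ := fun β => Quotient.mk_out (s := st) β
  have hc2 : ∀ β β', c β ≠ c β' → ρ ≤ ‖c β - c β'‖ := by
    intro β β' hne
    by_contra hlt
    push Not at hlt
    apply hne
    have e : Quotient.mk st β = Quotient.mk st β' := by
      apply Quotient.sound
      show ‖β - β'‖ < ρ
      have h1 : ‖β - c β‖ < ρ := by rw [norm_sub_rev]; exact hc1 β
      exact (Abs2.tri β (c β) β').trans_lt
        (max_lt h1 ((Abs2.tri (c β) (c β') β').trans_lt (max_lt hlt (hc1 β'))))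
    show Quotient.out (Quotient.mk st β) = Quotient.out (Quotient.mk st β')
    rw [e]
  have hval : ∀ β, ‖a - β‖ ≤ ρ → w.v (X - C β) = ρ := fun β hβ => by
    rw [hw.2, max_eq_left hβ]
  have hj : ∀ t ∈ T, P.j w (b t) (u t) = P.j w (c (b t)) (u t) := by
    intro t ht
    apply P.j2
    rw [hval _ (hb t ht), norm_sub_rev]
    exact hc1 (b t)
  have key := P.ind a ρ w hρ hw.2 (T.image fun t => c (b t)) x
    (fun γ => ∑ t ∈ T with c (b t) = γ, u t) ?_ ?_ ?_
  · refine ⟨key.1, ?_⟩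
    rw [← Finset.sum_fiberwise_of_maps_to (s := T) (t := T.image fun t => c (b t))
      (g := fun t => c (b t)) (fun t ht => Finset.mem_image_of_mem _ ht) u]
    exact Finset.sum_eq_zero key.2
  · intro γ hγ
    obtain ⟨t, ht, rfl⟩ := Finset.mem_image.1 hγ
    refine (Abs2.tri a (b t) (c (b t))).trans (max_le (hb t ht) ?_)
    rw [norm_sub_rev]
    exact (hc1 _).le
  · intro γ hγ γ' hγ' hne
    obtain ⟨t, ht, rfl⟩ := Finset.mem_image.1 hγ
    obtain ⟨t', ht', rfl⟩ := Finset.mem_image.1 hγ'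
    exact hc2 _ _ hne
  · rw [← h]
    congr 1
    rw [Finset.sum_congr rfl hj, ← Finset.sum_fiberwise_of_maps_to (s := T)
      (t := T.image fun t => c (b t)) (g := fun t => c (b t))
      (fun t ht => Finset.mem_image_of_mem _ ht) (fun t => P.j w (c (b t)) (u t))]
    refine Finset.sum_congr rfl fun γ _ => ?_
    rw [map_sum]
    refine Finset.sum_congr rfl fun t ht => ?_
    rw [(Finset.mem_filter.1 ht).2]

omit [IsUltrametricDist k] [IsAlgClosed k] in
/-- Two descriptions of the same Gauss point. -/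
theorem isG_eq {a a' : k} {ρ ρ' : ℝ} {w : Ber k k[X]} (h : IsG a ρ w) (h' : IsG a' ρ' w) :
    ρ' = ρ ∧ ‖a - a'‖ ≤ ρ := by
  have h1 := h.2 a
  have h2 := h'.2 a
  have h3 := h.2 a'
  have h4 := h'.2 a'
  rw [sub_self, norm_zero, max_eq_left h.1.le] at h1
  rw [sub_self, norm_zero, max_eq_left h'.1.le] at h4
  rw [h1] at h2
  rw [h4] at h3
  have h5 : ρ' ≤ ρ := by rw [h2]; exact le_max_left _ _
  have h6 : ρ ≤ ρ' := by rw [h3]; exact le_max_left _ _
  refine ⟨le_antisymm h5 h6, ?_⟩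
  calc ‖a - a'‖ ≤ max ρ ‖a - a'‖ := le_max_right _ _
    _ = ρ' := h3.symm
    _ ≤ ρ := h5

omit [IsAlgClosed k] in
/-- Total coefficients are unique, comparison with another expression. -/
theorem TT.unique {P : RSys k M N} {s : ∀ w, P.E w} {D : Set (Ber k k[X])} {a a' : k} {ρ ρ' : ℝ}
    {w : Ber k k[X]} {τ τ' : N} (hwD : w ∈ D) (h : P.TT s D a ρ w τ) (h' : P.TT s D a' ρ' w τ') :
    τ = τ' := by
  classical
  obtain ⟨hg, x, S, v, hS, hev, rfl⟩ := h
  obtain ⟨hg', x', S', v', hS', hev', rfl⟩ := h'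
  obtain ⟨hρ, haa⟩ := isG_eq hg hg'
  have e1 := hev.self_of_nhds hwD
  have e2 := hev'.self_of_nhds hwD
  have key := P.ind_sum hg (S.disjSum S') (x - x') (Sum.elim id id)
    (Sum.elim v fun β => -v' β) ?_ ?_
  · have h1 := key.2
    rw [Finset.sum_disjSum] at h1
    simp only [Sum.elim_inl, Sum.elim_inr, Finset.sum_neg_distrib] at h1
    exact add_neg_eq_zero.1 h1
  · rintro (β | β) hβ
    · exact hS β (Finset.inl_mem_disjSum.1 hβ)
    · have h1 := hS' β (Finset.inr_mem_disjSum.1 hβ)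
      rw [hρ] at h1
      exact (Abs2.tri a a' β).trans (max_le haa h1)
  · rw [Finset.sum_disjSum]
    simp only [Sum.elim_inl, Sum.elim_inr, id_eq, map_neg, Finset.sum_neg_distrib]
    rw [map_sub]
    have h1 : P.i w x + ∑ β ∈ S, P.j w β (v β) = P.i w x' + ∑ β ∈ S', P.j w β (v' β) := by
      rw [← e1, ← e2]
    have h2 := sub_eq_zero.2 h1
    rw [← h2]
    abel

omit [IsUltrametricDist k] [IsAlgClosed k] in
/-- The points of a chain converge to its infimum. -/
theorem chain_mem {C : Set (Ber k k[X])} (hC : IsChain (· ≤ ·) C) (hne : C.Nonempty)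
    {m : Ber k k[X]} (hm : ∀ f, IsGLB ((fun z : Ber k k[X] => z.v f) '' C) (m.v f))
    {V : Set (Ber k k[X])} (hV : V ∈ 𝓝 m) : ∃ w ∈ C, w ∈ V := by
  classical
  have : Nonempty C := hne.to_subtype
  have : IsCodirectedOrder C := ⟨fun a b => (hC.total a.2 b.2).elim
    (fun h => ⟨a, le_rfl, h⟩) (fun h => ⟨b, h, le_rfl⟩)⟩
  have ht : Filter.Tendsto (fun c : C => (c : Ber k k[X])) Filter.atBot (𝓝 m) := by
    rw [nhds_induced, Filter.tendsto_comap_iff, tendsto_pi_nhds]
    intro f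
    refine tendsto_atBot_isGLB (f := fun c : C => (c : Ber k k[X]).v f)
      (fun c c' h => h f) ?_
    have h1 := hm f
    rw [Set.image_eq_range] at h1
    exact h1
  obtain ⟨c, hc⟩ := (ht.eventually hV).exists
  exact ⟨c, c.2, hc⟩

/-- On the part `|a| = r`, `ρ < r` of the circle all total coefficients vanish. -/
theorem tot_zero {r : ℝ} (hr : 0 < r) (s : ∀ w, P.E w)
    (hs : ∀ w, w.v X = r → P.LC s {w | w.v X = r} w) {a : k} {ρ : ℝ} {w : Ber k k[X]}
    (ha : ‖a‖ = r) (hρ : ρ < r) {τ : N} (h : P.Tot s {w | w.v X = r} a ρ w τ) : τ = 0 := by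
  classical
  by_contra hτ
  set D : Set (Ber k k[X]) := {w | w.v X = r} with hD
  have hX : ∀ z : Ber k k[X], z.v X = z.v (X - C 0) := fun z => by rw [C_0, sub_zero]
  have hmemD : ∀ {b : k} {t : ℝ} {z : Ber k k[X]}, ‖b‖ = r → t < r → IsG b t z → z ∈ D := by
    intro b t z hb ht hz
    show z.v X = r
    rw [hX, hz.2, sub_zero, hb, max_eq_right ht.le]
  let G : Set (Ber k k[X]) := {z | ∃ (b : k) (t : ℝ) (σ : N), ‖b‖ = r ∧ t < r ∧
    P.TT s D b t z σ ∧ σ ≠ 0}
  have hwG : w ∈ G := by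
    obtain ⟨hg, x, S, v, hS, -, hev, hsum⟩ := h
    exact ⟨a, ρ, τ, ha, hρ, ⟨hg, x, S, v, hS, hev, hsum⟩, hτ⟩
  have hzorn : ∃ m : (Ber k k[X])ᵒᵈ, Maximal (· ∈ OrderDual.ofDual ⁻¹' G) m := by
    refine zorn_le₀ _ fun C' hC'G hC' => ?_
    set Ch : Set (Ber k k[X]) := OrderDual.toDual ⁻¹' C' with hCdef
    have hC : IsChain (· ≤ ·) Ch := by
      intro z hz z' hz' hne
      exact (hC' hz hz' hne).symm
    have hCG : ∀ z ∈ Ch, z ∈ G := fun z hz => hC'G hz
    rcases Ch.eq_empty_or_nonempty with hemp | hne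
    · refine ⟨OrderDual.toDual w, hwG, fun z hz => ?_⟩
      have : OrderDual.ofDual z ∈ Ch := hz
      rw [hemp] at this
      exact absurd this (Set.notMem_empty _)
    obtain ⟨m, hm1, hm2⟩ := Ber.exists_isGLB hC hne
    refine ⟨OrderDual.toDual m, ?_, fun z hz => hm1.1 (show OrderDual.ofDual z ∈ Ch from hz)⟩
    show m ∈ G
    have hCD : ∀ z ∈ Ch, z ∈ D := by
      intro z hz
      obtain ⟨b, t, σ, hb, ht, hTT, -⟩ := hCG z hz
      exact hmemD hb ht hTT.1
    have hmD : m ∈ D := by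
      show m.v X = r
      have h1 := hm2 X
      have h2 : (fun z : Ber k k[X] => z.v X) '' Ch = {r} := by
        ext t
        constructor
        · rintro ⟨z, hz, rfl⟩
          exact hCD z hz
        · rintro rfl
          obtain ⟨z, hz⟩ := hne
          exact ⟨z, hz, hCD z hz⟩
      rw [h2] at h1
      exact h1.unique isGLB_singleton
    rcases classify m with ⟨b, t, ht, hmG⟩ | hlim
    · -- a Gauss point
      have hg : IsG b t m := ⟨ht, hmG⟩
      obtain ⟨x, S, v, hS, -, hev⟩ := P.normal_form hg (hs m hmD)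
      obtain ⟨z, hzC, hzV⟩ := chain_mem hC hne hm2 (eventually_eventually_nhds.2 hev)
      obtain ⟨b', t', σ, hb', ht', hTT, hσ⟩ := hCG z hzC
      have hmz : m ≤ z := hm1.1 hzC
      have h1 : max t ‖b - b'‖ ≤ t' := by
        have h2 := hmz (X - C b')
        rw [hmG, hTT.1.2, sub_self, norm_zero, max_eq_left hTT.1.1.le] at h2
        exact h2
      have htt' : t ≤ t' := (le_max_left _ _).trans h1
      have hbb' : ‖b - b'‖ ≤ t' := (le_max_right _ _).trans h1
      have hgz : IsG b t' z := by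
        refine ⟨hTT.1.1, fun β => ?_⟩
        rw [hTT.1.2]
        apply le_antisymm
        · refine max_le (le_max_left _ _) ?_
          refine (Abs2.tri b' b β).trans (max_le ?_ (le_max_right _ _))
          rw [norm_sub_rev]
          exact hbb'.trans (le_max_left _ _)
        · refine max_le (le_max_left _ _) ?_
          exact (Abs2.tri b b' β).trans (max_le (hbb'.trans (le_max_left _ _)) (le_max_right _ _))
      have hTT' : P.TT s D b t' z (∑ β ∈ S, v β) :=
        ⟨hgz, x, S, v, fun β hβ => (hS β hβ).trans htt', hzV, rfl⟩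
      have e := TT.unique (hCD z hzC) hTT hTT'
      have htr : t < r := htt'.trans_lt ht'
      have hbr : ‖b‖ = r := by
        have h3 : m.v X = r := hmD
        rw [hX, hmG, sub_zero] at h3
        rcases le_total t ‖b‖ with h4 | h4
        · rwa [max_eq_right h4] at h3
        · rw [max_eq_left h4] at h3
          exact absurd h3 htr.ne
      exact ⟨b, t, _, hbr, htr, ⟨hg, x, S, v, hS, hev, rfl⟩, e ▸ hσ⟩
    · -- a point of the second kind
      obtain ⟨x, hev⟩ := P.limit_form hlim (hs m hmD)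
      obtain ⟨z, hzC, hzV⟩ := chain_mem hC hne hm2 (eventually_eventually_nhds.2 hev)
      obtain ⟨b', t', σ, hb', ht', hTT, hσ⟩ := hCG z hzC
      exfalso
      apply hσ
      have hTT' : P.TT s D b' t' z (∑ β ∈ (∅ : Finset k), (0 : N)) := by
        refine ⟨hTT.1, x, ∅, fun _ => 0, fun β hβ => absurd hβ (Finset.notMem_empty _), ?_, rfl⟩
        refine Filter.Eventually.mono hzV fun z' hz' hzD' => ?_
        rw [Finset.sum_empty, add_zero]
        exact hz' hzD'
      have e := TT.unique (hCD z hzC) hTT hTT'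
      rw [e, Finset.sum_empty]
  obtain ⟨m', hm'⟩ := hzorn
  obtain ⟨m, rfl⟩ : ∃ m, OrderDual.toDual m = m' := ⟨OrderDual.ofDual m', rfl⟩
  have hmG : m ∈ G := hm'.1
  have hmin : ∀ z ∈ G, z ≤ m → m ≤ z := fun z hz hle =>
    hm'.2 (y := OrderDual.toDual z) hz hle
  obtain ⟨b, t, σ, hb, ht, hTT, hσ⟩ := hmG
  have hmD : m ∈ D := hmemD hb ht hTT.1
  obtain ⟨x, S, v, hS, hsep, hev⟩ := P.normal_form hTT.1 (hs m hmD)
  have e : σ = ∑ β ∈ S, v β := TT.unique hmD hTT ⟨hTT.1, x, S, v, hS, hev, rfl⟩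
  obtain ⟨β, hβ, hvβ⟩ : ∃ β ∈ S, v β ≠ 0 := by
    by_contra hall
    push Not at hall
    exact hσ (e.trans (Finset.sum_eq_zero hall))
  -- smaller Gauss points
  have hη : ∀ t' : ℝ, ∃ z : Ber k k[X], 0 ≤ t' → ∀ γ, z.v (X - C γ) = max t' ‖β - γ‖ := by
    intro t'
    by_cases h0 : 0 ≤ t'
    · obtain ⟨z, hz, -⟩ := exists_eta β t' h0
      exact ⟨z, fun _ => hz⟩
    · exact ⟨m, fun h => absurd h h0⟩
  choose η hη using hη
  have hmv : ∀ γ, m.v (X - C γ) = max t ‖β - γ‖ := by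
    intro γ
    rw [hTT.1.2]
    have h1 := hS β hβ
    apply le_antisymm
    · exact max_le (le_max_left _ _) ((Abs2.tri b β γ).trans (max_le (h1.trans (le_max_left _ _))
        (le_max_right _ _)))
    · refine max_le (le_max_left _ _) ((Abs2.tri β b γ).trans (max_le ?_ (le_max_right _ _)))
      rw [norm_sub_rev]
      exact h1.trans (le_max_left _ _)
  have ht0 := hTT.1.1
  have hpos : ∀ᶠ t' in 𝓝[<] t, 0 < t' :=
    (lt_mem_nhds ht0).filter_mono nhdsWithin_le_nhds
  have hlim : Filter.Tendsto η (𝓝[<] t) (𝓝 m) := by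
    refine tendsto_lin fun γ => ?_
    rw [hmv γ]
    have h1 : Filter.Tendsto (fun t' : ℝ => max t' ‖β - γ‖) (𝓝[<] t) (𝓝 (max t ‖β - γ‖)) :=
      ((continuous_id.max continuous_const).tendsto t).mono_left nhdsWithin_le_nhds
    refine h1.congr' ?_
    filter_upwards [hpos] with t' ht'
    rw [hη t' ht'.le γ]
  have hlt : ∀ᶠ t' in 𝓝[<] t, t' < t := self_mem_nhdsWithin
  obtain ⟨t', ⟨ht'0, ht't⟩, hloc⟩ := ((hpos.and hlt).and
    (hlim.eventually (eventually_eventually_nhds.2 hev))).exists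
  have hg' : IsG β t' (η t') := ⟨ht'0, hη t' ht'0.le⟩
  have hβr : ‖β‖ = r := by
    have h1 : ‖b - β‖ < ‖b‖ := by rw [hb]; exact (hS β hβ).trans_lt ht
    have h2 := Abs2.tri b β 0
    rw [sub_zero, sub_zero] at h2
    have h3 := Abs2.tri β b 0
    rw [sub_zero, sub_zero, norm_sub_rev] at h3
    have h4 : ‖b‖ ≤ ‖β‖ := by
      rcases le_max_iff.1 h2 with h5 | h5
      · exact absurd h5 (not_le.2 h1)
      · exact h5
    exact le_antisymm (h3.trans (max_le (h1.le.trans hb.le) hb.le)) (hb ▸ h4)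
  have hzG : η t' ∈ G := by
    refine ⟨β, t', v β, hβr, ht't.trans ht, ⟨hg', x + ∑ γ ∈ S.erase β, P.l (γ - β) (v γ), {β}, v,
      ?_, ?_, ?_⟩, hvβ⟩
    · intro γ hγ
      rw [Finset.mem_singleton.1 hγ, sub_self, norm_zero]
      exact ht'0.le
    · have hop : ∀ᶠ z in 𝓝 (η t'), ∀ γ ∈ S.erase β, z.v (X - C β) < z.v (X - C γ) := by
        rw [Filter.eventually_all_finset]
        intro γ hγ
        obtain ⟨hγβ, hγS⟩ := Finset.mem_erase.1 hγ
        refine (isOpen_lt (Ber.continuous_v (X - C β)) (Ber.continuous_v (X - C γ))).mem_nhds ?_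
        show (η t').v (X - C β) < (η t').v (X - C γ)
        rw [hη t' ht'0.le, hη t' ht'0.le, sub_self, norm_zero, max_eq_left ht'0.le]
        exact (ht't.trans_le (hsep β hβ γ hγS (Ne.symm hγβ))).trans_le (le_max_right _ _)
      filter_upwards [hop, hloc] with z hz1 hz2 hzD
      rw [hz2 hzD, Finset.sum_singleton, ← Finset.add_sum_erase S _ hβ, map_add, map_sum]
      have h1 : ∑ γ ∈ S.erase β, P.j z γ (v γ) =
          ∑ γ ∈ S.erase β, P.i z (P.l (γ - β) (v γ)) :=
        Finset.sum_congr rfl fun γ hγ => P.j1 z γ β (hz1 γ hγ) (v γ)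
      rw [h1]
      abel
    · rw [Finset.sum_singleton]
  have hle : η t' ≤ m := by
    refine le_lin fun γ => ?_
    rw [hη t' ht'0.le, hmv]
    exact max_le_max ht't.le le_rfl
  have h1 := hmin _ hzG hle (X - C β)
  rw [hη t' ht'0.le, hmv, sub_self, norm_zero, max_eq_left ht'0.le, max_eq_left ht0.le] at h1
  exact absurd h1 (not_le.2 ht't)

end RSys

end Pool.Agent.TD
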