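import Pool.Agent.TD.U.Abs2

/-! Block U3, abstract form: sections over the circle. -/

open scoped ContDiff Topology
open Polynomial

namespace Pool.Agent.TD

namespace RSys

variable {k M N : Type} [NormedField k] [IsUltrametricDist k] [IsAlgClosed k] [AddCommGroup M]
  [AddCommGroup N] (P : RSys k M N)

namespace Abs3Aux

omit [IsAlgClosed k] in
theorem exists_isG (a : k) {ρ : ℝ} (hρ : 0 < ρ) : ∃ w : Ber k k[X], IsG a ρ w := by
  obtain ⟨w, h, -, -⟩ := exists_eta a ρ hρ.le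
  exact ⟨w, hρ, h⟩

omit [IsAlgClosed k] in
theorem max_norm_le {a b β : k} {ρ : ℝ} (h : ‖a - b‖ ≤ ρ) :
    max ρ ‖a - β‖ ≤ max ρ ‖b - β‖ := by
  refine max_le (le_max_left _ _) ?_
  have h1 := IsUltrametricDist.norm_add_le_max (a - b) (b - β)
  rw [sub_add_sub_cancel] at h1
  exact h1.trans (max_le (h.trans (le_max_left _ _)) (le_max_right _ _))

omit [IsAlgClosed k] in
theorem max_norm_eq {a b β : k} {ρ : ℝ} (h : ‖a - b‖ ≤ ρ) :
    max ρ ‖a - β‖ = max ρ ‖b - β‖ :=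
  le_antisymm (max_norm_le h) (max_norm_le (by rwa [norm_sub_rev]))

/-- Gauss points of discs with the same centre and near radius are near. -/
theorem gauss_near {a b : k} {ρ : ℝ} {w : Ber k k[X]} (hw : IsG a ρ w) (hab : ‖a - b‖ ≤ ρ)
    {W : Set (Ber k k[X])} (hW : W ∈ 𝓝 w) :
    ∀ᶠ ρ' in 𝓝 ρ, ∀ w', IsG b ρ' w' → w' ∈ W := by
  classical
  have hex : ∀ ρ' : ℝ, ∃ w' : Ber k k[X], 0 < ρ' → IsG b ρ' w' := by
    intro ρ'
    by_cases h : 0 < ρ'
    · obtain ⟨w', h'⟩ := exists_isG b h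
      exact ⟨w', fun _ => h'⟩
    · exact ⟨w, fun h' => absurd h' h⟩
  choose g hg using hex
  have ht : Filter.Tendsto g (𝓝 ρ) (𝓝 w) := by
    apply tendsto_lin
    intro β
    rw [hw.2 β, max_norm_eq hab]
    have h1 : Filter.Tendsto (fun ρ' : ℝ => max ρ' ‖b - β‖) (𝓝 ρ) (𝓝 (max ρ ‖b - β‖)) :=
      (continuous_id.max continuous_const).continuousAt
    refine h1.congr' ?_
    filter_upwards [lt_mem_nhds hw.1] with ρ' h
    exact ((hg ρ' h).2 β).symm
  filter_upwards [ht hW] with ρ' h w' hw'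
  have h2 : w' = g ρ' := ext_lin fun β => by rw [hw'.2 β, (hg ρ' hw'.1).2 β]
  rw [h2]
  exact h

omit [IsUltrametricDist k] [IsAlgClosed k] in
theorem v_C (w : Ber k k[X]) (β : k) : w.v (C β) = ‖β‖ := w.ext β

omit [IsUltrametricDist k] [IsAlgClosed k] in
theorem v_sub_of_lt {w : Ber k k[X]} {β : k} (h : ‖β‖ < w.v X) : w.v (X - C β) = w.v X := by
  rw [sub_eq_add_neg]
  exact w.add_eq (by rwa [w.neg, v_C])

omit [IsUltrametricDist k] [IsAlgClosed k] in
theorem norm_of_close {w : Ber k k[X]} {β : k} (h : w.v (X - C β) < w.v X) : ‖β‖ = w.v X := by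
  rw [← v_C w β]
  exact w.sub_eq h

/-- Normal form at a Gauss point of the circle: the coefficients of centres on the circle vanish. -/
theorem coeff_zero {r : ℝ} (hr : 0 < r) (s : ∀ w, P.E w)
    (hs : ∀ w, w.v X = r → P.LC s {w | w.v X = r} w) {a : k} {ρ : ℝ} {w : Ber k k[X]}
    (hw : IsG a ρ w) (hwr : w.v X = r) :
    ∃ (x : M) (S : Finset k) (v : k → N), (∀ β ∈ S, ‖a - β‖ ≤ ρ) ∧
      (∀ β ∈ S, ∀ β' ∈ S, β ≠ β' → ρ ≤ ‖β - β'‖) ∧ (∀ β ∈ S, ‖β‖ = r → v β = 0) ∧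
      ∀ᶠ w' in 𝓝 w, w'.v X = r → s w' = P.i w' x + ∑ β ∈ S, P.j w' β (v β) := by
  classical
  obtain ⟨x, S, v, h1, h2, h3⟩ := P.normal_form hw (hs w hwr)
  refine ⟨x, S, v, h1, h2, ?_, h3⟩
  intro β hβ hβr
  have hρr : ρ ≤ r := by
    have h4 := hw.2 0
    rw [C_0, sub_zero, hwr] at h4
    rw [h4]
    exact le_max_left _ _
  have e1 := gauss_near hw (h1 β hβ) (eventually_eventually_nhds.2 h3)
  have e2 : ∀ᶠ ρ' in 𝓝[<] ρ, ∀ w', IsG β ρ' w' → w' ∈ {y : Ber k k[X] | ∀ᶠ w' in 𝓝 y,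
      w' ∈ {w : Ber k k[X] | w.v X = r} →
        s w' = P.i w' x + ∑ β ∈ S, P.j w' β (v β)} := e1.filter_mono nhdsWithin_le_nhds
  obtain ⟨ρ', h5, h6⟩ := (e2.and (Ioo_mem_nhdsLT hw.1)).exists
  obtain ⟨w', hw'⟩ := exists_isG β h6.1
  have h7 : ∀ᶠ w'' in 𝓝 w', w'' ∈ {w : Ber k k[X] | w.v X = r} →
      s w'' = P.i w'' x + ∑ β ∈ S, P.j w'' β (v β) := h5 w' hw'
  have h8 : ∀ᶠ w'' in 𝓝 w', ∀ β' ∈ S.erase β, w''.v (X - C β) < w''.v (X - C β') := by
    rw [Filter.eventually_all_finset]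
    intro β' hβ'
    rw [Finset.mem_erase] at hβ'
    have ho : IsOpen {z' : Ber k k[X] | z'.v (X - C β) < z'.v (X - C β')} :=
      isOpen_lt (Ber.continuous_v _) (Ber.continuous_v _)
    refine ho.mem_nhds ?_
    show w'.v (X - C β) < w'.v (X - C β')
    rw [hw'.2 β, hw'.2 β', sub_self, norm_zero, max_eq_left h6.1.le]
    exact lt_of_lt_of_le h6.2 ((h2 β hβ β' hβ'.2 (Ne.symm hβ'.1)).trans (le_max_right _ _))
  have ht : P.Tot s {w | w.v X = r} β ρ' w' (v β) := by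
    refine ⟨hw', x + ∑ β' ∈ S.erase β, P.l (β' - β) (v β'), {β}, v, ?_, ?_, ?_, ?_⟩
    · intro b hb
      rw [Finset.mem_singleton] at hb
      rw [hb, sub_self, norm_zero]
      exact h6.1.le
    · intro b hb b' hb' hne
      rw [Finset.mem_singleton] at hb hb'
      exact absurd (hb.trans hb'.symm) hne
    · filter_upwards [h7, h8] with w'' h9 h10 h11
      rw [h9 h11, ← Finset.sum_erase_add S _ hβ, Finset.sum_singleton, map_add, map_sum,
        Finset.sum_congr rfl (fun β' hβ' => P.j1 w'' β' β (h10 β' hβ') (v β')), add_assoc]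
    · rw [Finset.sum_singleton]
  exact P.tot_zero hr s hs hβr (h6.2.trans_le hρr) ht

end Abs3Aux

open Abs3Aux

/-- (U3) A section over the circle is `x + dlog |X| ∧ v`. -/
theorem circle_section {r : ℝ} (hr : 0 < r) (s : ∀ w, P.E w)
    (hs : ∀ w, w.v X = r → P.LC s {w | w.v X = r} w) :
    ∃ (x : M) (v : N), ∀ w, w.v X = r → s w = P.i w x + P.j w 0 v := by
  classical
  obtain ⟨w0, hw0⟩ := exists_isG (0 : k) hr
  have hw0r : w0.v X = r := by
    have h := hw0.2 0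
    rwa [C_0, sub_zero, sub_zero, norm_zero, max_eq_left hr.le] at h
  obtain ⟨x, S, v, h1, -, h3, h4⟩ := coeff_zero P hr s hs hw0 hw0r
  obtain ⟨v0, hv0⟩ : ∃ v0 : N, ∀ w' : Ber k k[X], w'.v X = r →
      ∑ β ∈ S, P.j w' β (v β) = P.j w' 0 v0 := by
    refine ⟨∑ β ∈ S, if ‖β‖ = r then 0 else v β, fun w' hw' => ?_⟩
    rw [map_sum]
    refine Finset.sum_congr rfl fun β hβ => ?_
    by_cases hb : ‖β‖ = r
    · rw [if_pos hb, h3 β hβ hb, map_zero, map_zero]
    · rw [if_neg hb]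
      have hle : ‖β‖ ≤ r := by
        have h := h1 β hβ
        rwa [zero_sub, norm_neg] at h
      have hlt : ‖β‖ < r := lt_of_le_of_ne hle hb
      apply P.j2
      rw [sub_zero, v_sub_of_lt (by rwa [hw']), hw']
      exact hlt
  have key0 : ∀ᶠ w' in 𝓝 w0, w'.v X = r → s w' = P.i w' x + P.j w' 0 v0 := by
    filter_upwards [h4] with w' h h'
    rw [h h', hv0 w' h']
  -- radii on the circle
  have hcirc : ∀ {β : k} {ρ : ℝ} {w : Ber k k[X]}, ‖β‖ = r → ρ < r → IsG β ρ w → w.v X = r := by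
    intro β ρ w hβ hρ hw
    have h := hw.2 0
    rwa [C_0, sub_zero, sub_zero, hβ, max_eq_right hρ.le] at h
  have hj : ∀ {β : k} {w : Ber k k[X]}, w.v X = r → w.v (X - C β) < r →
      P.i w x + P.j w 0 v0 = P.i w (x + P.l (0 - β) v0) := by
    intro β w hw hlt
    rw [P.j1 w 0 β (by rwa [C_0, sub_zero, hw]) v0, map_add]
  have hcen : ∀ {β : k} {ρ : ℝ} {w : Ber k k[X]}, IsG β ρ w → w.v (X - C β) = ρ := by
    intro β ρ w hw
    rw [hw.2 β, sub_self, norm_zero, max_eq_left hw.1.le]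
  -- uniqueness
  have hind : ∀ {β : k} {ρ : ℝ} {w : Ber k k[X]}, IsG β ρ w → ∀ y y' : M,
      P.i w y = P.i w y' → y = y' := by
    intro β ρ w hw y y' h
    have h5 := P.ind β ρ w hw.1 hw.2 ∅ (y - y') (fun _ => 0) (by simp) (by simp)
      (by rw [Finset.sum_empty, add_zero, map_sub, h, sub_self])
    exact sub_eq_zero.1 h5.1
  -- discs inside the circle
  have hloc : ∀ {β : k} {ρ : ℝ} {w : Ber k k[X]}, ‖β‖ = r → ρ < r → IsG β ρ w →
      ∃ y : M, ∀ᶠ w' in 𝓝 w, w'.v X = r → s w' = P.i w' y := by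
    intro β ρ w hβ hρ hw
    obtain ⟨y, T, u, g1, -, g3, g4⟩ := coeff_zero P hr s hs hw (hcirc hβ hρ hw)
    refine ⟨y, ?_⟩
    filter_upwards [g4] with w' h h'
    rw [h h', Finset.sum_eq_zero, add_zero]
    intro b hb
    have hbr : ‖b‖ = r := by
      have h5 : ‖β - b‖ < ‖β‖ := by
        rw [hβ]
        exact (g1 b hb).trans_lt hρ
      have h6 : ‖β‖ ≤ max ‖β - b‖ ‖b‖ := by
        have h7 := IsUltrametricDist.norm_add_le_max (β - b) b
        rwa [sub_add_cancel] at h7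
      have h8 : ‖b‖ ≤ max ‖b - β‖ ‖β‖ := by
        have h7 := IsUltrametricDist.norm_add_le_max (b - β) β
        rwa [sub_add_cancel] at h7
      rw [norm_sub_rev b β, max_eq_right h5.le] at h8
      rcases le_max_iff.1 h6 with h9 | h9
      · exact absurd h9 (not_le.2 h5)
      · rw [← hβ]
        exact le_antisymm h8 h9
    rw [g3 b hb hbr, map_zero]
  have hdisc : ∀ {β : k}, ‖β‖ = r → ∀ ρ ∈ Set.Ioo 0 r, ∀ w, IsG β ρ w →
      s w = P.i w (x + P.l (0 - β) v0) := by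
    intro β hβ
    -- near the radius `r`
    have e1 := gauss_near hw0 (b := β) (by rw [zero_sub, norm_neg, hβ]) key0
    have e2 : ∀ᶠ ρ' in 𝓝[<] r, ∀ w', IsG β ρ' w' → w' ∈ {w' : Ber k k[X] | w'.v X = r →
      s w' = P.i w' x + P.j w' 0 v0} := e1.filter_mono nhdsWithin_le_nhds
    obtain ⟨ρ1, h5, h6⟩ := (e2.and (Ioo_mem_nhdsLT hr)).exists
    have hA1 : ∀ w, IsG β ρ1 w → s w = P.i w (x + P.l (0 - β) v0) := by
      intro w hw
      have h7 : w.v X = r → s w = P.i w x + P.j w 0 v0 := h5 w hw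
      rw [h7 (hcirc hβ h6.2 hw)]
      exact hj (hcirc hβ h6.2 hw) (by rw [hcen hw]; exact h6.2)
    intro ρ hρ
    have hall : (∀ w, IsG β ρ1 w → s w = P.i w (x + P.l (0 - β) v0)) ↔
        (∀ w, IsG β ρ w → s w = P.i w (x + P.l (0 - β) v0)) := by
      refine (isPreconnected_Ioo (a := (0 : ℝ)) (b := r)).induction₂
        (fun ρ ρ' => (∀ w, IsG β ρ w → s w = P.i w (x + P.l (0 - β) v0)) ↔
          (∀ w, IsG β ρ' w → s w = P.i w (x + P.l (0 - β) v0))) ?_ ?_ ?_ h6 hρ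
      · intro ρ2 hρ2
        obtain ⟨w2, hw2⟩ := exists_isG β hρ2.1
        obtain ⟨y, hy⟩ := hloc hβ hρ2.2 hw2
        have e3 := gauss_near hw2 (b := β) (by rw [sub_self, norm_zero]; exact hρ2.1.le) hy
        have e4 : ∀ᶠ ρ' in 𝓝[Set.Ioo 0 r] ρ2, ∀ w', IsG β ρ' w' → w' ∈ {w' : Ber k k[X] |
          w'.v X = r → s w' = P.i w' y} := e3.filter_mono nhdsWithin_le_nhds
        have hiff : ∀ ρ' ∈ Set.Ioo 0 r, (∀ w', IsG β ρ' w' → w'.v X = r → s w' = P.i w' y) →
            ((∀ w, IsG β ρ' w → s w = P.i w (x + P.l (0 - β) v0)) ↔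
              y = x + P.l (0 - β) v0) := by
          intro ρ' hρ' hs'
          constructor
          · intro hh
            obtain ⟨w', hw'⟩ := exists_isG β hρ'.1
            apply hind hw'
            rw [← hh w' hw', hs' w' hw' (hcirc hβ hρ'.2 hw')]
          · intro hh w' hw'
            rw [hs' w' hw' (hcirc hβ hρ'.2 hw'), hh]
        have hself : ∀ w', IsG β ρ2 w' → w'.v X = r → s w' = P.i w' y := by
          intro w' hw' h'
          have h8 : w' = w2 := ext_lin fun b => by rw [hw'.2 b, hw2.2 b]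
          rw [h8] at h' ⊢
          exact hy.self_of_nhds h'
        filter_upwards [e4, self_mem_nhdsWithin] with ρ' h9 h10
        exact (hiff ρ2 hρ2 hself).trans (hiff ρ' h10 fun w' hw' => h9 w' hw').symm
      · intro a b c _ _ _ hab hbc
        exact hab.trans hbc
      · intro a b _ _ hab
        exact hab.symm
    exact hall.1 hA1
  refine ⟨x, v0, fun w hw => ?_⟩
  rcases classify w with ⟨a, ρ, hρ, hG⟩ | h2
  · have hmax : max ρ ‖a‖ = r := by
      have h := hG 0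
      rw [C_0, sub_zero, sub_zero, hw] at h
      exact h.symm
    have hρr : ρ ≤ r := hmax ▸ le_max_left _ _
    rcases hρr.lt_or_eq with hlt | heq
    · have har : ‖a‖ = r := by
        rcases le_total ρ ‖a‖ with h | h
        · rwa [max_eq_right h] at hmax
        · rw [max_eq_left h] at hmax
          exact absurd hmax hlt.ne
      rw [hdisc har ρ ⟨hρ, hlt⟩ w ⟨hρ, hG⟩]
      exact (hj hw (by rw [hcen ⟨hρ, hG⟩]; exact hlt)).symm
    · have har : ‖a‖ ≤ r := hmax ▸ le_max_right _ _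
      have hww : w = w0 := by
        apply ext_lin
        intro β
        rw [hG β, hw0.2 β, heq]
        exact max_norm_eq (by rwa [sub_zero])
      rw [hww]
      exact key0.self_of_nhds hw0r
  · obtain ⟨y, hy⟩ := P.limit_form h2 (hs w hw)
    have hy' : ∀ᶠ w' in 𝓝 w, w'.v X = r → s w' = P.i w' y := hy
    obtain ⟨β, ρ, e, hρ, he, hle, -, heW, hS⟩ := limit_disc w h2 _ hy' {0} (by
      intro b hb
      rw [Finset.mem_singleton] at hb
      rw [hb, C_0, sub_zero, hw]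
      exact hr.ne')
    have hρr : ρ < r := by
      have h := hS 0 (Finset.mem_singleton_self 0)
      rwa [C_0, sub_zero, hw] at h
    have hlt : w.v (X - C β) < r := hle.trans_lt hρr
    have hβ : ‖β‖ = r := by
      rw [← hw]
      exact norm_of_close (by rwa [hw])
    have heG : IsG β ρ e := ⟨hρ, he⟩
    have he1 : s e = P.i e y := heW (hcirc hβ hρr heG)
    have he2 : s e = P.i e (x + P.l (0 - β) v0) := hdisc hβ ρ ⟨hρ, hρr⟩ e heG
    have hyx : y = x + P.l (0 - β) v0 := hind heG _ _ (he1.symm.trans he2)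
    rw [hj hw hlt, ← hyx]
    exact hy'.self_of_nhds hw

end RSys

end Pool.Agent.TD
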