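import Mathlib

/-! Block U: a convex set which is a finite union of convex sets. -/

namespace Pool.Agent.TD

/-- The line through two points of an affine subspace lies in it. -/
theorem Ful.line_mem {V : Type} [AddCommGroup V] [Module ℝ V] (A : AffineSubspace ℝ V)
    (p q : V) {t t' : ℝ} (ht : t ≠ t') (h : AffineMap.lineMap p q t ∈ A)
    (h' : AffineMap.lineMap p q t' ∈ A) (r : ℝ) : AffineMap.lineMap p q r ∈ A := by
  have hr : r = AffineMap.lineMap t t' ((r - t) / (t' - t)) := by
    rw [AffineMap.lineMap_apply]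
    have : t' - t ≠ 0 := sub_ne_zero.mpr (Ne.symm ht)
    simp only [vsub_eq_sub, smul_eq_mul, vadd_eq_add]
    field_simp
    ring
  rw [hr, AffineMap.apply_lineMap]
  exact AffineMap.lineMap_mem _ h h'

/-- A convex set not contained in any of finitely many affine subspaces is not contained in their
union. -/
theorem Ful.exists_not_mem {V : Type} [AddCommGroup V] [Module ℝ V] {σ : Set V}
    (hσ : Convex ℝ σ) (hne : σ.Nonempty) {ι : Type} (A : ι → AffineSubspace ℝ V)
    (hA : ∀ i, ∃ q ∈ σ, q ∉ A i) (s : Finset ι) : ∃ p ∈ σ, ∀ i ∈ s, p ∉ A i := by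
  classical
  induction s using Finset.induction_on with
  | empty =>
    obtain ⟨p, hp⟩ := hne
    exact ⟨p, hp, fun i hi => absurd hi (Finset.notMem_empty i)⟩
  | insert j s hj ih =>
    obtain ⟨p, hp, hps⟩ := ih
    obtain ⟨q, hq, hqj⟩ := hA j
    have hfin : ∀ i ∈ insert j s, {t : ℝ | AffineMap.lineMap p q t ∈ A i}.Finite := by
      intro i hi
      refine Set.Subsingleton.finite ?_
      intro t ht t' ht'
      by_contra hne'
      rcases Finset.mem_insert.mp hi with rfl | hi
      · have := Ful.line_mem (A i) p q hne' ht ht' 1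
        rw [AffineMap.lineMap_apply_one] at this
        exact hqj this
      · have := Ful.line_mem (A i) p q hne' ht ht' 0
        rw [AffineMap.lineMap_apply_zero] at this
        exact hps i hi this
    have hbad : (⋃ i ∈ insert j s, {t : ℝ | AffineMap.lineMap p q t ∈ A i}).Finite :=
      Set.Finite.biUnion (insert j s).finite_toSet hfin
    have hinf : (Set.Icc (0 : ℝ) 1).Infinite := Set.Icc_infinite one_pos
    obtain ⟨t, ht, ht'⟩ := (hinf.sdiff hbad).nonempty
    refine ⟨AffineMap.lineMap p q t, ?_, fun i hi h => ht' ?_⟩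
    · exact hσ.lineMap_mem hp hq ht
    · exact Set.mem_biUnion (Finset.mem_coe.mpr hi) h

/-- A convex set is not a finite union of convex subsets with smaller spans. -/
theorem exists_vectorSpan_eq {V : Type} [AddCommGroup V] [Module ℝ V] {σ : Set V}
    (hσ : Convex ℝ σ) (hne : σ.Nonempty) {ι : Type} [Finite ι] (C : ι → Set V)
    (hC : ∀ i, Convex ℝ (C i)) (hsub : ∀ i, C i ⊆ σ) (hcov : σ ⊆ ⋃ i, C i) :
    ∃ i, (C i).Nonempty ∧ vectorSpan ℝ (C i) = vectorSpan ℝ σ := by
  classical
  by_contra hcon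
  push Not at hcon
  have hA : ∀ i, ∃ q ∈ σ, q ∉ affineSpan ℝ (C i) := by
    intro i
    by_contra h
    push Not at h
    rcases Set.eq_empty_or_nonempty (C i) with he | hn
    · obtain ⟨p, hp⟩ := hne
      have := h p hp
      rw [he, AffineSubspace.span_empty] at this
      exact AffineSubspace.notMem_bot ℝ V p this
    · apply hcon i hn
      refine le_antisymm (vectorSpan_mono ℝ (hsub i)) ?_
      rw [← direction_affineSpan ℝ σ, ← direction_affineSpan ℝ (C i)]
      exact AffineSubspace.direction_le (affineSpan_le.mpr h)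
  have := Fintype.ofFinite ι
  obtain ⟨p, hp, hps⟩ := Ful.exists_not_mem hσ hne (fun i => affineSpan ℝ (C i)) hA Finset.univ
  obtain ⟨i, hi⟩ := Set.mem_iUnion.mp (hcov hp)
  exact hps i (Finset.mem_univ i) (subset_affineSpan ℝ (C i) hi)

/-- On a convex set finitely many maxima of finitely many affine functions are affine on a convex
subset with the same span. -/
theorem exists_max_affine {V : Type} [AddCommGroup V] [Module ℝ V] {σ : Set V}
    (hσ : Convex ℝ σ) (hne : σ.Nonempty) {ι : Type} [Finite ι] {κ : ι → Type}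
    [∀ i, Fintype (κ i)] [∀ i, Nonempty (κ i)] (l : ∀ i, κ i → V →ᵃ[ℝ] ℝ) :
    ∃ C : Set V, Convex ℝ C ∧ C.Nonempty ∧ C ⊆ σ ∧ vectorSpan ℝ C = vectorSpan ℝ σ ∧
      ∃ m : ∀ i, κ i, ∀ x ∈ C, ∀ i j, l i j x ≤ l i (m i) x := by
  classical
  have hfin : Finite (∀ i, κ i) := Pi.finite
  have hcx : ∀ m : (∀ i, κ i), Convex ℝ {x | x ∈ σ ∧ ∀ i j, l i j x ≤ l i (m i) x} := by
    intro m x hx y hy a b ha hb hab
    refine ⟨hσ hx.1 hy.1 ha hb hab, fun i j => ?_⟩
    rw [Convex.combo_affine_apply hab, Convex.combo_affine_apply hab]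
    exact add_le_add (smul_le_smul_of_nonneg_left (hx.2 i j) ha)
      (smul_le_smul_of_nonneg_left (hy.2 i j) hb)
  obtain ⟨m, hm, hm'⟩ := exists_vectorSpan_eq hσ hne
    (fun m : (∀ i, κ i) => {x | x ∈ σ ∧ ∀ i j, l i j x ≤ l i (m i) x}) hcx
    (fun m x hx => hx.1) (fun x hx => by
      choose m hm using fun i => Finite.exists_max (fun j => l i j x)
      exact Set.mem_iUnion.mpr ⟨m, hx, fun i j => hm i j⟩)
  exact ⟨_, hcx m, hm, fun x hx => hx.1, hm', m, fun x hx => hx.2⟩

end Pool.Agent.TD
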