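import Pool.Agent.TD.U.Defs
import Pool.Agent.TD.U.Ful

/-! Block U4: descent of the vanishing of constant germs. -/

open scoped ContDiff Topology
open Polynomial

namespace Pool.Agent.TD

namespace Desc1

/-- The finite set in `Van` can be enlarged. -/
theorem enlarge {X Φ : Type} [TopologicalSpace X] (L : LogSpace X Φ) {p q : ℕ} {z : X}
    {θ : Raw Φ p q} (h : L.Van z θ) (t : Finset Φ) (ht : ∀ f ∈ t, z ∈ L.dom f) :
    ∃ u : Finset Φ, t ⊆ u ∧ IsSF u θ ∧ ∃ V ∈ 𝓝 z,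
      (∀ f ∈ u, V ⊆ L.dom f) ∧ VanOn u θ (L.trop u '' V) := by
  classical
  obtain ⟨s, hs, V, hV, hVs, hvs⟩ := h
  have h1 : s ⊆ s ∪ t := Finset.subset_union_left
  have h2 : t ⊆ s ∪ t := Finset.subset_union_right
  have hW : ∀ᶠ z' in 𝓝 z, ∀ f ∈ t, z' ∈ L.dom f := by
    rw [Filter.eventually_all_finset]
    exact fun f hf => (L.isOpen_dom f).mem_nhds (ht f hf)
  refine ⟨s ∪ t, h2, hs.mono h1, V ∩ {z' | ∀ f ∈ t, z' ∈ L.dom f},
    Filter.inter_mem hV hW, ?_, ?_⟩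
  · intro f hf
    rcases Finset.mem_union.1 hf with h | h
    exacts [Set.inter_subset_left.trans (hVs f h), fun z' hz' => hz'.2 f h]
  · refine VanOn.refine h1 (P := L.trop s '' V) ?_ hvs
    rintro _ ⟨_, ⟨z', hz', rfl⟩, rfl⟩
    exact ⟨z', hz'.1, (L.rst_trop h1 z').symm⟩

/-- The span of the image of a set under a linear map. -/
theorem vectorSpan_image {V W : Type} [AddCommGroup V] [Module ℝ V] [AddCommGroup W]
    [Module ℝ W] (r : V →ₗ[ℝ] W) (σ : Set V) :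
    vectorSpan ℝ (r '' σ) = Submodule.map r (vectorSpan ℝ σ) := by
  have h := AffineMap.map_vectorSpan (k := ℝ) (s := σ) r.toAffineMap
  simpa using h.symm

end Desc1

/-- Descent along a proper surjective morphism with polyhedral local tropicalizations upstairs. -/
theorem Mor.descend {X Φ X' Φ' : Type} [TopologicalSpace X] [TopologicalSpace X']
    {L : LogSpace X Φ} {L' : LogSpace X' Φ'} (m : Mor L' L) {z : X}
    (hsur : ∃ V ∈ 𝓝 z, V ⊆ Set.range m.toFun)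
    (hc : IsCompact (m.toFun ⁻¹' {z}))
    (hp : ∀ W : Set X', IsOpen W → m.toFun ⁻¹' {z} ⊆ W → ∃ V ∈ 𝓝 z, m.toFun ⁻¹' V ⊆ W)
    (hF : ∀ z', m.toFun z' = z → L'.FinConv z') {p : ℕ} {θ : Raw Φ p 0} (hθ : IsCst θ)
    (hs : L.SFat z θ) (hv : ∀ z', m.toFun z' = z → L'.Van z' (pullR m.ix θ)) :
    L.Van z θ := by
  classical
  obtain ⟨s, hsf, hsd⟩ := hs
  have hD : {x : X | ∀ f ∈ s, x ∈ L.dom f} ∈ 𝓝 z := by
    have : ∀ᶠ x in 𝓝 z, ∀ f ∈ s, x ∈ L.dom f := by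
      rw [Filter.eventually_all_finset]
      exact fun f hf => (L.isOpen_dom f).mem_nhds (hsd f hf)
    exact this
  -- local data upstairs
  have key : ∀ z' : X', m.toFun z' = z → ∃ (u : Finset Φ') (V : Set X')
      (S : Set (Set (u → ℝ))), s.image m.ix ⊆ u ∧ V ∈ 𝓝 z' ∧ S.Finite ∧
        (∀ σ ∈ S, Convex ℝ σ) ∧ L'.trop u '' V = ⋃₀ S ∧
        VanOn u (pullR m.ix θ) (L'.trop u '' V) := by
    intro z' hz'
    obtain ⟨u, hu, -, V0, hV0, hVd, hvan⟩ := Desc1.enlarge L' (hv z' hz') (s.image m.ix) (by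
      intro f hf
      obtain ⟨f', hf', rfl⟩ := Finset.mem_image.1 hf
      refine m.dom_sub _ _ ?_
      rw [hz']
      exact hsd f' hf')
    obtain ⟨V, hV, hVV, -, S, hS, hSc, hSe⟩ := hF z' hz' u
      (fun f hf => hVd f hf (mem_of_mem_nhds hV0)) V0 hV0
    exact ⟨u, V, S, hu, hV, hS, hSc, hSe, hvan.mono (Set.image_mono hVV)⟩
  choose! u V S hu hV hS hSc hSe hvan using key
  obtain ⟨t, ht, htc⟩ := hc.elim_nhds_subcover (fun z' => interior (V z'))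
    (fun z' hz' => interior_mem_nhds.2 (hV z' hz'))
  obtain ⟨V1, hV1, hV1W⟩ := hp (⋃ z' ∈ t, interior (V z'))
    (isOpen_biUnion fun z' _ => isOpen_interior) htc
  obtain ⟨V2, hV2, hV2r⟩ := hsur
  refine ⟨s, hsf, (V1 ∩ V2) ∩ {x : X | ∀ f ∈ s, x ∈ L.dom f},
    Filter.inter_mem (Filter.inter_mem hV1 hV2) hD, fun f hf x hx => hx.2 f hf, ?_⟩
  intro σ hσ hσP x w v hx hw hvv
  -- the restriction maps
  have hmem : ∀ i : t, ∀ f : s, m.ix f ∈ u i := fun i f =>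
    hu i (ht i i.2) (Finset.mem_image_of_mem _ f.2)
  let r : ∀ i : t, ((u i) → ℝ) →ₗ[ℝ] (s → ℝ) := fun i =>
    LinearMap.funLeft ℝ ℝ (fun f : s => (⟨m.ix f, hmem i f⟩ : u i))
  have hr : ∀ (i : t) (y : u i → ℝ) (f : s), r i y f = y ⟨m.ix f, hmem i f⟩ := fun i y f => rfl
  have hfin : ∀ i : t, Finite (S i) := fun i => (hS i (ht i i.2)).to_subtype
  let C : (Σ i : t, (S i : Set (Set (u i → ℝ)))) → Set (s → ℝ) := fun c =>
    r c.1 '' (c.2.1 ∩ r c.1 ⁻¹' σ)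
  have hconv : ∀ c : (Σ i : t, (S i : Set (Set (u i → ℝ)))),
      Convex ℝ (c.2.1 ∩ r c.1 ⁻¹' σ) := fun c =>
    (hSc c.1 (ht c.1 c.1.2) c.2.1 c.2.2).inter (hσ.linear_preimage (r c.1))
  obtain ⟨c, hcne, hcs⟩ := exists_vectorSpan_eq hσ ⟨_, hx⟩ C
    (fun c => (hconv c).linear_image (r c.1))
    (by
      rintro c _ ⟨y, hy, rfl⟩
      exact hy.2)
    (by
      intro y hy
      obtain ⟨z2, ⟨⟨hz1, hz2⟩, hz3⟩, rfl⟩ := hσP hy
      obtain ⟨x', rfl⟩ := hV2r hz2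
      have h1 : x' ∈ ⋃ z' ∈ t, interior (V z') := hV1W hz1
      simp only [Set.mem_iUnion] at h1
      obtain ⟨i, hi, hxi⟩ := h1
      have h2 : L'.trop (u i) x' ∈ ⋃₀ S i := by
        rw [← hSe i (ht i hi)]
        exact ⟨x', interior_subset hxi, rfl⟩
      obtain ⟨c, hc, hxc⟩ := h2
      have h3 : r ⟨i, hi⟩ (L'.trop (u i) x') = L.trop s (m.toFun x') := by
        funext f
        exact m.lf_eq f x' (hz3 f f.2)
      refine Set.mem_iUnion.2 ⟨⟨⟨i, hi⟩, ⟨c, hc⟩⟩, ?_⟩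
      exact ⟨L'.trop (u i) x', ⟨hxc, by rw [Set.mem_preimage, h3]; exact hy⟩, h3⟩)
  obtain ⟨i, c⟩ := c
  have hsp : ∀ j, ∃ y ∈ vectorSpan ℝ (c.1 ∩ r i ⁻¹' σ), r i y = rs s (v j) := by
    intro j
    have h1 := hvv j
    rw [← hcs] at h1
    change rs s (v j) ∈ vectorSpan ℝ (r i '' (c.1 ∩ r i ⁻¹' σ)) at h1
    rw [Desc1.vectorSpan_image] at h1
    exact h1
  choose y hy hry using hsp
  obtain ⟨_, x0, hx0, -⟩ := hcne
  obtain ⟨X0, hX0⟩ := rs_surjective (u i) x0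
  have hY : ∀ j, ∃ Y : Φ' → ℝ, rs (u i) Y = y j := fun j => rs_surjective (u i) (y j)
  choose Y hYy using hY
  have hz := hvan i (ht i i.2) (c.1 ∩ r i ⁻¹' σ) (hconv ⟨i, c⟩) (by
      intro a ha
      rw [hSe i (ht i i.2)]
      exact ⟨c.1, c.2, ha.1⟩) X0 ![] Y (by rw [hX0]; exact hx0) (fun k => k.elim0)
    (fun j => by rw [hYy]; exact hy j)
  obtain ⟨α, hα, hαe⟩ := hsf
  have h4 : θ x w v = θ (X0 ∘ m.ix) w v := hθ _ _ _ _
  rw [h4, ← hz]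
  change θ (X0 ∘ m.ix) w v = θ (X0 ∘ m.ix) (fun k => (![] : Fin 0 → Φ' → ℝ) k ∘ m.ix)
    (fun j => Y j ∘ m.ix)
  rw [hαe, hαe]
  have h5 : (fun k => rs s (w k)) = fun k => rs s ((![] : Fin 0 → Φ' → ℝ) k ∘ m.ix) := by
    funext k
    exact k.elim0
  have h6 : (fun j => rs s (v j)) = fun j => rs s (Y j ∘ m.ix) := by
    funext j
    rw [← hry j, ← hYy j]
    rfl
  rw [h5, h6]

end Pool.Agent.TD
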