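import Pool.Agent.TD.U.Defs
import Pool.Agent.TD.T.Res
import Pool.Agent.TD.T.Gauss

/-! Block U: Gauss points over variable base points. -/

open scoped ContDiff Topology
open Polynomial

namespace Pool.Agent.TD

variable {K R : Type} [NormedField K] [CommRing R] [Algebra K R]

namespace U_GPT

/-- The absolute value of `H` as a point. -/
noncomputable def nrmPt (H : Type) [NormedField H] [IsUltrametricDist H] : Ber H H where
  v := norm
  nonneg := norm_nonneg
  one := norm_one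
  mul := norm_mul
  add := fun a b => IsUltrametricDist.norm_add_le_max a b
  ext := fun _ => rfl

section

variable {H : Type} [NormedField H] [IsUltrametricDist H] {x : Ber K R} {ι : R →+* H}

omit [IsUltrametricDist H] in
theorem comp_shp (b d : R) (hd : ι d ≠ 0) (f : R[X]) (i : ℕ) :
    ((f.map ι).comp (X + C (ι b / ι d))).coeff i * ι d ^ f.natDegree =
      ι ((shp b d f).coeff i) * ι d ^ i := by
  have h1 : ((shp b d f).map ι).comp (C (ι d) * X) =
      C (ι d) ^ f.natDegree * (f.map ι).comp (X + C (ι b / ι d)) := by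
    have h2 := scaleRoots_eval₂_mul (p := f) (C.comp ι : R →+* H[X]) (X + C (ι b / ι d)) d
    have h3 : (C.comp ι : R →+* H[X]) d * (X + C (ι b / ι d)) = C (ι d) * X + C (ι b) := by
      rw [RingHom.comp_apply, mul_add, ← C_mul, mul_div_cancel₀ _ hd]
    rw [h3] at h2
    unfold shp
    rw [Polynomial.map_comp, comp_assoc, Polynomial.map_add, map_X, map_C, add_comp, X_comp, C_comp]
    unfold comp
    rw [eval₂_map, eval₂_map, h2, RingHom.comp_apply]
  have h4 := congrArg (fun p : H[X] => p.coeff i) h1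
  simp only [comp_C_mul_X_coeff, coeff_map] at h4
  rw [h4, ← C_pow, coeff_C_mul, mul_comm]

theorem shp_coeff_zero (b d : R) (f : R[X]) {i : ℕ} (hi : f.natDegree < i) :
    (shp b d f).coeff i = 0 := by
  refine coeff_eq_zero_of_natDegree_lt (lt_of_le_of_lt ?_ hi)
  unfold shp
  refine natDegree_comp_le.trans ?_
  rw [natDegree_scaleRoots]
  calc f.natDegree * (X + C b : R[X]).natDegree ≤ f.natDegree * 1 := by
        refine Nat.mul_le_mul_left _ ?_
        refine (natDegree_add_le _ _).trans ?_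
        simp [natDegree_X_le]
    _ = f.natDegree := mul_one _

/-- One monomial. -/
theorem term_eq (hι : ∀ a, ‖ι a‖ = x.v a) (b d : R) (hd : x.v d ≠ 0) (ρ : ℝ) (f : R[X]) (i : ℕ) :
    (T_GAUSS.av (nrmPt H)) (((f.map ι).comp (X + C (ι b / ι d))).coeff i) * ρ ^ i =
      x.v ((shp b d f).coeff i) * (x.v d * ρ) ^ i / x.v d ^ f.natDegree := by
  have hd' : ι d ≠ 0 := by
    intro h
    apply hd
    rw [← hι, h, norm_zero]
  have h1 := congrArg norm (comp_shp b d hd' f i)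
  rw [norm_mul, norm_mul, norm_pow, norm_pow, hι, hι] at h1
  have h2 : (T_GAUSS.av (nrmPt H)) (((f.map ι).comp (X + C (ι b / ι d))).coeff i) =
      ‖((f.map ι).comp (X + C (ι b / ι d))).coeff i‖ := rfl
  rw [h2, eq_div_iff (pow_ne_zero _ hd), mul_pow]
  calc _ = ‖((f.map ι).comp (X + C (ι b / ι d))).coeff i‖ * x.v d ^ f.natDegree * ρ ^ i := by ring
    _ = _ := by rw [h1]; ring

theorem le_gz (b d : R) (x : Ber K R) (ρ : ℝ) (f : R[X]) {i : ℕ} (hi : i ≤ f.natDegree) :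
    x.v ((shp b d f).coeff i) * (x.v d * ρ) ^ i / x.v d ^ f.natDegree ≤ gz b d x ρ f := by
  unfold gz
  refine div_le_div_of_nonneg_right ?_ (pow_nonneg (x.nonneg d) _)
  exact le_ciSup (f := fun i : Fin (f.natDegree + 1) =>
    x.v ((shp b d f).coeff i) * (x.v d * ρ) ^ (i : ℕ)) (Set.finite_range _).bddAbove
    ⟨i, Nat.lt_succ_of_le hi⟩

theorem ex_gz (b d : R) (x : Ber K R) (ρ : ℝ) (f : R[X]) :
    ∃ i ≤ f.natDegree, x.v ((shp b d f).coeff i) * (x.v d * ρ) ^ i / x.v d ^ f.natDegree =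
      gz b d x ρ f := by
  obtain ⟨i, hi⟩ := exists_eq_ciSup_of_finite (f := fun i : Fin (f.natDegree + 1) =>
    x.v ((shp b d f).coeff i) * (x.v d * ρ) ^ (i : ℕ))
  refine ⟨i, Nat.le_of_lt_succ i.2, ?_⟩
  unfold gz
  rw [← hi]

theorem gauss_eq (hι : ∀ a, ‖ι a‖ = x.v a) (b d : R) (hd : x.v d ≠ 0) (ρ : ℝ) (hρ : 0 < ρ)
    (f : R[X]) :
    ((f.map ι).comp (X + C (ι b / ι d))).gaussNorm (T_GAUSS.av (nrmPt H)) ρ = gz b d x ρ f := by
  apply le_antisymm
  · obtain ⟨i, hi⟩ := exists_eq_gaussNorm (T_GAUSS.av (nrmPt H)) ρ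
      ((f.map ι).comp (X + C (ι b / ι d)))
    rw [hi, term_eq hι b d hd ρ f i]
    by_cases h : i ≤ f.natDegree
    · exact le_gz b d x ρ f h
    · rw [shp_coeff_zero b d f (not_le.mp h), x.zero, zero_mul, zero_div]
      obtain ⟨j, -, hj2⟩ := ex_gz b d x ρ f
      rw [← hj2]
      have := x.nonneg ((shp b d f).coeff j)
      have := x.nonneg d
      positivity
  · obtain ⟨i, -, hi⟩ := ex_gz b d x ρ f
    rw [← hi, ← term_eq hι b d hd ρ f i]
    exact le_gaussNorm _ _ hρ.le i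

/-- The Gauss point. -/
noncomputable def pt (hι : ∀ a, ‖ι a‖ = x.v a) (b d : R) (ρ : ℝ) (hρ : 0 < ρ) : Ber K R[X] where
  v f := (T_GAUSS.gp (nrmPt H) (ι b / ι d) ρ hρ.le).v (f.map ι)
  nonneg f := (T_GAUSS.gp (nrmPt H) (ι b / ι d) ρ hρ.le).nonneg _
  one := by rw [Polynomial.map_one, Ber.one]
  mul f g := by rw [Polynomial.map_mul, Ber.mul]
  add f g := by
    rw [Polynomial.map_add]
    exact Ber.add _ _ _
  ext c := by
    have h1 : algebraMap K R[X] c = C (algebraMap K R c) := rfl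
    have h2 := (T_GAUSS.gp (nrmPt H) (ι b / ι d) ρ hρ.le).ext (ι (algebraMap K R c))
    rw [show (algebraMap H H[X]) (ι (algebraMap K R c)) = C (ι (algebraMap K R c)) from rfl] at h2
    rw [h1, map_C, h2, hι, x.ext]

theorem pt_gz (hι : ∀ a, ‖ι a‖ = x.v a) (b d : R) (hd : x.v d ≠ 0) (ρ : ℝ) (hρ : 0 < ρ) :
    IsGz b d x ρ (pt hι b d ρ hρ) := fun f => by
  show (T_GAUSS.gp (nrmPt H) (ι b / ι d) ρ hρ.le).v (f.map ι) = _
  rw [T_GAUSS.gp_v]
  exact gauss_eq hι b d hd ρ hρ f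

end

end U_GPT

/-- Gauss points exist. -/
theorem exists_gz (b d : R) (x : Ber K R) (hd : x.v d ≠ 0) (ρ : ℝ) (hρ : 0 < ρ) :
    ∃ z : Ber K R[X], IsGz b d x ρ z := by
  obtain ⟨H, _, _, _, ι, hι⟩ := td_res K R x
  exact ⟨_, U_GPT.pt_gz hι.norm b d hd ρ hρ⟩

/-- The value of a Gauss point is one of the monomials; the other ones are smaller. -/
theorem gz_eq (b d : R) (x : Ber K R) (hd : x.v d ≠ 0) (ρ : ℝ) (hρ : 0 < ρ) (f : R[X]) :
    (∀ i ≤ f.natDegree, x.v ((shp b d f).coeff i) * (x.v d * ρ) ^ i / x.v d ^ f.natDegree ≤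
      gz b d x ρ f) ∧
    ∃ i ≤ f.natDegree, x.v ((shp b d f).coeff i) * (x.v d * ρ) ^ i / x.v d ^ f.natDegree =
      gz b d x ρ f :=
  ⟨fun _ hi => U_GPT.le_gz b d x ρ f hi, U_GPT.ex_gz b d x ρ f⟩

/-- Values on base functions and on `d X - b`. -/
theorem gz_C (b d : R) (x : Ber K R) (hd : x.v d ≠ 0) (ρ : ℝ) (hρ : 0 < ρ) (z : Ber K R[X])
    (hz : IsGz b d x ρ z) (a : R) : z.v (C a) = x.v a := by
  obtain ⟨H, _, _, _, ι, hι⟩ := td_res K R x
  rw [hz, ← U_GPT.gauss_eq hι.norm b d hd ρ hρ, map_C, C_comp, gaussNorm_C]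
  exact hι.norm a

theorem gz_lin (b d : R) (x : Ber K R) (hd : x.v d ≠ 0) (ρ : ℝ) (hρ : 0 < ρ) (z : Ber K R[X])
    (hz : IsGz b d x ρ z) : z.v (C d * X - C b) = x.v d * ρ := by
  obtain ⟨H, _, _, _, ι, hι⟩ := td_res K R x
  have hd' : ι d ≠ 0 := by
    intro h
    apply hd
    rw [← hι.norm, h, norm_zero]
  have h1 : ((C d * X - C b : R[X]).map ι).comp (X + C (ι b / ι d)) = monomial 1 (ι d) := by
    rw [Polynomial.map_sub, Polynomial.map_mul, map_C, map_C, map_X, sub_comp, mul_comp, C_comp,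
      C_comp, X_comp, mul_add, ← C_mul, mul_div_cancel₀ _ hd', add_sub_cancel_right,
      ← C_mul_X_eq_monomial]
  rw [hz, ← U_GPT.gauss_eq hι.norm b d hd ρ hρ, h1, gaussNorm_monomial, pow_one, ← hι.norm]
  rfl

end Pool.Agent.TD
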