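import Pool.Agent.TD.U.Gpt

/-! Block U: continuity of the Gauss points, Gauss points of the fibre. -/

open scoped ContDiff Topology
open Polynomial

namespace Pool.Agent.TD

variable {K R : Type} [NormedField K] [CommRing R] [Algebra K R]

namespace Gpt2Aux

/-- The value of the Gauss point at `f` is continuous in the point and the radius. -/
theorem gz_continuousAt (b d : R) (y : Ber K R) (hd : y.v d ≠ 0) (ρ : ℝ) (f : R[X]) :
    ContinuousAt (fun p : Ber K R × ℝ => gz b d p.1 p.2 f) (y, ρ) := by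
  have hc : ∀ a : R, Continuous (fun p : Ber K R × ℝ => p.1.v a) := fun a =>
    (Ber.continuous_v a).comp continuous_fst
  have e : (fun p : Ber K R × ℝ => gz b d p.1 p.2 f) = fun p : Ber K R × ℝ =>
      ((Finset.univ : Finset (Fin (f.natDegree + 1))).sup' Finset.univ_nonempty
        (fun i => p.1.v ((shp b d f).coeff i) * (p.1.v d * p.2) ^ (i : ℕ))) /
        p.1.v d ^ f.natDegree := by
    funext p
    rw [Finset.sup'_univ_eq_ciSup]
    rfl
  rw [e]
  refine ContinuousAt.div (ContinuousAt.finset_sup'_apply Finset.univ_nonempty fun i _ => ?_)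
    ((hc d).pow _).continuousAt (pow_ne_zero _ hd)
  exact ((hc _).mul (((hc d).mul continuous_snd).pow _)).continuousAt

/-- A supremum over a longer range of terms which vanish. -/
theorem iSup_fin_eq (t : ℕ → ℝ) (m n : ℕ) (hmn : m ≤ n) (h0 : ∀ i, 0 ≤ t i)
    (h : ∀ i, m < i → t i = 0) :
    (⨆ i : Fin (n + 1), t i) = ⨆ i : Fin (m + 1), t i := by
  have b1 : BddAbove (Set.range fun i : Fin (n + 1) => t i) := (Set.finite_range _).bddAbove
  have b2 : BddAbove (Set.range fun i : Fin (m + 1) => t i) := (Set.finite_range _).bddAbove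
  apply le_antisymm
  · refine ciSup_le fun i => ?_
    rcases Nat.lt_or_ge m i with hi | hi
    · rw [h _ hi]
      exact (h0 0).trans (le_ciSup b2 (0 : Fin (m + 1)))
    · exact le_ciSup b2 (⟨i, by omega⟩ : Fin (m + 1))
  · refine ciSup_le fun i => ?_
    exact le_ciSup b1 (⟨i, by omega⟩ : Fin (n + 1))

/-- The coefficients of `shp b d f` in the residue field. -/
theorem coeff_shp {k : Type} [Field k] (ι : R →+* k) (b d : R) (hd : ι d ≠ 0) (f : R[X]) (i : ℕ) :
    ι ((shp b d f).coeff i) = ι d ^ f.natDegree *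
      (((f.map ι).comp (X + C (ι b / ι d))).coeff i * (ι d)⁻¹ ^ i) := by
  have h1 : (f.scaleRoots d).map ι = C (ι d ^ f.natDegree) * (f.map ι).comp (C (ι d)⁻¹ * X) := by
    ext j
    rw [coeff_map, coeff_scaleRoots, coeff_C_mul, comp_C_mul_X_coeff, map_mul, map_pow,
      coeff_map]
    rcases Nat.lt_or_ge f.natDegree j with hj | hj
    · rw [coeff_eq_zero_of_natDegree_lt hj, map_zero, zero_mul, zero_mul, mul_zero]
    · have h2 : ι d ^ f.natDegree = ι d ^ (f.natDegree - j) * ι d ^ j := by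
        rw [← pow_add, Nat.sub_add_cancel hj]
      have h3 : ι d ^ j * (ι d)⁻¹ ^ j = 1 := by
        rw [← mul_pow, mul_inv_cancel₀ hd, one_pow]
      rw [h2]
      linear_combination (-(ι (f.coeff j) * ι d ^ (f.natDegree - j))) * h3
  have h2 : (shp b d f).map ι = C (ι d ^ f.natDegree) *
      ((f.map ι).comp (X + C (ι b / ι d))).comp (C (ι d)⁻¹ * X) := by
    unfold shp
    rw [Polynomial.map_comp, h1, mul_comp, comp_assoc, comp_assoc, C_comp]
    congr 2
    rw [Polynomial.map_add, map_X, map_C, mul_comp, C_comp, X_comp, add_comp, X_comp, C_comp,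
      mul_add, ← C_mul]
    congr 2
    rw [div_eq_mul_inv, mul_comm]
  rw [← coeff_map, h2, coeff_C_mul, comp_C_mul_X_coeff]

end Gpt2Aux

/-- Continuity: near `(y, ρ)` the Gauss points are near the Gauss point `z`. -/
theorem gz_nhds (b d : R) (y : Ber K R) (hd : y.v d ≠ 0) (ρ : ℝ) (hρ : 0 < ρ) (z : Ber K R[X])
    (hz : IsGz b d y ρ z) : ∀ V ∈ 𝓝 z, ∃ W ∈ 𝓝 y, ∃ ε > 0, ε < ρ ∧
      ∀ x ∈ W, x.v d ≠ 0 ∧ ∀ ρ', |ρ' - ρ| < ε → ∀ z', IsGz b d x ρ' z' → z' ∈ V := by
  intro V hV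
  rw [nhds_induced, Filter.mem_comap] at hV
  obtain ⟨U, hU, hUV⟩ := hV
  have hG : ContinuousAt (fun p : Ber K R × ℝ => fun f : R[X] => gz b d p.1 p.2 f) (y, ρ) :=
    continuousAt_pi.2 fun f => Gpt2Aux.gz_continuousAt b d y hd ρ f
  have hzv : (fun f : R[X] => gz b d y ρ f) = z.v := (funext hz).symm
  have h1 : (fun p : Ber K R × ℝ => fun f : R[X] => gz b d p.1 p.2 f) ⁻¹' U ∈ 𝓝 (y, ρ) := by
    refine hG.preimage_mem_nhds ?_
    show U ∈ 𝓝 (fun f : R[X] => gz b d y ρ f)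
    rw [hzv]
    exact hU
  rw [nhds_prod_eq, Filter.mem_prod_iff] at h1
  obtain ⟨W, hW, I, hI, hWI⟩ := h1
  obtain ⟨ε, hε, hεI⟩ := Metric.mem_nhds_iff.1 hI
  have hopen : {x : Ber K R | x.v d ≠ 0} ∈ 𝓝 y :=
    (isOpen_ne_fun (Ber.continuous_v d) continuous_const).mem_nhds hd
  refine ⟨W ∩ {x | x.v d ≠ 0}, Filter.inter_mem hW hopen, min ε (ρ / 2),
    lt_min hε (half_pos hρ), (min_le_right _ _).trans_lt (half_lt_self hρ), ?_⟩
  rintro x ⟨hxW, hxd⟩
  refine ⟨hxd, fun ρ' hρ' z' hz' => hUV ?_⟩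
  have h2 : (x, ρ') ∈ (fun p : Ber K R × ℝ => fun f : R[X] => gz b d p.1 p.2 f) ⁻¹' U := by
    refine hWI ⟨hxW, hεI ?_⟩
    rw [Metric.mem_ball, Real.dist_eq]
    exact hρ'.trans_le (min_le_left _ _)
  show z'.v ∈ U
  have h3 : z'.v = fun f : R[X] => gz b d x ρ' f := funext hz'
  rw [h3]
  exact h2

/-- The Gauss points of the fibre. -/
theorem fibU_gz {k : Type} [NormedField k] {y : Ber K R} {ι : R →+* k} (h : IsResF y ι)
    (b d : R) (hd : ι d ≠ 0) (ρ : ℝ) (hρ : 0 < ρ) (w : Ber k k[X])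
    (hw : ∀ f : k[X], w.v f = (⨆ i : Fin (f.natDegree + 1),
      ‖(f.comp (X + C (ι b / ι d))).coeff i‖ * ρ ^ (i : ℕ))) :
    IsGz b d y ρ (fibU h w) := by
  intro f
  rw [fibU_v, hw]
  have hD : 0 < y.v d := by
    rw [← h.norm]
    exact norm_pos_iff.2 hd
  have ht : ∀ i : ℕ, y.v ((shp b d f).coeff i) * (y.v d * ρ) ^ i =
      (‖((f.map ι).comp (X + C (ι b / ι d))).coeff i‖ * ρ ^ i) * y.v d ^ f.natDegree := by
    intro i
    rw [← h.norm, Gpt2Aux.coeff_shp ι b d hd f i, norm_mul, norm_mul, norm_pow, norm_pow,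
      norm_inv, h.norm, mul_pow]
    have h3 : (y.v d)⁻¹ ^ i * y.v d ^ i = 1 := by
      rw [← mul_pow, inv_mul_cancel₀ hD.ne', one_pow]
    linear_combination (y.v d ^ f.natDegree *
      ‖((f.map ι).comp (X + C (ι b / ι d))).coeff i‖ * ρ ^ i) * h3
  unfold gz
  rw [show (⨆ i : Fin (f.natDegree + 1), y.v ((shp b d f).coeff i) * (y.v d * ρ) ^ (i : ℕ)) =
    (⨆ i : Fin (f.natDegree + 1), ‖((f.map ι).comp (X + C (ι b / ι d))).coeff i‖ * ρ ^ (i : ℕ)) *
      y.v d ^ f.natDegree from by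
        rw [Real.iSup_mul_of_nonneg (pow_nonneg hD.le _)]
        exact congrArg iSup (funext fun i => ht i)]
  rw [mul_div_assoc, div_self (pow_ne_zero _ hD.ne'), mul_one]
  refine (Gpt2Aux.iSup_fin_eq
    (fun i => ‖((f.map ι).comp (X + C (ι b / ι d))).coeff i‖ * ρ ^ i)
    (f.map ι).natDegree f.natDegree natDegree_map_le
    (fun i => mul_nonneg (norm_nonneg _) (pow_nonneg hρ.le _)) fun i hi => ?_).symm
  have h0 : ((f.map ι).comp (X + C (ι b / ι d))).coeff i = 0 := by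
    refine coeff_eq_zero_of_natDegree_lt ?_
    rw [natDegree_comp, natDegree_X_add_C, mul_one]
    exact hi
  show ‖((f.map ι).comp (X + C (ι b / ι d))).coeff i‖ * ρ ^ i = 0
  rw [h0, norm_zero, zero_mul]

end Pool.Agent.TD
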