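import Pool.Agent.TD.U.Defs
import Pool.Agent.TD.U.Ful

/-! Block U: germs of `log |F|` on Berkovich spectra; Steinberg relation. -/

open scoped ContDiff Topology
open Polynomial

namespace Pool.Agent.TD

variable {K A : Type} [NormedField K] [CommRing A] [Algebra K A] {z : Ber K A}

/-- `log |F|` only depends on `F` up to smaller functions. -/
theorem dlS_eq_of_close {F G : A} (hF : z.v F ≠ 0) (hG : z.v G ≠ 0) (h : z.v (F - G) < z.v F) :
    (berLS K A).dlS (z := z) F hF = (berLS K A).dlS (z := z) G hG := by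
  refine (berLS K A).dlS_eq_of_lf hF hG 0 ?_
  have ho : IsOpen {z' : Ber K A | z'.v (F - G) < z'.v F} :=
    isOpen_lt (Ber.continuous_v _) (Ber.continuous_v _)
  filter_upwards [ho.mem_nhds h] with z' hz'
  show Real.log (z'.v F) = 0 + Real.log (z'.v G)
  rw [zero_add, z'.sub_eq hz']

theorem dlS_mul {F G : A} (hF : z.v F ≠ 0) (hG : z.v G ≠ 0) (hFG : z.v (F * G) ≠ 0) :
    (berLS K A).dlS (z := z) (F * G) hFG =
      (berLS K A).dlS (z := z) F hF + (berLS K A).dlS (z := z) G hG := by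
  have hz : ∀ i : Fin 2, z ∈ (berLS K A).dom ((![F, G] : Fin 2 → A) i) := by
    intro i
    fin_cases i
    · exact hF
    · exact hG
  have h := (berLS K A).dlS_eq_sum (n := 2) (f := F * G) (g := ![F, G]) hFG hz (fun _ => 1) 0 (by
    filter_upwards [((berLS K A).isOpen_dom F).mem_nhds hF,
      ((berLS K A).isOpen_dom G).mem_nhds hG] with z' h1 h2
    have h1' : z'.v F ≠ 0 := h1
    have h2' : z'.v G ≠ 0 := h2
    rw [Fin.sum_univ_two]
    show Real.log (z'.v (F * G)) = 0 + (1 * Real.log (z'.v F) + 1 * Real.log (z'.v G))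
    rw [z'.mul, Real.log_mul h1' h2']
    ring)
  rw [h, Fin.sum_univ_two, one_smul, one_smul]
  rfl

theorem dlS_algebraMap (c : K) (h : z.v (algebraMap K A c) ≠ 0) :
    (berLS K A).dlS (z := z) (algebraMap K A c) h = 0 := by
  have h1 := (berLS K A).dlS_eq_sum (n := 0) (f := algebraMap K A c) (g := ![]) h
    (fun i => i.elim0) (fun _ => 1) (Real.log ‖c‖) (by
      refine Filter.Eventually.of_forall fun z' => ?_
      show Real.log (z'.v (algebraMap K A c)) = _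
      rw [z'.ext]
      simp)
  rw [h1]
  simp

section
variable {Φ : Type} {p q : ℕ}

theorem kl_wdg_congr {f g f' g' : Φ} {θ : Raw Φ p q} {x : Φ → ℝ} {w : Fin q → Φ → ℝ}
    {v : Fin (p + 2) → Φ → ℝ} (hf : ∀ j, v j f = v j f') (hg : ∀ j, v j g = v j g') :
    wdg1 (dlg f) (wdg1 (dlg g) θ) x w v = wdg1 (dlg f') (wdg1 (dlg g') θ) x w v := by
  show ∑ j : Fin (p + 2), (-1 : ℝ) ^ (j : ℕ) * v j f * (∑ i : Fin (p + 1), (-1 : ℝ) ^ (i : ℕ) *
      v (j.succAbove i) g * θ x w (fun k => v (j.succAbove (i.succAbove k)))) =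
    ∑ j : Fin (p + 2), (-1 : ℝ) ^ (j : ℕ) * v j f' * (∑ i : Fin (p + 1), (-1 : ℝ) ^ (i : ℕ) *
      v (j.succAbove i) g' * θ x w (fun k => v (j.succAbove (i.succAbove k))))
  simp only [hf, hg]

theorem kl_anti {s : Finset Φ} {f g : Φ} {θ : Raw Φ p q} (h : IsSF s θ) {x : Φ → ℝ}
    {w : Fin q → Φ → ℝ} {v : Fin (p + 2) → Φ → ℝ} :
    wdg1 (dlg f) (wdg1 (dlg g) θ) x w v = - wdg1 (dlg g) (wdg1 (dlg f) θ) x w v :=
  congrFun (congrFun (congrFun (wdg1_anti (η := dlg f) (η' := dlg g) h) x) w) v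

/-- The piece of `σ` where the coordinates `a` and `b` are equal and at least the coordinate
`c`. -/
def klPiece {u : Finset Φ} (σ : Set (u → ℝ)) (a b c : u) : Set (u → ℝ) :=
  {y | y ∈ σ ∧ y a = y b ∧ y c ≤ y a}

theorem klPiece_convex {u : Finset Φ} {σ : Set (u → ℝ)} (hσ : Convex ℝ σ) (a b c : u) :
    Convex ℝ (klPiece σ a b c) := by
  intro y hy y' hy' s t hs ht hst
  refine ⟨hσ hy.1 hy'.1 hs ht hst, ?_, ?_⟩
  · show s * y a + t * y' a = s * y b + t * y' b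
    rw [hy.2.1, hy'.2.1]
  · show s * y c + t * y' c ≤ s * y a + t * y' a
    have h1 := mul_le_mul_of_nonneg_left hy.2.2 hs
    have h2 := mul_le_mul_of_nonneg_left hy'.2.2 ht
    linarith

theorem klPiece_span {u : Finset Φ} {σ : Set (u → ℝ)} {a b c : u} {w : u → ℝ}
    (hw : w ∈ vectorSpan ℝ (klPiece σ a b c)) : w a = w b := by
  let ℓ : (u → ℝ) →ₗ[ℝ] ℝ := (LinearMap.proj a : (u → ℝ) →ₗ[ℝ] ℝ) -
    (LinearMap.proj b : (u → ℝ) →ₗ[ℝ] ℝ)
  have hk : vectorSpan ℝ (klPiece σ a b c) ≤ LinearMap.ker ℓ := by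
    rw [vectorSpan, Submodule.span_le]
    rintro _ ⟨y, hy, y', hy', rfl⟩
    show (y a - y' a) - (y b - y' b) = 0
    rw [hy.2.1, hy'.2.1, sub_self]
  have h0 : w a - w b = 0 := hk hw
  exact sub_eq_zero.1 h0

end

/-- Steinberg relation: for `F - G = H`:
`dlog F ∧ dlog G = dlog F ∧ dlog H + dlog H ∧ dlog G`. -/
theorem steinberg {F G H : A} (hF : z.v F ≠ 0) (hG : z.v G ≠ 0) (hH : z.v H ≠ 0)
    (e : F - G = H) {p q : ℕ} (c : (berLS K A).Stalk p q z) :
    (berLS K A).wdS (p + 1) q z ((berLS K A).dlS F hF)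
        ((berLS K A).wdS p q z ((berLS K A).dlS G hG) c) =
      (berLS K A).wdS (p + 1) q z ((berLS K A).dlS F hF)
        ((berLS K A).wdS p q z ((berLS K A).dlS H hH) c) +
      (berLS K A).wdS (p + 1) q z ((berLS K A).dlS H hH)
        ((berLS K A).wdS p q z ((berLS K A).dlS G hG) c) := by
  classical
  obtain ⟨θ, hθ, rfl⟩ := (berLS K A).exists_germ c
  unfold LogSpace.dlS
  rw [LogSpace.wdS_germ, LogSpace.wdS_germ, LogSpace.wdS_germ, LogSpace.wdS_germ,
    LogSpace.wdS_germ, ← LogSpace.germ_add, LogSpace.germ_eq_iff]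
  obtain ⟨s, hs, hsd⟩ := hθ
  let u : Finset A := s ∪ {F, G, H}
  have hFu : F ∈ u := by simp [u]
  have hGu : G ∈ u := by simp [u]
  have hHu : H ∈ u := by simp [u]
  have hu : ∀ f ∈ u, z ∈ (berLS K A).dom f := by
    intro f hf
    simp only [u, Finset.mem_union, Finset.mem_insert, Finset.mem_singleton] at hf
    rcases hf with hf | rfl | rfl | rfl
    · exact hsd f hf
    · exact hF
    · exact hG
    · exact hH
  have hev : ∀ᶠ z' in 𝓝 z, ∀ f' ∈ u, z' ∈ (berLS K A).dom f' := by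
    rw [Filter.eventually_all_finset]
    exact fun f' hf' => ((berLS K A).isOpen_dom f').mem_nhds (hu f' hf')
  have hθu : IsSF u θ := hs.mono Finset.subset_union_left
  have hsf2 : ∀ f ∈ u, ∀ g ∈ u, IsSF u (wdg1 (dlg f) (wdg1 (dlg g) θ)) := fun f hf g hg =>
    IsSF.wdg1 (isSF_dlg hf) (IsSF.wdg1 (isSF_dlg hg) hθu)
  refine ⟨u, ?_, {z' | ∀ f' ∈ u, z' ∈ (berLS K A).dom f'}, hev, fun f' hf' z' hz' => hz' f' hf',
    ?_⟩
  · have h1 := (hsf2 F hFu H hHu).add (hsf2 H hHu G hGu)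
    have h2 := (hsf2 F hFu G hGu).add (h1.smul (-1))
    have h3 : wdg1 (dlg F) (wdg1 (dlg G) θ) + (-1 : ℝ) • (wdg1 (dlg F) (wdg1 (dlg H) θ) +
        wdg1 (dlg H) (wdg1 (dlg G) θ)) = wdg1 (dlg F) (wdg1 (dlg G) θ) -
        (wdg1 (dlg F) (wdg1 (dlg H) θ) + wdg1 (dlg H) (wdg1 (dlg G) θ)) := by
      rw [neg_one_smul, sub_eq_add_neg]
    rw [← h3]
    exact h2
  · intro σ hσ hσP x w v hx hw hv
    have hcov : σ ⊆ ⋃ i, (![klPiece σ ⟨F, hFu⟩ ⟨G, hGu⟩ ⟨H, hHu⟩,
        klPiece σ ⟨F, hFu⟩ ⟨H, hHu⟩ ⟨G, hGu⟩,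
        klPiece σ ⟨G, hGu⟩ ⟨H, hHu⟩ ⟨F, hFu⟩] : Fin 3 → Set (u → ℝ)) i := by
      intro y hy
      obtain ⟨z', hz', rfl⟩ := hσP hy
      have hF0 : 0 < z'.v F := lt_of_le_of_ne (z'.nonneg F) (Ne.symm (hz' F hFu))
      have hG0 : 0 < z'.v G := lt_of_le_of_ne (z'.nonneg G) (Ne.symm (hz' G hGu))
      have hH0 : 0 < z'.v H := lt_of_le_of_ne (z'.nonneg H) (Ne.symm (hz' H hHu))
      have hFe : F = G + H := by rw [← e]; ring
      rw [Set.mem_iUnion]
      rcases lt_trichotomy (z'.v G) (z'.v H) with h | h | h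
      · refine ⟨1, hy, ?_, ?_⟩
        · show Real.log (z'.v F) = Real.log (z'.v H)
          rw [hFe, add_comm, z'.add_eq h]
        · show Real.log (z'.v G) ≤ Real.log (z'.v F)
          rw [hFe, add_comm, z'.add_eq h]
          exact Real.log_le_log hG0 h.le
      · refine ⟨2, hy, ?_, ?_⟩
        · show Real.log (z'.v G) = Real.log (z'.v H)
          rw [h]
        · show Real.log (z'.v F) ≤ Real.log (z'.v G)
          apply Real.log_le_log hF0
          rw [hFe]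
          exact (z'.add G H).trans (max_le le_rfl h.ge)
      · refine ⟨0, hy, ?_, ?_⟩
        · show Real.log (z'.v F) = Real.log (z'.v G)
          rw [hFe, z'.add_eq h]
        · show Real.log (z'.v H) ≤ Real.log (z'.v F)
          rw [hFe, z'.add_eq h]
          exact Real.log_le_log hH0 h.le
    obtain ⟨i, -, hi⟩ := exists_vectorSpan_eq hσ ⟨_, hx⟩ _ (by
      intro i
      fin_cases i
      · exact klPiece_convex hσ _ _ _
      · exact klPiece_convex hσ _ _ _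
      · exact klPiece_convex hσ _ _ _) (by
      intro i
      fin_cases i
      · exact fun y hy => hy.1
      · exact fun y hy => hy.1
      · exact fun y hy => hy.1) hcov
    show wdg1 (dlg F) (wdg1 (dlg G) θ) x w v - (wdg1 (dlg F) (wdg1 (dlg H) θ) x w v +
      wdg1 (dlg H) (wdg1 (dlg G) θ) x w v) = 0
    rw [← hi] at hv
    fin_cases i
    · have hFG : ∀ j, v j F = v j G := fun j => klPiece_span (hv j)
      have h1 : wdg1 (dlg F) (wdg1 (dlg G) θ) x w v = wdg1 (dlg F) (wdg1 (dlg F) θ) x w v :=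
        kl_wdg_congr (fun _ => rfl) (fun j => (hFG j).symm)
      have h2 : wdg1 (dlg H) (wdg1 (dlg G) θ) x w v = wdg1 (dlg H) (wdg1 (dlg F) θ) x w v :=
        kl_wdg_congr (fun _ => rfl) (fun j => (hFG j).symm)
      have h3 : wdg1 (dlg F) (wdg1 (dlg F) θ) x w v = - wdg1 (dlg F) (wdg1 (dlg F) θ) x w v :=
        kl_anti hθu
      have h4 : wdg1 (dlg F) (wdg1 (dlg H) θ) x w v = - wdg1 (dlg H) (wdg1 (dlg F) θ) x w v :=
        kl_anti hθu
      linarith
    · have hFH : ∀ j, v j F = v j H := fun j => klPiece_span (hv j)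
      have h1 : wdg1 (dlg F) (wdg1 (dlg H) θ) x w v = wdg1 (dlg F) (wdg1 (dlg F) θ) x w v :=
        kl_wdg_congr (fun _ => rfl) (fun j => (hFH j).symm)
      have h2 : wdg1 (dlg H) (wdg1 (dlg G) θ) x w v = wdg1 (dlg F) (wdg1 (dlg G) θ) x w v :=
        kl_wdg_congr (fun j => (hFH j).symm) (fun _ => rfl)
      have h3 : wdg1 (dlg F) (wdg1 (dlg F) θ) x w v = - wdg1 (dlg F) (wdg1 (dlg F) θ) x w v :=
        kl_anti hθu
      linarith
    · have hGH : ∀ j, v j G = v j H := fun j => klPiece_span (hv j)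
      have h1 : wdg1 (dlg F) (wdg1 (dlg H) θ) x w v = wdg1 (dlg F) (wdg1 (dlg G) θ) x w v :=
        kl_wdg_congr (fun _ => rfl) (fun j => (hGH j).symm)
      have h2 : wdg1 (dlg H) (wdg1 (dlg G) θ) x w v = wdg1 (dlg G) (wdg1 (dlg G) θ) x w v :=
        kl_wdg_congr (fun j => (hGH j).symm) (fun _ => rfl)
      have h3 : wdg1 (dlg G) (wdg1 (dlg G) θ) x w v = - wdg1 (dlg G) (wdg1 (dlg G) θ) x w v :=
        kl_anti hθu
      linarith

end Pool.Agent.TD
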