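import Pool.Agent.TD.U.Kl

/-! Block U: the germs `log |X - β|` for `β` in the residue field. -/

open scoped ContDiff Topology
open Polynomial

namespace Pool.Agent.TD

variable {K R k : Type} [NormedField K] [CommRing R] [Algebra K R] [NormedField k]
  {y : Ber K R} {ι : R →+* k}

namespace IsResF

/-- numerator -/
noncomputable def num (h : IsResF y ι) (β : k) : R := (h.frac β).choose

/-- denominator -/
noncomputable def den (h : IsResF y ι) (β : k) : R := (h.frac β).choose_spec.choose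

theorem den_ne (h : IsResF y ι) (β : k) : ι (h.den β) ≠ 0 :=
  (h.frac β).choose_spec.choose_spec.1

theorem eq_div (h : IsResF y ι) (β : k) : β = ι (h.num β) / ι (h.den β) :=
  (h.frac β).choose_spec.choose_spec.2

theorem v_ne (h : IsResF y ι) {a : R} : y.v a ≠ 0 ↔ ι a ≠ 0 := by
  rw [← h.norm, norm_ne_zero_iff]

theorem v_num (h : IsResF y ι) {γ : k} (hγ : γ ≠ 0) : y.v (h.num γ) ≠ 0 := by
  rw [h.v_ne]
  intro h0
  exact hγ (by rw [h.eq_div γ, h0, zero_div])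

theorem v_den (h : IsResF y ι) (γ : k) : y.v (h.den γ) ≠ 0 := h.v_ne.2 (h.den_ne γ)

/-- `d X - b` for `β = b/d`. -/
noncomputable def lp (h : IsResF y ι) (β : k) : R[X] := C (h.den β) * X - C (h.num β)

theorem ber_C (w : Ber k k[X]) (c : k) : w.v (C c) = ‖c‖ := w.ext c

theorem fib_gen (h : IsResF y ι) {b d : R} (hd : ι d ≠ 0) (w : Ber k k[X]) :
    (fibU h w).v (C d * X - C b) = ‖ι d‖ * w.v (X - C (ι b / ι d)) := by
  rw [fibU_v, ← ber_C w (ι d), ← w.mul]
  congr 1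
  rw [Polynomial.map_sub, Polynomial.map_mul, map_C, map_X, map_C, mul_sub, ← C_mul,
    mul_div_cancel₀ _ hd]

theorem fib_lp (h : IsResF y ι) (β : k) (w : Ber k k[X]) :
    (fibU h w).v (h.lp β) = ‖ι (h.den β)‖ * w.v (X - C β) := by
  rw [lp, h.fib_gen (h.den_ne β) w, ← h.eq_div β]

theorem fib_C (h : IsResF y ι) (a : R) (w : Ber k k[X]) : (fibU h w).v (C a) = y.v a := by
  rw [fibU_v, map_C, ber_C, h.norm]

/-- The germ `dlog |γ|` on the base. -/
noncomputable def bl (h : IsResF y ι) (γ : k) : (berLS K R).Stalk 1 0 y := by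
  classical
  exact if hγ : γ ≠ 0 then (berLS K R).dlS (h.num γ) (h.v_num hγ) -
    (berLS K R).dlS (h.den γ) (h.v_den γ) else 0

/-- The germ `dlog |X - β|`. -/
noncomputable def lin (h : IsResF y ι) (β : k) (w : Ber k k[X]) :
    (berLS K R[X]).Stalk 1 0 (fibU h w) := by
  classical
  exact if hβ : (fibU h w).v (h.lp β) ≠ 0 ∧ (fibU h w).v (C (h.den β)) ≠ 0 then
    (berLS K R[X]).dlS (h.lp β) hβ.1 - (berLS K R[X]).dlS (C (h.den β)) hβ.2 else 0

/-- Pull back of base germs to the fibre. -/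
noncomputable def pb (h : IsResF y ι) (p q : ℕ) (w : Ber k k[X]) :
    (berLS K R).Stalk p q y →ₗ[ℝ] (berLS K R[X]).Stalk p q (fibU h w) :=
  (prX K R).pullY (fibU_over h w) p q

theorem dlS_mem_L1 {A : Type} [CommRing A] [Algebra K A] {z : Ber K A} {f : A}
    (hf : z ∈ (berLS K A).dom f) : (berLS K A).dlS f hf ∈ (berLS K A).L1 z :=
  Submodule.subset_span ⟨f, hf, rfl⟩

theorem bl_mem (h : IsResF y ι) (γ : k) : h.bl γ ∈ (berLS K R).L1 y := by
  unfold bl
  split_ifs with hγ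
  · exact Submodule.sub_mem _ (dlS_mem_L1 _) (dlS_mem_L1 _)
  · exact Submodule.zero_mem _

theorem lin_mem (h : IsResF y ι) (β : k) (w : Ber k k[X]) :
    h.lin β w ∈ (berLS K R[X]).L1 (fibU h w) := by
  unfold lin
  split_ifs with hβ
  · exact Submodule.sub_mem _ (dlS_mem_L1 _) (dlS_mem_L1 _)
  · exact Submodule.zero_mem _

/-- Quotients: `log |F1| - log |F2| = log |G1| - log |G2|` if `F1 G2 - G1 F2` has absolute
value zero. -/
theorem dlS_sub_eq {A : Type} [CommRing A] [Algebra K A] {z : Ber K A} {F1 F2 G1 G2 : A}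
    (h1 : z.v F1 ≠ 0) (h2 : z.v F2 ≠ 0) (h3 : z.v G1 ≠ 0) (h4 : z.v G2 ≠ 0)
    (h0 : z.v (F1 * G2 - G1 * F2) = 0) :
    (berLS K A).dlS (z := z) F1 h1 - (berLS K A).dlS (z := z) F2 h2 =
      (berLS K A).dlS (z := z) G1 h3 - (berLS K A).dlS (z := z) G2 h4 := by
  have h14 : z.v (F1 * G2) ≠ 0 := by
    rw [z.mul]
    exact mul_ne_zero h1 h4
  have h32 : z.v (G1 * F2) ≠ 0 := by
    rw [z.mul]
    exact mul_ne_zero h3 h2
  have e := dlS_eq_of_close h14 h32 (by
    rw [h0]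
    exact lt_of_le_of_ne (z.nonneg _) (Ne.symm h14))
  rw [dlS_mul h1 h4 h14, dlS_mul h3 h2 h32] at e
  rw [sub_eq_sub_iff_add_eq_add]
  exact e

/-- `dlog |γ|` for a quotient `γ = a / b`. -/
theorem bl_eq (h : IsResF y ι) {a b : R} (ha : y.v a ≠ 0) (hb : y.v b ≠ 0) :
    h.bl (ι a / ι b) = (berLS K R).dlS a ha - (berLS K R).dlS b hb := by
  have hb' : ι b ≠ 0 := h.v_ne.1 hb
  have hγ : ι a / ι b ≠ 0 := div_ne_zero (h.v_ne.1 ha) hb'
  rw [bl, dif_pos hγ]
  apply dlS_sub_eq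
  rw [← h.norm, norm_eq_zero, map_sub, map_mul, map_mul, sub_eq_zero]
  have e := h.eq_div (ι a / ι b)
  rw [div_eq_div_iff hb' (h.den_ne _)] at e
  exact e.symm

/-- `dlog |X - β|` for a quotient `β = b / d`. -/
theorem lin_eq (h : IsResF y ι) (w : Ber k k[X]) {b d : R} (hd : ι d ≠ 0)
    (h1 : (fibU h w).v (C d * X - C b) ≠ 0) (h2 : (fibU h w).v (C d) ≠ 0) :
    h.lin (ι b / ι d) w = (berLS K R[X]).dlS (C d * X - C b) h1 -
      (berLS K R[X]).dlS (C d) h2 := by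
  have hw : w.v (X - C (ι b / ι d)) ≠ 0 := by
    rw [h.fib_gen hd w] at h1
    exact right_ne_zero_of_mul h1
  have hβ : (fibU h w).v (h.lp (ι b / ι d)) ≠ 0 ∧ (fibU h w).v (C (h.den (ι b / ι d))) ≠ 0 := by
    constructor
    · rw [h.fib_lp]
      exact mul_ne_zero (norm_ne_zero_iff.2 (h.den_ne _)) hw
    · rw [h.fib_C]
      exact h.v_den _
  rw [lin, dif_pos hβ]
  apply dlS_sub_eq
  have e1 : h.lp (ι b / ι d) * C d - (C d * X - C b) * C (h.den (ι b / ι d)) =
      C (b * h.den (ι b / ι d) - h.num (ι b / ι d) * d) := by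
    rw [lp, C_sub, C_mul, C_mul]
    ring
  rw [e1, h.fib_C, ← h.norm, norm_eq_zero, map_sub, map_mul, map_mul, sub_eq_zero]
  have e := h.eq_div (ι b / ι d)
  rw [div_eq_div_iff hd (h.den_ne _)] at e
  exact e

end IsResF

end Pool.Agent.TD
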