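import Pool.Agent.TD.U.Lin1

/-! Block U: relations between the germs `log |X - β|`. -/

open scoped ContDiff Topology
open Polynomial

namespace Pool.Agent.TD

variable {K R k : Type} [NormedField K] [CommRing R] [Algebra K R] [NormedField k]
  {y : Ber K R} {ι : R →+* k}

namespace IsResF

theorem lin2_congr {A : Type} [CommRing A] [Algebra K A] {z : Ber K A} {F G : A} (e : F = G)
    (hF : z.v F ≠ 0) (hG : z.v G ≠ 0) :
    (berLS K A).dlS (z := z) F hF = (berLS K A).dlS (z := z) G hG := by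
  subst e; rfl

theorem lin2_cden (h : IsResF y ι) (w : Ber k k[X]) (β : k) :
    (fibU h w).v (C (h.den β)) ≠ 0 := by
  rw [h.fib_C]; exact h.v_den β

theorem lin2_lp_ne (h : IsResF y ι) (w : Ber k k[X]) (β : k) (hw : w.v (X - C β) ≠ 0) :
    (fibU h w).v (h.lp β) ≠ 0 := by
  rw [h.fib_lp]
  exact mul_ne_zero (norm_ne_zero_iff.2 (h.den_ne β)) hw

theorem lin2_lin (h : IsResF y ι) (w : Ber k k[X]) (β : k) (hw : w.v (X - C β) ≠ 0) :
    h.lin β w = (berLS K R[X]).dlS (h.lp β) (h.lin2_lp_ne w β hw) -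
      (berLS K R[X]).dlS (C (h.den β)) (h.lin2_cden w β) := by
  unfold lin
  rw [dif_pos ⟨h.lin2_lp_ne w β hw, h.lin2_cden w β⟩]

/-- numerator of the difference -/
noncomputable def lin2_a (h : IsResF y ι) (β β' : k) : R :=
  h.num β * h.den β' - h.num β' * h.den β

theorem lin2_div (h : IsResF y ι) (β β' : k) :
    β - β' = ι (h.lin2_a β β') / ι (h.den β * h.den β') := by
  have h1 := h.eq_div β
  have h2 := h.eq_div β'
  have d1 := h.den_ne β
  have d2 := h.den_ne β'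
  have e : ι (h.lin2_a β β') / ι (h.den β * h.den β') =
      ι (h.num β) / ι (h.den β) - ι (h.num β') / ι (h.den β') := by
    unfold lin2_a
    rw [map_sub, map_mul, map_mul, map_mul]
    field_simp
  rw [e, ← h1, ← h2]

theorem lin2_norm_a (h : IsResF y ι) (β β' : k) :
    y.v (h.lin2_a β β') = ‖ι (h.den β)‖ * ‖ι (h.den β')‖ * ‖β - β'‖ := by
  have d1 := h.den_ne β
  have d2 := h.den_ne β'
  rw [h.lin2_div β β', ← h.norm, map_mul, norm_div, norm_mul]
  have e1 : ‖ι (h.den β)‖ ≠ 0 := norm_ne_zero_iff.2 d1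
  have e2 : ‖ι (h.den β')‖ ≠ 0 := norm_ne_zero_iff.2 d2
  field_simp

theorem lin2_a_ne (h : IsResF y ι) {β β' : k} (hb : β ≠ β') : y.v (h.lin2_a β β') ≠ 0 := by
  rw [h.lin2_norm_a]
  exact mul_ne_zero (mul_ne_zero (norm_ne_zero_iff.2 (h.den_ne β))
    (norm_ne_zero_iff.2 (h.den_ne β'))) (norm_ne_zero_iff.2 (sub_ne_zero.2 hb))

theorem lin2_ca_ne (h : IsResF y ι) (w : Ber k k[X]) {β β' : k} (hb : β ≠ β') :
    (fibU h w).v (C (h.lin2_a β β')) ≠ 0 := by
  rw [h.fib_C]; exact h.lin2_a_ne hb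

theorem lin2_dd_ne (h : IsResF y ι) (β β' : k) : y.v (h.den β * h.den β') ≠ 0 := by
  rw [y.mul]; exact mul_ne_zero (h.v_den β) (h.v_den β')

theorem lin2_pb (h : IsResF y ι) (w : Ber k k[X]) {β β' : k} (hb : β ≠ β') :
    h.pb 1 0 w (h.bl (β - β')) = (berLS K R[X]).dlS (C (h.lin2_a β β')) (h.lin2_ca_ne w hb) -
      ((berLS K R[X]).dlS (C (h.den β)) (h.lin2_cden w β) +
        (berLS K R[X]).dlS (C (h.den β')) (h.lin2_cden w β')) := by
  rw [h.lin2_div β β', h.bl_eq (h.lin2_a_ne hb) (h.lin2_dd_ne β β'), map_sub]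
  unfold pb
  rw [Mor.pullY_dlS, Mor.pullY_dlS]
  have hne : (fibU h w).v (C (h.den β * h.den β')) ≠ 0 := by
    rw [h.fib_C]; exact h.lin2_dd_ne β β'
  have hne2 : (fibU h w).v (C (h.den β) * C (h.den β')) ≠ 0 := by
    rw [← C_mul]; exact hne
  have e1 : (berLS K R[X]).dlS (z := fibU h w) (C (h.den β * h.den β')) hne =
      (berLS K R[X]).dlS (C (h.den β)) (h.lin2_cden w β) +
        (berLS K R[X]).dlS (C (h.den β')) (h.lin2_cden w β') := by
    rw [lin2_congr C_mul hne hne2, dlS_mul (h.lin2_cden w β) (h.lin2_cden w β') hne2]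
  rw [← e1]
  rfl

theorem lin2_F1_ne (h : IsResF y ι) (w : Ber k k[X]) (β β' : k) (hw : w.v (X - C β) ≠ 0) :
    (fibU h w).v (C (h.den β') * h.lp β) ≠ 0 := by
  rw [(fibU h w).mul]
  exact mul_ne_zero (h.lin2_cden w β') (h.lin2_lp_ne w β hw)

theorem lin2_F1_v (h : IsResF y ι) (w : Ber k k[X]) (β β' : k) :
    (fibU h w).v (C (h.den β') * h.lp β) =
      ‖ι (h.den β)‖ * ‖ι (h.den β')‖ * w.v (X - C β) := by
  rw [(fibU h w).mul, h.fib_C, h.fib_lp, ← h.norm]
  ring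

/-- `dlog |F1| = dlog |X - β| + dlog |d d'|`. -/
theorem lin2_F1 (h : IsResF y ι) (w : Ber k k[X]) (β β' : k) (hw : w.v (X - C β) ≠ 0) :
    (berLS K R[X]).dlS (C (h.den β') * h.lp β) (h.lin2_F1_ne w β β' hw) =
      h.lin β w + ((berLS K R[X]).dlS (C (h.den β)) (h.lin2_cden w β) +
        (berLS K R[X]).dlS (C (h.den β')) (h.lin2_cden w β')) := by
  rw [dlS_mul (h.lin2_cden w β') (h.lin2_lp_ne w β hw) (h.lin2_F1_ne w β β' hw),
    h.lin2_lin w β hw]
  abel

theorem lin2_diff (h : IsResF y ι) (β β' : k) :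
    C (h.den β') * h.lp β - C (h.den β) * h.lp β' = - C (h.lin2_a β β') := by
  unfold lp lin2_a
  simp only [map_sub, map_mul]
  ring

/-- (J1) -/
theorem lin_far (h : IsResF y ι) (w : Ber k k[X]) (β β' : k)
    (hw : w.v (X - C β') < w.v (X - C β)) : h.lin β w = h.pb 1 0 w (h.bl (β - β')) := by
  have hb : β ≠ β' := by rintro rfl; exact lt_irrefl _ hw
  have hw0 : w.v (X - C β) ≠ 0 := ne_of_gt (lt_of_le_of_lt (w.nonneg _) hw)
  have h1 := h.lin2_F1 w β β' hw0
  have h2 : (berLS K R[X]).dlS (C (h.den β') * h.lp β) (h.lin2_F1_ne w β β' hw0) =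
      (berLS K R[X]).dlS (z := fibU h w) (C (h.lin2_a β β')) (h.lin2_ca_ne w hb) := by
    refine (berLS K R[X]).dlS_eq_of_lf _ _ 0 ?_
    have ho : IsOpen {z' : Ber K R[X] | z'.v (C (h.den β) * h.lp β') <
        z'.v (C (h.den β') * h.lp β)} :=
      isOpen_lt (Ber.continuous_v _) (Ber.continuous_v _)
    have hin : fibU h w ∈ {z' : Ber K R[X] | z'.v (C (h.den β) * h.lp β') <
        z'.v (C (h.den β') * h.lp β)} := by
      show (fibU h w).v (C (h.den β) * h.lp β') < (fibU h w).v (C (h.den β') * h.lp β)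
      rw [h.lin2_F1_v, h.lin2_F1_v, mul_comm ‖ι (h.den β')‖]
      exact mul_lt_mul_of_pos_left hw (mul_pos (norm_pos_iff.2 (h.den_ne β))
        (norm_pos_iff.2 (h.den_ne β')))
    filter_upwards [ho.mem_nhds hin] with z' hz'
    have hz'' : z'.v (C (h.den β) * h.lp β') < z'.v (C (h.den β') * h.lp β) := hz'
    show Real.log (z'.v (C (h.den β') * h.lp β)) = 0 + Real.log (z'.v (C (h.lin2_a β β')))
    have e1 : C (h.den β') * h.lp β - (C (h.den β') * h.lp β - C (h.den β) * h.lp β') =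
      C (h.den β) * h.lp β' := by ring
    have e2 := z'.sub_eq (a := C (h.den β') * h.lp β)
      (b := C (h.den β') * h.lp β - C (h.den β) * h.lp β') (by rw [e1]; exact hz'')
    rw [zero_add, ← e2, h.lin2_diff, z'.neg]
  rw [h.lin2_pb w hb, ← h2, h1]
  abel

/-- (J2) -/
theorem lin_near [IsUltrametricDist k] (h : IsResF y ι) (w : Ber k k[X]) (β β' : k)
    (hw : ‖β - β'‖ < w.v (X - C β)) : h.lin β w = h.lin β' w := by
  have hw0 : w.v (X - C β) ≠ 0 := ne_of_gt (lt_of_le_of_lt (norm_nonneg _) hw)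
  have hC : w.v (C (β - β')) = ‖β - β'‖ := w.ext (β - β')
  have hv : w.v (X - C β') = w.v (X - C β) := by
    apply w.sub_eq
    have e : (X - C β) - (X - C β') = - C (β - β') := by rw [C_sub]; ring
    rw [e, w.neg, hC]
    exact hw
  have hw1 : w.v (X - C β') ≠ 0 := by rw [hv]; exact hw0
  have h1 := h.lin2_F1 w β β' hw0
  have h2 := h.lin2_F1 w β' β hw1
  have h3 : (berLS K R[X]).dlS (C (h.den β') * h.lp β) (h.lin2_F1_ne w β β' hw0) =
      (berLS K R[X]).dlS (z := fibU h w) (C (h.den β) * h.lp β') (h.lin2_F1_ne w β' β hw1) := by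
    apply dlS_eq_of_close
    rw [h.lin2_diff, (fibU h w).neg, h.fib_C, h.lin2_norm_a, h.lin2_F1_v]
    exact mul_lt_mul_of_pos_left hw (mul_pos (norm_pos_iff.2 (h.den_ne β))
        (norm_pos_iff.2 (h.den_ne β')))
  rw [h1, h2, add_comm ((berLS K R[X]).dlS (C (h.den β')) _)] at h3
  exact add_right_cancel h3

theorem lin2_key {M : Type} [AddCommGroup M] (AB eB Ae Ag G gB : M)
    (hh : AB + eB + (Ae + 0) = Ag + -G + (Ae + 0) + (gB + eB + (G + 0))) : AB = Ag + gB := by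
  have : AB + (eB + Ae) = (Ag + gB) + (eB + Ae) := by
    calc AB + (eB + Ae) = AB + eB + (Ae + 0) := by abel
      _ = Ag + -G + (Ae + 0) + (gB + eB + (G + 0)) := hh
      _ = (Ag + gB) + (eB + Ae) := by abel
  exact add_right_cancel this

/-- Steinberg relation for two linear functions. -/
theorem lin_steinberg (h : IsResF y ι) (w : Ber k k[X]) (β β' : k) (hb : β ≠ β')
    (h1 : w.v (X - C β) ≠ 0) (h2 : w.v (X - C β') ≠ 0) {p : ℕ}
    (c : (berLS K R[X]).Stalk p 0 (fibU h w)) :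
    (berLS K R[X]).wdS (p + 1) 0 _ (h.lin β w) ((berLS K R[X]).wdS p 0 _ (h.lin β' w) c) =
      (berLS K R[X]).wdS (p + 1) 0 _ (h.lin β w)
        ((berLS K R[X]).wdS p 0 _ (h.pb 1 0 w (h.bl (β - β'))) c) +
      (berLS K R[X]).wdS (p + 1) 0 _ (h.pb 1 0 w (h.bl (β - β')))
        ((berLS K R[X]).wdS p 0 _ (h.lin β' w) c) := by
  have hH : (fibU h w).v (- C (h.lin2_a β β')) ≠ 0 := by
    rw [(fibU h w).neg]; exact h.lin2_ca_ne w hb
  have hst := steinberg (h.lin2_F1_ne w β β' h1) (h.lin2_F1_ne w β' β h2) hH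
    (h.lin2_diff β β') c
  have f1 := h.lin2_F1 w β β' h1
  have f2 := h.lin2_F1 w β' β h2
  have f3 : (berLS K R[X]).dlS (z := fibU h w) (- C (h.lin2_a β β')) hH =
      h.pb 1 0 w (h.bl (β - β')) + ((berLS K R[X]).dlS (C (h.den β)) (h.lin2_cden w β) +
        (berLS K R[X]).dlS (C (h.den β')) (h.lin2_cden w β')) := by
    rw [h.lin2_pb w hb, sub_add_cancel]
    refine (berLS K R[X]).dlS_eq_of_lf _ _ 0 (Filter.Eventually.of_forall fun z' => ?_)
    show Real.log (z'.v (- C (h.lin2_a β β'))) = 0 + Real.log (z'.v (C (h.lin2_a β β')))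
    rw [z'.neg, zero_add]
  rw [add_comm ((berLS K R[X]).dlS (C (h.den β')) _)] at f2
  rw [f1, f2, f3] at hst
  generalize (berLS K R[X]).dlS (C (h.den β)) (h.lin2_cden w β) +
        (berLS K R[X]).dlS (C (h.den β')) (h.lin2_cden w β') = e at hst
  simp only [map_add, LinearMap.add_apply] at hst
  have s1 := (berLS K R[X]).wdS_self e c
  have s2 := (berLS K R[X]).wdS_anti e (h.pb 1 0 w (h.bl (β - β'))) c
  rw [s1, s2] at hst
  exact lin2_key _ _ _ _ _ _ hst

end IsResF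

end Pool.Agent.TD
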