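import Pool.Agent.TD.U.Lin1

/-! Block U: factorisation. -/

open scoped ContDiff Topology
open Polynomial

namespace Pool.Agent.TD

section lin3D

variable {K A : Type} [NormedField K] [CommRing A] [Algebra K A]

/-- `dlog |F|`, extended by zero to functions vanishing at `z`. -/
noncomputable def lin3D (z : Ber K A) (F : A) : (berLS K A).Stalk 1 0 z := by
  classical
  exact if h : z.v F ≠ 0 then (berLS K A).dlS (z := z) F h else 0

theorem lin3_of {z : Ber K A} {F : A} (h : z.v F ≠ 0) :
    lin3D z F = (berLS K A).dlS (z := z) F h := dif_pos h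

theorem lin3_mul {z : Ber K A} {F G : A} (hF : z.v F ≠ 0) (hG : z.v G ≠ 0) :
    lin3D z (F * G) = lin3D z F + lin3D z G := by
  have h : z.v (F * G) ≠ 0 := by
    rw [z.mul]
    exact mul_ne_zero hF hG
  rw [lin3_of hF, lin3_of hG, lin3_of h, dlS_mul hF hG h]

theorem lin3_one (z : Ber K A) : lin3D z 1 = 0 := by
  have h1 : z.v (1 : A) ≠ 0 := by
    rw [z.one]
    exact one_ne_zero
  have h2 := lin3_mul h1 h1
  rw [mul_one] at h2
  exact left_eq_add.1 h2

theorem lin3_mprod {z : Ber K A} (s : Multiset A) (hs : ∀ a ∈ s, z.v a ≠ 0) :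
    z.v s.prod ≠ 0 ∧ lin3D z s.prod = (s.map fun a => lin3D z a).sum := by
  induction s using Multiset.induction_on with
  | empty =>
    refine ⟨?_, ?_⟩
    · rw [Multiset.prod_zero, z.one]
      exact one_ne_zero
    · rw [Multiset.prod_zero, Multiset.map_zero, Multiset.sum_zero, lin3_one]
  | cons a s ih =>
    have ha : z.v a ≠ 0 := hs a (Multiset.mem_cons_self a s)
    obtain ⟨h1, h2⟩ := ih fun b hb => hs b (Multiset.mem_cons_of_mem hb)
    refine ⟨?_, ?_⟩
    · rw [Multiset.prod_cons, z.mul]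
      exact mul_ne_zero ha h1
    · rw [Multiset.prod_cons, Multiset.map_cons, Multiset.sum_cons, lin3_mul ha h1, h2]

theorem lin3_close {z : Ber K A} {F G : A} (hF : z.v F ≠ 0) (h : z.v (F - G) = 0) :
    lin3D z F = lin3D z G := by
  have h1 : z.v (F - G) < z.v F := by
    rw [h]
    exact lt_of_le_of_ne (z.nonneg F) (Ne.symm hF)
  have hG : z.v G ≠ 0 := by
    rw [z.sub_eq h1]
    exact hF
  rw [lin3_of hF, lin3_of hG]
  exact dlS_eq_of_close hF hG h1

end lin3D

variable {K R k : Type} [NormedField K] [CommRing R] [Algebra K R] [NormedField k]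
  {y : Ber K R} {ι : R →+* k}

namespace IsResF

theorem lin3_map_lp (h : IsResF y ι) (β : k) : (h.lp β).map ι = C (ι (h.den β)) * (X - C β) := by
  have h1 : ι (h.num β) = ι (h.den β) * β := by
    have h2 := h.eq_div β
    have h3 := h.den_ne β
    rw [eq_div_iff h3] at h2
    rw [← h2, mul_comm]
  rw [lp, Polynomial.map_sub, Polynomial.map_mul, map_C, map_X, map_C, h1, C_mul]
  ring

theorem lin3_lp_ne (h : IsResF y ι) {β : k} {w : Ber k k[X]} (hβ : w.v (X - C β) ≠ 0) :
    (fibU h w).v (h.lp β) ≠ 0 := by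
  rw [h.fib_lp]
  exact mul_ne_zero (norm_ne_zero_iff.2 (h.den_ne β)) hβ

theorem lin3_Cden_ne (h : IsResF y ι) (β : k) (w : Ber k k[X]) :
    (fibU h w).v (C (h.den β)) ≠ 0 := by
  rw [h.fib_C]
  exact h.v_den β

theorem lin3_lin (h : IsResF y ι) {β : k} {w : Ber k k[X]} (hβ : w.v (X - C β) ≠ 0) :
    h.lin β w = lin3D (fibU h w) (h.lp β) - lin3D (fibU h w) (C (h.den β)) := by
  have h1 := h.lin3_lp_ne hβ
  have h2 := h.lin3_Cden_ne β w
  rw [lin3_of h1, lin3_of h2]
  unfold lin
  exact dif_pos ⟨h1, h2⟩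

theorem lin3_pb_bl (h : IsResF y ι) {c : k} (hc : c ≠ 0) (w : Ber k k[X]) :
    h.pb 1 0 w (h.bl c) = lin3D (fibU h w) (C (h.num c)) - lin3D (fibU h w) (C (h.den c)) := by
  have h1 : (fibU h w).v (C (h.num c)) ≠ 0 := by
    rw [h.fib_C]
    exact h.v_num hc
  have h2 := h.lin3_Cden_ne c w
  have h3 : h.bl c = (berLS K R).dlS (h.num c) (h.v_num hc) -
      (berLS K R).dlS (h.den c) (h.v_den c) := by
    unfold bl
    exact dif_pos hc
  rw [lin3_of h1, lin3_of h2, h3, map_sub]
  unfold pb
  rw [Mor.pullY_dlS, Mor.pullY_dlS]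
  rfl

/-- Factorisation of polynomials (k algebraically closed). -/
theorem dlS_factor [IsAlgClosed k] (h : IsResF y ι) (w : Ber k k[X]) (F : R[X])
    (hF : (fibU h w).v F ≠ 0) : ∃ (c : k) (s : Multiset k), c ≠ 0 ∧
      (∀ β ∈ s, w.v (X - C β) ≠ 0) ∧
      (berLS K R[X]).dlS F hF = h.pb 1 0 w (h.bl c) + (s.map fun β => h.lin β w).sum := by
  have hw : w.v (F.map ι) ≠ 0 := hF
  have hF0 : F.map ι ≠ 0 := by
    intro h0
    rw [h0, w.zero] at hw
    exact hw rfl
  set c : k := (F.map ι).leadingCoeff with hc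
  set s : Multiset k := (F.map ι).roots with hs
  have hc0 : c ≠ 0 := leadingCoeff_ne_zero.2 hF0
  have hfac : F.map ι = C c * (s.map fun β => X - C β).prod :=
    (IsAlgClosed.splits (F.map ι)).eq_prod_roots
  have hroot : ∀ β ∈ s, w.v (X - C β) ≠ 0 := by
    intro β hβ h0
    apply hw
    rw [hfac, w.mul, w.mprod, Multiset.map_map]
    have h1 : (s.map (w.v ∘ fun β => X - C β)).prod = 0 := by
      apply Multiset.prod_eq_zero
      rw [Multiset.mem_map]
      exact ⟨β, hβ, h0⟩
    rw [h1, mul_zero]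
  refine ⟨c, s, hc0, hroot, ?_⟩
  -- the two products
  have hD := lin3_mprod (z := fibU h w) (s.map fun β => (C (h.den β) : R[X])) (by
    intro a ha
    rw [Multiset.mem_map] at ha
    obtain ⟨β, -, rfl⟩ := ha
    exact h.lin3_Cden_ne β w)
  have hL := lin3_mprod (z := fibU h w) (s.map fun β => h.lp β) (by
    intro a ha
    rw [Multiset.mem_map] at ha
    obtain ⟨β, hβ, rfl⟩ := ha
    exact h.lin3_lp_ne (hroot β hβ))
  set D : R[X] := (s.map fun β => (C (h.den β) : R[X])).prod with hDd
  set L : R[X] := (s.map fun β => h.lp β).prod with hLd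
  have hCn : (fibU h w).v (C (h.num c)) ≠ 0 := by
    rw [h.fib_C]
    exact h.v_num hc0
  have hCd := h.lin3_Cden_ne c w
  have hFD : (fibU h w).v (F * D) ≠ 0 := by
    rw [(fibU h w).mul]
    exact mul_ne_zero hF hD.1
  have hG1 : (fibU h w).v (F * D * C (h.den c)) ≠ 0 := by
    rw [(fibU h w).mul]
    exact mul_ne_zero hFD hCd
  have hlinprod : ∀ t : Multiset k, ((t.map fun β => h.lp β).prod).map ι =
      ((t.map fun β => (C (h.den β) : R[X])).prod).map ι * (t.map fun β => X - C β).prod := by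
    intro t
    induction t using Multiset.induction_on with
    | empty => simp
    | cons β t ih =>
      rw [Multiset.map_cons, Multiset.map_cons, Multiset.map_cons, Multiset.prod_cons,
        Multiset.prod_cons, Multiset.prod_cons, Polynomial.map_mul, Polynomial.map_mul, ih,
        h.lin3_map_lp, map_C]
      ring
  have hmap : (F * D * C (h.den c) - C (h.num c) * L).map ι = 0 := by
    have h1 : ι (h.num c) = ι (h.den c) * c := by
      have h2 := h.eq_div c
      rw [eq_div_iff (h.den_ne c)] at h2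
      rw [← h2, mul_comm]
    rw [Polynomial.map_sub, Polynomial.map_mul, Polynomial.map_mul, Polynomial.map_mul, map_C,
      map_C, hLd, hlinprod s, ← hDd, hfac, h1, C_mul]
    ring
  have hclose : (fibU h w).v (F * D * C (h.den c) - C (h.num c) * L) = 0 := by
    rw [fibU_v, hmap, w.zero]
  have key := lin3_close hG1 hclose
  rw [lin3_mul hFD hCd, lin3_mul hF hD.1, lin3_mul hCn hL.1, hD.2, hL.2, Multiset.map_map,
    Multiset.map_map] at key
  have hsum : (s.map fun β => h.lin β w).sum =
      (s.map ((fun a => lin3D (fibU h w) a) ∘ fun β => h.lp β)).sum -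
      (s.map ((fun a => lin3D (fibU h w) a) ∘ fun β => (C (h.den β) : R[X]))).sum := by
    rw [← Multiset.sum_map_sub]
    refine congrArg Multiset.sum (Multiset.map_congr rfl fun β hβ => ?_)
    exact h.lin3_lin (hroot β hβ)
  rw [← lin3_of hF, h.lin3_pb_bl hc0 w, hsum]
  have key2 : lin3D (fibU h w) F = lin3D (fibU h w) (C (h.num c)) +
      (s.map ((fun a => lin3D (fibU h w) a) ∘ fun β => h.lp β)).sum - lin3D (fibU h w) (C (h.den c)) -
      (s.map ((fun a => lin3D (fibU h w) a) ∘ fun β => (C (h.den β) : R[X]))).sum := by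
    rw [← key]
    abel
  rw [key2]
  abel

end IsResF

end Pool.Agent.TD
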