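import Pool.Agent.TD.U.Lin2
import Pool.Agent.TD.U.Lin3

/-! Block U: generation. -/

open scoped ContDiff Topology
open Polynomial

namespace Pool.Agent.TD

variable {K R k : Type} [NormedField K] [CommRing R] [Algebra K R] [NormedField k]
  {y : Ber K R} {ι : R →+* k}

namespace IsResF

namespace Lin4

/-- The generators `dlog |X - β| ∧ u`. -/
noncomputable def gen1 (h : IsResF y ι) (w : Ber k k[X]) (p : ℕ) :
    Set ((berLS K R[X]).Stalk (p + 1) 0 (fibU h w)) :=
  {x | ∃ β, w.v (X - C β) ≠ 0 ∧ ∃ u ∈ (berLS K R).Lp p y,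
    x = (berLS K R[X]).wdS p 0 _ (h.lin β w) (h.pb p 0 w u)}

/-- The space generated by the base germs and the products. -/
noncomputable def GG (h : IsResF y ι) (w : Ber k k[X]) :
    (p : ℕ) → Submodule ℝ ((berLS K R[X]).Stalk p 0 (fibU h w))
  | 0 => ((berLS K R).Lp 0 y).map (h.pb 0 0 w)
  | p + 1 => ((berLS K R).Lp (p + 1) y).map (h.pb (p + 1) 0 w) ⊔ Submodule.span ℝ (gen1 h w p)

variable {h : IsResF y ι} {w : Ber k k[X]}

theorem pb_mem {p : ℕ} {u : (berLS K R).Stalk p 0 y} (hu : u ∈ (berLS K R).Lp p y) :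
    h.pb p 0 w u ∈ GG h w p := by
  cases p with
  | zero => exact Submodule.mem_map_of_mem hu
  | succ p => exact Submodule.mem_sup_left (Submodule.mem_map_of_mem hu)

theorem lin_pb_mem {p : ℕ} {u : (berLS K R).Stalk p 0 y} (hu : u ∈ (berLS K R).Lp p y) {β : k}
    (hβ : w.v (X - C β) ≠ 0) :
    (berLS K R[X]).wdS p 0 _ (h.lin β w) (h.pb p 0 w u) ∈ GG h w (p + 1) :=
  Submodule.mem_sup_right (Submodule.subset_span ⟨β, hβ, u, hu, rfl⟩)

theorem pb_wdS (γ : k) {p : ℕ} (u : (berLS K R).Stalk p 0 y) :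
    (berLS K R[X]).wdS p 0 _ (h.pb 1 0 w (h.bl γ)) (h.pb p 0 w u) =
      h.pb (p + 1) 0 w ((berLS K R).wdS p 0 y (h.bl γ) u) :=
  ((prX K R).pullY_wdS (fibU_over h w) _ _).symm

theorem bl_mem' (γ : k) {p : ℕ} {u : (berLS K R).Stalk p 0 y} (hu : u ∈ (berLS K R).Lp p y) :
    (berLS K R).wdS p 0 y (h.bl γ) u ∈ (berLS K R).Lp (p + 1) y :=
  (berLS K R).wdS_mem (h.bl_mem γ) hu

/-- Stability under the products with the base germs. -/
theorem bl_stable (γ : k) {p : ℕ} {c : (berLS K R[X]).Stalk p 0 (fibU h w)}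
    (hc : c ∈ GG h w p) :
    (berLS K R[X]).wdS p 0 _ (h.pb 1 0 w (h.bl γ)) c ∈ GG h w (p + 1) := by
  cases p with
  | zero =>
    obtain ⟨u, hu, rfl⟩ := hc
    rw [pb_wdS]
    exact pb_mem (bl_mem' γ hu)
  | succ p =>
    obtain ⟨a, ha, b, hb, rfl⟩ := Submodule.mem_sup.1 hc
    clear hc
    rw [map_add]
    refine Submodule.add_mem _ ?_ ?_
    · obtain ⟨u, hu, rfl⟩ := ha
      rw [pb_wdS]
      exact pb_mem (bl_mem' γ hu)
    · induction hb using Submodule.span_induction with
      | mem b hb =>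
        obtain ⟨β, hβ, u, hu, rfl⟩ := hb
        rw [LogSpace.wdS_anti, pb_wdS]
        exact Submodule.neg_mem _ (lin_pb_mem (bl_mem' γ hu) hβ)
      | zero => rw [map_zero]; exact Submodule.zero_mem _
      | add b b' _ _ hb hb' => rw [map_add]; exact Submodule.add_mem _ hb hb'
      | smul r b _ hb => rw [map_smul]; exact Submodule.smul_mem _ r hb

/-- Stability under the products with the linear germs. -/
theorem lin_stable {β : k} (hβ : w.v (X - C β) ≠ 0) {p : ℕ}
    {c : (berLS K R[X]).Stalk p 0 (fibU h w)} (hc : c ∈ GG h w p) :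
    (berLS K R[X]).wdS p 0 _ (h.lin β w) c ∈ GG h w (p + 1) := by
  cases p with
  | zero =>
    obtain ⟨u, hu, rfl⟩ := hc
    exact lin_pb_mem hu hβ
  | succ p =>
    obtain ⟨a, ha, b, hb, rfl⟩ := Submodule.mem_sup.1 hc
    clear hc
    rw [map_add]
    refine Submodule.add_mem _ ?_ ?_
    · obtain ⟨u, hu, rfl⟩ := ha
      exact lin_pb_mem hu hβ
    · induction hb using Submodule.span_induction with
      | mem b hb =>
        obtain ⟨β', hβ', u, hu, rfl⟩ := hb
        by_cases hbb : β = β'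
        · subst hbb
          rw [LogSpace.wdS_self]
          exact Submodule.zero_mem _
        · rw [lin_steinberg h w β β' hbb hβ hβ', LogSpace.wdS_anti _ (h.pb 1 0 w (h.bl (β - β'))),
            pb_wdS]
          exact Submodule.add_mem _ (lin_pb_mem (bl_mem' _ hu) hβ)
            (Submodule.neg_mem _ (lin_pb_mem (bl_mem' _ hu) hβ'))
      | zero => rw [map_zero]; exact Submodule.zero_mem _
      | add b b' _ _ hb hb' => rw [map_add]; exact Submodule.add_mem _ hb hb'
      | smul r b _ hb => rw [map_smul]; exact Submodule.smul_mem _ r hb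

theorem le_GG [IsAlgClosed k] (p : ℕ) : (berLS K R[X]).Lp p (fibU h w) ≤ GG h w p := by
  induction p with
  | zero =>
    rw [LogSpace.Lp_zero, Submodule.span_le]
    rintro x hx
    rw [Set.mem_singleton_iff] at hx
    subst hx
    refine ⟨(berLS K R).oneS y, ?_, (prX K R).pullY_oneS (fibU_over h w)⟩
    show (berLS K R).oneS y ∈ (berLS K R).Lp 0 y
    rw [LogSpace.Lp_zero]
    exact Submodule.subset_span rfl
  | succ p ih =>
    rw [LogSpace.Lp_succ, Submodule.span_le]
    rintro x ⟨F, hF, c, hc, rfl⟩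
    have hc' := ih hc
    obtain ⟨γ, s, -, hs, e⟩ := h.dlS_factor w F hF
    show (berLS K R[X]).wdS p 0 _ ((berLS K R[X]).dlS F hF) c ∈ GG h w (p + 1)
    rw [e, map_add, LinearMap.add_apply]
    refine Submodule.add_mem _ (bl_stable γ hc') ?_
    clear e
    induction s using Multiset.induction_on with
    | empty =>
      rw [Multiset.map_zero, Multiset.sum_zero, map_zero, LinearMap.zero_apply]
      exact Submodule.zero_mem _
    | cons β s ihs =>
      rw [Multiset.map_cons, Multiset.sum_cons, map_add, LinearMap.add_apply]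
      exact Submodule.add_mem _ (lin_stable (hs β (Multiset.mem_cons_self β s)) hc')
        (ihs fun β' hβ' => hs β' (Multiset.mem_cons_of_mem hβ'))

theorem span_form (p : ℕ) {c : (berLS K R[X]).Stalk (p + 1) 0 (fibU h w)}
    (hc : c ∈ Submodule.span ℝ (gen1 h w p)) :
    ∃ (S : Finset k) (v : k → (berLS K R).Stalk p 0 y), (∀ β, v β ∈ (berLS K R).Lp p y) ∧
      (∀ β ∈ S, w.v (X - C β) ≠ 0) ∧
      c = ∑ β ∈ S, (berLS K R[X]).wdS p 0 _ (h.lin β w) (h.pb p 0 w (v β)) := by
  classical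
  induction hc using Submodule.span_induction with
  | mem c hc =>
    obtain ⟨β, hβ, u, hu, rfl⟩ := hc
    refine ⟨{β}, fun _ => u, fun _ => hu, ?_, ?_⟩
    · intro β' hβ'
      rw [Finset.mem_singleton] at hβ'
      subst hβ'
      exact hβ
    · rw [Finset.sum_singleton]
  | zero =>
    exact ⟨∅, fun _ => 0, fun _ => Submodule.zero_mem _, fun β hβ => absurd hβ (Finset.notMem_empty β), by
      rw [Finset.sum_empty]⟩
  | add c c' _ _ h1 h2 =>
    obtain ⟨S, v, hv, hS, rfl⟩ := h1
    obtain ⟨S', v', hv', hS', rfl⟩ := h2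
    refine ⟨S ∪ S', fun β => (if β ∈ S then v β else 0) + (if β ∈ S' then v' β else 0), ?_, ?_, ?_⟩
    · intro β
      refine Submodule.add_mem _ ?_ ?_
      · split_ifs
        · exact hv β
        · exact Submodule.zero_mem _
      · split_ifs
        · exact hv' β
        · exact Submodule.zero_mem _
    · intro β hβ
      rcases Finset.mem_union.1 hβ with hβ | hβ
      · exact hS β hβ
      · exact hS' β hβ
    · have key : ∀ (T : Finset k) (u : k → (berLS K R).Stalk p 0 y), T ⊆ S ∪ S' →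
          ∑ β ∈ T, (berLS K R[X]).wdS p 0 _ (h.lin β w) (h.pb p 0 w (u β)) =
          ∑ β ∈ S ∪ S', (berLS K R[X]).wdS p 0 _ (h.lin β w)
            (h.pb p 0 w (if β ∈ T then u β else 0)) := by
        intro T u hT
        rw [← Finset.sum_subset hT]
        · refine Finset.sum_congr rfl fun β hβ => ?_
          rw [if_pos hβ]
        · intro β _ hβ
          rw [if_neg hβ, map_zero, map_zero]
      rw [key S v Finset.subset_union_left, key S' v' Finset.subset_union_right,
        ← Finset.sum_add_distrib]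
      refine Finset.sum_congr rfl fun β _ => ?_
      rw [map_add, map_add]
  | smul r c _ h1 =>
    obtain ⟨S, v, hv, hS, rfl⟩ := h1
    refine ⟨S, fun β => r • v β, fun β => Submodule.smul_mem _ r (hv β), hS, ?_⟩
    rw [Finset.smul_sum]
    refine Finset.sum_congr rfl fun β _ => ?_
    rw [map_smul, map_smul]

end Lin4

/-- (GEN) Generation of the constant germs of type `(p+1, 0)`. -/
theorem gen [IsAlgClosed k] (h : IsResF y ι) (w : Ber k k[X]) (p : ℕ)
    (c : (berLS K R[X]).Stalk (p + 1) 0 (fibU h w))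
    (hc : c ∈ (berLS K R[X]).Lp (p + 1) (fibU h w)) :
    ∃ (x : (berLS K R).Stalk (p + 1) 0 y) (S : Finset k) (v : k → (berLS K R).Stalk p 0 y),
      x ∈ (berLS K R).Lp (p + 1) y ∧ (∀ β, v β ∈ (berLS K R).Lp p y) ∧
      (∀ β ∈ S, w.v (X - C β) ≠ 0) ∧
      c = h.pb (p + 1) 0 w x + ∑ β ∈ S, (berLS K R[X]).wdS p 0 _ (h.lin β w) (h.pb p 0 w (v β)) := by
  have h1 : c ∈ Lin4.GG h w (p + 1) := Lin4.le_GG (p + 1) hc
  obtain ⟨a, ha, b, hb, rfl⟩ := Submodule.mem_sup.1 h1
  obtain ⟨x, hx, rfl⟩ := ha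
  obtain ⟨S, v, hv, hS, rfl⟩ := Lin4.span_form p hb
  exact ⟨x, S, v, hx, hv, hS, rfl⟩

end IsResF

end Pool.Agent.TD
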