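import Pool.Agent.TD.U.Gpt
import Pool.Agent.TD.U.Kl

/-! Block U: dominant monomials just below the Gauss point. -/

open scoped ContDiff Topology
open Polynomial

namespace Pool.Agent.TD

variable {K A : Type} [NormedField K] [CommRing A] [Algebra K A]

namespace U_MON1

theorem shp01 (F : A[X]) : shp 0 1 F = F := by
  unfold shp
  rw [Polynomial.scaleRoots_one, C_0, add_zero, comp_X]

/-- The Gauss norm of centre zero is the largest monomial. -/
theorem gz01 (y : Ber K A) (ρ : ℝ) (hρ : 0 < ρ) (F : A[X]) :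
    (∀ i, y.v (F.coeff i) * ρ ^ i ≤ gz 0 1 y ρ F) ∧
      ∃ i, y.v (F.coeff i) * ρ ^ i = gz 0 1 y ρ F := by
  have h1 : y.v (1 : A) = 1 := y.one
  obtain ⟨h2, i, _, hi⟩ := gz_eq (0 : A) 1 y (by rw [h1]; exact one_ne_zero) ρ hρ F
  rw [shp01] at h2 hi
  simp only [h1, one_mul, one_pow, div_one] at h2 hi
  refine ⟨fun j => ?_, i, hi⟩
  by_cases hj : j ≤ F.natDegree
  · exact h2 j hj
  · rw [coeff_eq_zero_of_natDegree_lt (not_le.mp hj), y.zero, zero_mul, ← hi]
    exact mul_nonneg (y.nonneg _) (by positivity)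

/-- The dominant term just below `r`. -/
theorem dom_terms (c : ℕ → ℝ) (N : ℕ) (hc : ∀ i, 0 ≤ c i) (hN : ∀ i, N < i → c i = 0) (r m : ℝ)
    (hr : 0 < r) (hm : 0 < m) (hle : ∀ i, c i * r ^ i ≤ m) (hex : ∃ i, c i * r ^ i = m) :
    ∃ (n : ℕ) (ε : ℝ), 0 < ε ∧ ε < r ∧ 0 < c n ∧
      ∀ ρ, r - ε < ρ → ρ < r → ∀ i, i ≠ n → c i * ρ ^ i < c n * ρ ^ n := by
  classical
  set n := Nat.find hex with hn
  have hnm : c n * r ^ n = m := Nat.find_spec hex
  have hmin : ∀ i, i < n → c i * r ^ i < m := fun i hi =>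
    lt_of_le_of_ne (hle i) (Nat.find_min hex hi)
  have hcn : 0 < c n := by
    rcases (hc n).lt_or_eq with h | h
    · exact h
    · rw [← h, zero_mul] at hnm
      exact absurd hnm hm.ne
  have key : ∀ i ∈ Finset.range (N + 1), ∀ᶠ ρ in 𝓝[<] r, i ≠ n → c i * ρ ^ i < c n * ρ ^ n := by
    intro i _
    rcases (hle i).lt_or_eq with h | h
    · have h1 : Filter.Tendsto (fun ρ : ℝ => c i * ρ ^ i) (𝓝 r) (𝓝 (c i * r ^ i)) :=
        Continuous.tendsto (by fun_prop) r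
      have h2 : Filter.Tendsto (fun ρ : ℝ => c n * ρ ^ n) (𝓝 r) (𝓝 (c n * r ^ n)) :=
        Continuous.tendsto (by fun_prop) r
      rw [hnm] at h2
      exact ((h1.eventually_lt h2 h).filter_mono nhdsWithin_le_nhds).mono fun ρ h3 _ => h3
    · by_cases hin : i = n
      · exact Filter.Eventually.of_forall fun ρ h3 => absurd hin h3
      have hni : n < i := by
        rcases lt_or_gt_of_ne hin with h3 | h3
        · exact absurd h (hmin i h3).ne
        · exact h3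
      have hpos : ∀ᶠ ρ in 𝓝[<] r, 0 < ρ :=
        (Ioi_mem_nhds hr : Set.Ioi (0 : ℝ) ∈ 𝓝 r) |> fun h3 => nhdsWithin_le_nhds h3
      filter_upwards [hpos, self_mem_nhdsWithin] with ρ h3 h4 _
      have h4' : ρ < r := h4
      obtain ⟨k, rfl⟩ := Nat.exists_eq_add_of_lt hni
      have h5 : c (n + k + 1) * r ^ (k + 1) = c n := by
        have h6 : c (n + k + 1) * r ^ (k + 1) * r ^ n = c n * r ^ n := by
          rw [hnm, ← h]
          ring
        exact mul_right_cancel₀ (pow_pos hr n).ne' h6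
      have h7 : 0 < c (n + k + 1) := by
        rcases (hc (n + k + 1)).lt_or_eq with h8 | h8
        · exact h8
        · rw [← h8, zero_mul] at h5
          exact absurd h5 hcn.ne
      have h9 : ρ ^ (k + 1) < r ^ (k + 1) := pow_lt_pow_left₀ h4' h3.le (Nat.succ_ne_zero k)
      calc c (n + k + 1) * ρ ^ (n + k + 1) = c (n + k + 1) * ρ ^ (k + 1) * ρ ^ n := by ring
        _ < c (n + k + 1) * r ^ (k + 1) * ρ ^ n :=
            mul_lt_mul_of_pos_right (mul_lt_mul_of_pos_left h9 h7) (pow_pos h3 n)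
        _ = c n * ρ ^ n := by rw [h5]
  have hall : ∀ᶠ ρ in 𝓝[<] r, ∀ i ∈ Finset.range (N + 1), i ≠ n → c i * ρ ^ i < c n * ρ ^ n :=
    (Finset.eventually_all _).2 key
  obtain ⟨l, hl, hl2⟩ := (mem_nhdsLT_iff_exists_Ioo_subset).1 hall
  have hl' : l < r := hl
  refine ⟨n, min (r - l) (r / 2), lt_min (by linarith) (by linarith),
    (min_le_right _ _).trans_lt (by linarith), hcn, ?_⟩
  intro ρ h1 h2 i hi
  have h3 : l < ρ := by
    have := min_le_left (r - l) (r / 2)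
    linarith
  have h4 : 0 < ρ := by
    have := min_le_right (r - l) (r / 2)
    linarith
  by_cases hiN : i ≤ N
  · exact hl2 ⟨h3, h2⟩ i (Finset.mem_range.2 (Nat.lt_succ_of_le hiN)) hi
  · rw [hN i (not_le.mp hiN), zero_mul]
    positivity

end U_MON1

/-- A function has a dominant monomial at the Gauss points of radius slightly less than `r`. -/
theorem dom_mono (y : Ber K A) (r : ℝ) (hr : 0 < r) (z : Ber K A[X]) (hz : IsGz 0 1 y r z)
    (F : A[X]) (hF : z.v F ≠ 0) : ∃ (a : A) (n : ℕ) (ε : ℝ), 0 < ε ∧ ε < r ∧ y.v a ≠ 0 ∧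
      ∀ ρ', r - ε < ρ' → ρ' < r → ∀ z', IsGz 0 1 y ρ' z' → z'.v F ≠ 0 ∧
        z'.v (F - C a * X ^ n) < z'.v F := by
  obtain ⟨h1, h2⟩ := U_MON1.gz01 y r hr F
  have hm : 0 < gz 0 1 y r F := by
    rw [← hz F]
    exact lt_of_le_of_ne (z.nonneg F) (Ne.symm hF)
  obtain ⟨n, ε, hε, hεr, hcn, h3⟩ := U_MON1.dom_terms (fun i => y.v (F.coeff i)) F.natDegree
    (fun i => y.nonneg _) (fun i hi => by
      show y.v (F.coeff i) = 0
      rw [coeff_eq_zero_of_natDegree_lt hi, y.zero]) r _ hr hm h1 h2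
  refine ⟨F.coeff n, n, ε, hε, hεr, hcn.ne', ?_⟩
  intro ρ' h4 h5 z' hz'
  have hρ : 0 < ρ' := by linarith
  have h6 : y.v (F.coeff n) * ρ' ^ n ≤ z'.v F := by
    rw [hz' F]
    exact (U_MON1.gz01 y ρ' hρ F).1 n
  have h7 : 0 < y.v (F.coeff n) * ρ' ^ n := mul_pos hcn (pow_pos hρ n)
  refine ⟨(h7.trans_le h6).ne', ?_⟩
  obtain ⟨-, i, hi⟩ := U_MON1.gz01 y ρ' hρ (F - C (F.coeff n) * X ^ n)
  rw [hz' (F - C (F.coeff n) * X ^ n), ← hi, coeff_sub, coeff_C_mul, coeff_X_pow]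
  by_cases hin : i = n
  · rw [if_pos hin, hin, mul_one, sub_self, y.zero, zero_mul]
    exact h7.trans_le h6
  · rw [if_neg hin, mul_zero, sub_zero]
    exact (h3 ρ' h4 h5 i hin).trans_le h6

end Pool.Agent.TD
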