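import Pool.Agent.TD.U.Res1

/-! Block U: the integral closure in an algebraically closed field. -/

open scoped ContDiff Topology
open Polynomial

namespace Pool.Agent.TD

/-- The integral closure of `A` in an algebraically closed field has the splitting property. -/
theorem monSplits_intCl (A Ω : Type) [CommRing A] [Field Ω] [IsAlgClosed Ω] [Algebra A Ω] :
    MonSplits (integralClosure A Ω) := by
  intro f hf
  have hmon : (f.map (algebraMap (integralClosure A Ω) Ω)).Monic := hf.map _
  obtain ⟨s, hs⟩ := splits_iff_exists_multiset.1
    (IsAlgClosed.splits (f.map (algebraMap (integralClosure A Ω) Ω)))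
  rw [hmon.leadingCoeff, C_1, one_mul] at hs
  have hint : ∀ r ∈ s, r ∈ integralClosure A Ω := by
    intro r hr
    have h0 : (f.map (algebraMap (integralClosure A Ω) Ω)).eval r = 0 := by
      rw [hs, eval_multiset_prod]
      apply Multiset.prod_eq_zero
      rw [Multiset.map_map]
      exact Multiset.mem_map.2 ⟨r, hr, by simp⟩
    have h1 : IsIntegral (integralClosure A Ω) r := ⟨f, hf, by rw [← eval_map]; exact h0⟩
    exact isIntegral_trans (R := A) (A := integralClosure A Ω) r h1
  refine ⟨s.attach.map fun r => ⟨r.1, hint r.1 r.2⟩, ?_⟩
  have hinj : Function.Injective (algebraMap (integralClosure A Ω) Ω) := Subtype.val_injective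
  apply Polynomial.map_injective _ hinj
  rw [hs, Polynomial.map_multiset_prod, Multiset.map_map, Multiset.map_map]
  congr 1
  conv_lhs => rw [← Multiset.attach_map_val s, Multiset.map_map]
  apply Multiset.map_congr rfl
  intro r _
  simp only [Function.comp_apply, Polynomial.map_sub, map_X, map_C]
  rfl

/-- The integral closure `R` of the domain `A` in an algebraic closure of its fraction field. -/
theorem exists_intCl (K A : Type) [NormedField K] [CommRing A] [IsDomain A] [Algebra K A] :
    ∃ (R : Type) (_ : CommRing R) (_ : Algebra K R) (f : A →ₐ[K] R), Function.Injective f ∧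
      f.toRingHom.IsIntegral ∧ MonSplits R := by
  let Ω := AlgebraicClosure (FractionRing A)
  let R := integralClosure A Ω
  let _ : Algebra K R := ((algebraMap A R).comp (algebraMap K A)).toAlgebra
  let f : A →ₐ[K] R := { algebraMap A R with commutes' := fun c => rfl }
  refine ⟨R, inferInstance, inferInstance, f, ?_, ?_, monSplits_intCl A Ω⟩
  · intro a b hab
    have h1 : algebraMap A R a = algebraMap A R b := hab
    have h2 : algebraMap A Ω a = algebraMap A Ω b := congrArg (algebraMap R Ω) h1
    rw [IsScalarTower.algebraMap_apply A (FractionRing A) Ω,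
      IsScalarTower.algebraMap_apply A (FractionRing A) Ω] at h2
    exact IsFractionRing.injective A (FractionRing A)
      ((algebraMap (FractionRing A) Ω).injective h2)
  · intro x
    exact integralClosure.isIntegral x

/-- The same for the polynomial rings. -/
theorem mapX_int {K A R : Type} [NormedField K] [CommRing A] [Algebra K A] [CommRing R]
    [Algebra K R] (f : A →ₐ[K] R) (h1 : Function.Injective f) (h2 : f.toRingHom.IsIntegral) :
    Function.Injective (Polynomial.mapAlgHom f) ∧
      (Polynomial.mapAlgHom f).toRingHom.IsIntegral := by
  constructor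
  · rw [coe_mapAlgHom]
    exact Polynomial.map_injective _ h1
  · let _ : Algebra A R := f.toRingHom.toAlgebra
    let _ : Algebra A[X] R[X] := Polynomial.algebra A R
    intro p
    have h3 : IsIntegral A[X] p := by
      rw [Polynomial.isIntegral_iff_isIntegral_coeff]
      intro n
      exact h2 (p.coeff n)
    exact h3

end Pool.Agent.TD
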