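import Pool.Agent.TD.U.Gpt2
import Pool.Agent.TD.U.Ful
import Pool.Agent.TD.U.Kl

/-! Block U1: independence at Gauss points. -/

open scoped ContDiff Topology
open Polynomial

namespace Pool.Agent.TD

variable {K R : Type} [NormedField K] [CommRing R] [Algebra K R]

namespace U1

theorem shp_C (b d a : R) : shp b d (C a) = C a := by
  rw [shp]
  simp

theorem natDegree_lin (b d : R) (hd : d ≠ 0) : (C d * X - C b : R[X]).natDegree = 1 := by
  rw [natDegree_sub_C, natDegree_C_mul_X d hd]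

theorem shp_lin (b d : R) (hd : d ≠ 0) : shp b d (C d * X - C b) = C d * X := by
  have h1 : (C d * X - C b : R[X]).scaleRoots d = C d * X - C (b * d) := by
    ext i
    rw [coeff_scaleRoots, natDegree_lin b d hd]
    rcases i with _ | _ | i
    · simp
    · simp
    · simp
  rw [shp, h1]
  simp only [sub_comp, mul_comp, C_comp, X_comp, C_mul]
  ring

/-- The vector span of a product with an interval. -/
theorem mem_vectorSpan_prod {E : Type} [AddCommGroup E] [Module ℝ E] {σ : Set E} {I : Set ℝ}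
    (hσ : σ.Nonempty) {t₀ t₁ : ℝ} (h0 : t₀ ∈ I) (h1 : t₁ ∈ I) (hne : t₀ ≠ t₁) {s : E}
    (hs : s ∈ vectorSpan ℝ σ) (t : ℝ) : (s, t) ∈ vectorSpan ℝ (σ ×ˢ I) := by
  have e1 : ((s, 0) : E × ℝ) ∈ vectorSpan ℝ (σ ×ˢ I) := by
    have h2 : vectorSpan ℝ σ ≤ (vectorSpan ℝ (σ ×ˢ I)).comap (LinearMap.inl ℝ E ℝ) := by
      rw [vectorSpan, Submodule.span_le]
      rintro _ ⟨a, ha, c, hc, rfl⟩
      show (LinearMap.inl ℝ E ℝ) (a - c) ∈ vectorSpan ℝ (σ ×ˢ I)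
      have h3 := vsub_mem_vectorSpan ℝ (s := σ ×ˢ I) (p₁ := (a, t₀)) (p₂ := (c, t₀))
        ⟨ha, h0⟩ ⟨hc, h0⟩
      have h4 : ((a, t₀) : E × ℝ) -ᵥ (c, t₀) = (LinearMap.inl ℝ E ℝ) (a - c) := by
        ext
        · rfl
        · show t₀ - t₀ = 0
          ring
      rwa [h4] at h3
    exact h2 hs
  have e2 : ((0, t) : E × ℝ) ∈ vectorSpan ℝ (σ ×ˢ I) := by
    obtain ⟨a, ha⟩ := hσ
    have h3 := vsub_mem_vectorSpan ℝ (s := σ ×ˢ I) (p₁ := (a, t₁)) (p₂ := (a, t₀))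
        ⟨ha, h1⟩ ⟨ha, h0⟩
    have h4 := Submodule.smul_mem _ (t / (t₁ - t₀)) h3
    have h5 : (t / (t₁ - t₀)) • (((a, t₁) : E × ℝ) -ᵥ (a, t₀)) = (0, t) := by
      have h6 : t₁ - t₀ ≠ 0 := sub_ne_zero.mpr (Ne.symm hne)
      ext
      · show (t / (t₁ - t₀)) • (a - a) = 0
        rw [sub_self, smul_zero]
      · show (t / (t₁ - t₀)) * (t₁ - t₀) = t
        field_simp
    rwa [h5] at h4
  have e3 := Submodule.add_mem _ e1 e2
  have e4 : ((s, 0) : E × ℝ) + (0, t) = (s, t) := by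
    ext
    · show s + 0 = s
      rw [add_zero]
    · show 0 + t = t
      rw [zero_add]
  rwa [e4] at e3

theorem isSF_congr {Φ : Type} {p : ℕ} {s : Finset Φ} {θ : Raw Φ p 0} (h : IsSF s θ)
    (hc : IsCst θ) {x x' : Φ → ℝ} {w w' : Fin 0 → Φ → ℝ} {v v' : Fin p → Φ → ℝ}
    (hv : ∀ j, ∀ a ∈ s, v j a = v' j a) : θ x w v = θ x' w' v' := by
  rw [hc x x' w v]
  obtain ⟨α, -, hα⟩ := h
  rw [hα, hα]
  have h1 : (fun j => rs s (v j)) = fun j => rs s (v' j) := by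
    funext j a
    exact hv j a a.2
  have h2 : (fun i => rs s (w i)) = fun i => rs s (w' i) := by
    funext i
    exact i.elim0
  rw [h1, h2]

/-- The term of degree `i` in the value of `f` at a Gauss point. -/
noncomputable def trm (b d : R) (f : R[X]) (i : ℕ) (x : Ber K R) (r : ℝ) : ℝ :=
  x.v ((shp b d f).coeff i) * (x.v d * r) ^ i / x.v d ^ f.natDegree

theorem continuousAt_trm (b d : R) (f : R[X]) (i : ℕ) (y : Ber K R) (hd : y.v d ≠ 0) (ρ : ℝ) :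
    ContinuousAt (fun q : Ber K R × ℝ => trm b d f i q.1 q.2) (y, ρ) := by
  unfold trm
  have h1 : ∀ a : R, Continuous (fun q : Ber K R × ℝ => q.1.v a) := fun a =>
    (Ber.continuous_v a).comp continuous_fst
  apply ContinuousAt.div
  · exact ((h1 _).mul (((h1 d).mul continuous_snd).pow i)).continuousAt
  · exact ((h1 d).pow _).continuousAt
  · exact pow_ne_zero _ hd

open Classical in
/-- The exponents with a coefficient which does not vanish at `y`. -/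
noncomputable def Kf (b d : R) (y : Ber K R) (f : R[X]) : Finset ℕ :=
  (Finset.range (f.natDegree + 1)).filter (fun i => y.v ((shp b d f).coeff i) ≠ 0)

theorem mem_Kf {b d : R} {y : Ber K R} {f : R[X]} {i : ℕ} :
    i ∈ Kf b d y f ↔ i ≤ f.natDegree ∧ y.v ((shp b d f).coeff i) ≠ 0 := by
  classical
  rw [Kf, Finset.mem_filter, Finset.mem_range, Nat.lt_succ_iff]

theorem log_trm {b d : R} {f : R[X]} {i : ℕ} {x : Ber K R} (hd : x.v d ≠ 0)
    (h : x.v ((shp b d f).coeff i) ≠ 0) (t : ℝ) :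
    Real.log (trm b d f i x (Real.exp t)) = Real.log (x.v ((shp b d f).coeff i)) +
      i * (Real.log (x.v d) + t) - f.natDegree * Real.log (x.v d) := by
  have h1 : x.v d * Real.exp t ≠ 0 := mul_ne_zero hd (Real.exp_ne_zero t)
  rw [trm, Real.log_div (mul_ne_zero h (pow_ne_zero _ h1)) (pow_ne_zero _ hd),
    Real.log_mul h (pow_ne_zero _ h1), Real.log_pow, Real.log_pow, Real.log_mul hd
    (Real.exp_ne_zero t), Real.log_exp]

theorem trm_pos {b d : R} {f : R[X]} {i : ℕ} {x : Ber K R} (hd : x.v d ≠ 0)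
    (h : x.v ((shp b d f).coeff i) ≠ 0) (t : ℝ) : 0 < trm b d f i x (Real.exp t) := by
  have h1 : 0 < x.v d := lt_of_le_of_ne (x.nonneg _) (Ne.symm hd)
  have h2 : 0 < x.v ((shp b d f).coeff i) := lt_of_le_of_ne (x.nonneg _) (Ne.symm h)
  have h3 := Real.exp_pos t
  rw [trm]
  positivity

theorem key {P : ℕ} (b d : R) (y : Ber K R) (hd : y.v d ≠ 0) (ρ : ℝ) (hρ : 0 < ρ)
    (z : Ber K R[X]) (hz : IsGz b d y ρ z) (θ : Raw R[X] P 0) (hθ : IsCst θ)
    (h : (berLS K R[X]).Van z θ) (s₀ : Finset R) (hs₀ : ∀ a ∈ s₀, y.v a ≠ 0) :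
    ∃ u : Finset R, s₀ ⊆ u ∧ ∃ W ∈ 𝓝 y, (∀ a ∈ u, W ⊆ (berLS K R).dom a) ∧
      ∀ σ : Set (u → ℝ), Convex ℝ σ → σ.Nonempty → σ ⊆ (berLS K R).trop u '' W →
        ∀ (v : Fin P → R → ℝ) (τ : Fin P → ℝ), (∀ j, rs u (v j) ∈ vectorSpan ℝ σ) →
          ∃ V : Fin P → R[X] → ℝ, (∀ j, ∀ a ∈ s₀, V j (C a) = v j a) ∧
            (∀ j, V j (C d * X - C b) = v j d + τ j) ∧ ∀ x w, θ x w V = 0 := by
  classical
  have hd0 : d ≠ 0 := by
    rintro rfl
    exact hd y.zero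
  obtain ⟨u, -, V, hV, hVd, hv⟩ := h
  let u₁ : Finset R[X] := u ∪ (s₀.image C ∪ {C d * X - C b})
  have hu₁ : u ⊆ u₁ := Finset.subset_union_left
  have hC₁ : ∀ a ∈ s₀, C a ∈ u₁ := fun a ha => Finset.mem_union_right _
    (Finset.mem_union_left _ (Finset.mem_image_of_mem _ ha))
  have hF₁ : C d * X - C b ∈ u₁ := Finset.mem_union_right _
    (Finset.mem_union_right _ (Finset.mem_singleton_self _))
  have hz₁ : ∀ f ∈ u₁, 0 < z.v f := by
    intro f hf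
    refine lt_of_le_of_ne (z.nonneg f) (Ne.symm ?_)
    rcases Finset.mem_union.mp hf with hf | hf
    · exact hVd f hf (mem_of_mem_nhds hV)
    · rcases Finset.mem_union.mp hf with hf | hf
      · obtain ⟨a, ha, rfl⟩ := Finset.mem_image.mp hf
        rw [gz_C b d y hd ρ hρ z hz]
        exact hs₀ a ha
      · rw [Finset.mem_singleton.mp hf, gz_lin b d y hd ρ hρ z hz]
        exact mul_ne_zero hd hρ.ne'
  -- the neighbourhood of `z`
  let V₂ : Set (Ber K R[X]) := V ∩ {z' | ∀ f ∈ u₁, z.v f / 2 < z'.v f}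
  have hV₂ : V₂ ∈ 𝓝 z := by
    refine Filter.inter_mem hV ?_
    have h1 : ∀ᶠ z' in 𝓝 z, ∀ f ∈ u₁, z.v f / 2 < z'.v f := by
      rw [Filter.eventually_all_finset]
      intro f hf
      have h2 : IsOpen {z' : Ber K R[X] | z.v f / 2 < z'.v f} :=
        isOpen_lt continuous_const (Ber.continuous_v f)
      refine h2.mem_nhds ?_
      show z.v f / 2 < z.v f
      linarith [hz₁ f hf]
    exact h1
  have hvan : VanOn u₁ θ ((berLS K R[X]).trop u₁ '' V₂) := by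
    refine VanOn.refine hu₁ (P := (berLS K R[X]).trop u '' V) ?_ hv
    rintro _ ⟨_, ⟨z', hz', rfl⟩, rfl⟩
    exact ⟨z', hz'.1, ((berLS K R[X]).rst_trop hu₁ z').symm⟩
  obtain ⟨W, hW, ε, hε, hερ, hWε⟩ := gz_nhds b d y hd ρ hρ z hz V₂ hV₂
  -- the terms which are small
  have hsm : ∀ᶠ q in 𝓝 ((y, ρ) : Ber K R × ℝ), ∀ f ∈ u₁, ∀ i ∈ Finset.range (f.natDegree + 1),
      i ∉ Kf b d y f → trm b d f i q.1 q.2 < z.v f / 2 := by
    rw [Filter.eventually_all_finset]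
    intro f hf
    rw [Filter.eventually_all_finset]
    intro i hi
    by_cases hiK : i ∈ Kf b d y f
    · exact Filter.Eventually.of_forall fun q h => absurd hiK h
    · have h1 : trm b d f i y ρ < z.v f / 2 := by
        have h2 : y.v ((shp b d f).coeff i) = 0 := by
          by_contra h3
          exact hiK (mem_Kf.mpr ⟨Nat.lt_succ_iff.mp (Finset.mem_range.mp hi), h3⟩)
        rw [trm, h2, zero_mul, zero_div]
        linarith [hz₁ f hf]
      have h2 := (continuousAt_trm b d f i y hd ρ).eventually (Iio_mem_nhds h1)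
      exact h2.mono fun q hq _ => hq
  rw [nhds_prod_eq, Filter.eventually_prod_iff] at hsm
  obtain ⟨pa, hpa, pb, hpb, hsm⟩ := hsm
  rw [Metric.eventually_nhds_iff] at hpb
  obtain ⟨ε₁, hε₁, hpb⟩ := hpb
  -- the functions on the base
  let u₂ : Finset R := insert d s₀ ∪
    u₁.biUnion (fun f => (Kf b d y f).image (fun i => (shp b d f).coeff i))
  have hd₂ : d ∈ u₂ := Finset.mem_union_left _ (Finset.mem_insert_self _ _)
  have hs₂ : s₀ ⊆ u₂ := fun a ha => Finset.mem_union_left _ (Finset.mem_insert_of_mem ha)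
  have hg₂ : ∀ f ∈ u₁, ∀ i ∈ Kf b d y f, (shp b d f).coeff i ∈ u₂ := by
    intro f hf i hi
    exact Finset.mem_union_right _ (Finset.mem_biUnion.mpr ⟨f, hf,
      Finset.mem_image_of_mem (fun i => (shp b d f).coeff i) hi⟩)
  have hy₂ : ∀ a ∈ u₂, y.v a ≠ 0 := by
    intro a ha
    rcases Finset.mem_union.mp ha with ha | ha
    · rcases Finset.mem_insert.mp ha with rfl | ha
      · exact hd
      · exact hs₀ a ha
    · obtain ⟨f, hf, ha⟩ := Finset.mem_biUnion.mp ha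
      obtain ⟨i, hi, rfl⟩ := Finset.mem_image.mp ha
      exact (mem_Kf.mp hi).2
  have hW₂ : ∀ᶠ x in 𝓝 y, ∀ a ∈ u₂, x ∈ (berLS K R).dom a := by
    rw [Filter.eventually_all_finset]
    exact fun a ha => ((berLS K R).isOpen_dom a).mem_nhds (hy₂ a ha)
  let W₃ : Set (Ber K R) := W ∩ ({x | pa x} ∩ {x | ∀ a ∈ u₂, x ∈ (berLS K R).dom a})
  have hW₃ : W₃ ∈ 𝓝 y := Filter.inter_mem hW (Filter.inter_mem hpa hW₂)
  refine ⟨u₂, hs₂, W₃, hW₃, fun a ha x hx => hx.2.2 a ha, ?_⟩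
  intro σ hσ hσne hσW v τ hvσ
  -- the interval
  let ε₂ : ℝ := min ε ε₁
  have hε₂ : 0 < ε₂ := lt_min hε hε₁
  let I : Set ℝ := {t | |Real.exp t - ρ| < ε₂}
  have hI : Convex ℝ I := by
    apply Set.OrdConnected.convex
    constructor
    intro a ha c hc t ht
    have h1 := Real.exp_le_exp.mpr ht.1
    have h2 := Real.exp_le_exp.mpr ht.2
    have h3 := abs_lt.mp (show |Real.exp a - ρ| < ε₂ from ha)
    have h4 := abs_lt.mp (show |Real.exp c - ρ| < ε₂ from hc)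
    show |Real.exp t - ρ| < ε₂
    rw [abs_lt]
    constructor <;> linarith [h3.1, h3.2, h4.1, h4.2]
  have hI0 : Real.log ρ ∈ I := by
    show |Real.exp (Real.log ρ) - ρ| < ε₂
    rw [Real.exp_log hρ, sub_self, abs_zero]
    exact hε₂
  have hI1 : Real.log (ρ + ε₂ / 2) ∈ I := by
    show |Real.exp (Real.log (ρ + ε₂ / 2)) - ρ| < ε₂
    rw [Real.exp_log (by linarith), add_sub_cancel_left, abs_of_pos (by linarith)]
    linarith
  have hI2 : Real.log ρ ≠ Real.log (ρ + ε₂ / 2) := by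
    intro h1
    have h2 := congrArg Real.exp h1
    rw [Real.exp_log hρ, Real.exp_log (by linarith)] at h2
    linarith
  -- the affine functions
  have hne : ∀ f : u₁, Nonempty (Kf b d y (f : R[X])) := by
    intro f
    obtain ⟨-, i, hi, h1⟩ := gz_eq b d y hd ρ hρ (f : R[X])
    refine ⟨⟨i, mem_Kf.mpr ⟨hi, ?_⟩⟩⟩
    intro h2
    have h3 := hz₁ f f.2
    rw [hz, ← h1, h2, zero_mul, zero_div] at h3
    exact lt_irrefl _ h3
  let l : ∀ f : u₁, Kf b d y (f : R[X]) → ((u₂ → ℝ) × ℝ) →ₗ[ℝ] ℝ := fun f i =>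
    (LinearMap.proj (⟨(shp b d (f : R[X])).coeff i, hg₂ f f.2 i i.2⟩ : u₂)).comp
        (LinearMap.fst ℝ (u₂ → ℝ) ℝ) +
      ((i : ℕ) : ℝ) • ((LinearMap.proj (⟨d, hd₂⟩ : u₂)).comp (LinearMap.fst ℝ (u₂ → ℝ) ℝ) +
        LinearMap.snd ℝ (u₂ → ℝ) ℝ)
  have hl : ∀ (f : u₁) (i : Kf b d y (f : R[X])) (s : u₂ → ℝ) (t : ℝ), l f i (s, t) =
      s ⟨(shp b d (f : R[X])).coeff i, hg₂ f f.2 i i.2⟩ + ((i : ℕ) : ℝ) * (s ⟨d, hd₂⟩ + t) :=
    fun _ _ _ _ => rfl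
  obtain ⟨Cx, hC1, ⟨q₀, hq₀⟩, hC3, hC4, m, hm⟩ := exists_max_affine (σ := σ ×ˢ I)
    (hσ.prod hI) (hσne.prod ⟨_, hI0⟩) (fun f i => (l f i).toAffineMap)
  let Λ : ((u₂ → ℝ) × ℝ) →ₗ[ℝ] (u₁ → ℝ) := LinearMap.pi fun f =>
    l f (m f) - (((f : R[X]).natDegree : ℕ) : ℝ) •
      ((LinearMap.proj (⟨d, hd₂⟩ : u₂)).comp (LinearMap.fst ℝ (u₂ → ℝ) ℝ))
  have hΛ : ∀ (f : u₁) (s : u₂ → ℝ) (t : ℝ), Λ (s, t) f =
      s ⟨(shp b d (f : R[X])).coeff (m f), hg₂ f f.2 (m f) (m f).2⟩ +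
        (((m f : ℕ)) : ℝ) * (s ⟨d, hd₂⟩ + t) -
        (((f : R[X]).natDegree : ℕ) : ℝ) * s ⟨d, hd₂⟩ := fun _ _ _ => rfl
  have hA : ∀ q ∈ Cx, Λ q ∈ (berLS K R[X]).trop u₁ '' V₂ := by
    rintro ⟨s, t⟩ hq
    obtain ⟨hs, ht⟩ := hC3 hq
    obtain ⟨x, hx, hxs⟩ := hσW hs
    have hs' : ∀ a (ha : a ∈ u₂), s ⟨a, ha⟩ = Real.log (x.v a) := by
      intro a ha
      rw [show s = (berLS K R).trop u₂ x from hxs.symm]
      rfl
    have ht' : |Real.exp t - ρ| < ε₂ := ht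
    have htε : |Real.exp t - ρ| < ε := lt_of_lt_of_le ht' (min_le_left _ _)
    have htε₁ : dist (Real.exp t) ρ < ε₁ := by
      rw [Real.dist_eq]
      exact lt_of_lt_of_le ht' (min_le_right _ _)
    obtain ⟨hxd, hxW⟩ := hWε x hx.1
    obtain ⟨z', hz'⟩ := exists_gz b d x hxd (Real.exp t) (Real.exp_pos t)
    have hzV : z' ∈ V₂ := hxW _ htε z' hz'
    refine ⟨z', hzV, ?_⟩
    funext f
    rw [hΛ, hs', hs']
    show Real.log (z'.v f) = _
    obtain ⟨h1, i, hi, h2⟩ := gz_eq b d x hxd (Real.exp t) (Real.exp_pos t) (f : R[X])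
    have hM : z.v f / 2 < z'.v f := hzV.2 f f.2
    rw [← hz' f] at h1 h2
    have hiK : i ∈ Kf b d y (f : R[X]) := by
      by_contra hiK
      have h3 := hsm hx.2.1 (hpb htε₁) f f.2 i (Finset.mem_range.mpr (Nat.lt_succ_iff.mpr hi)) hiK
      have h4 : trm b d (f : R[X]) i x (Real.exp t) = z'.v f := h2
      rw [h4] at h3
      linarith
    have hgi : ∀ j ∈ Kf b d y (f : R[X]), x.v ((shp b d (f : R[X])).coeff j) ≠ 0 :=
      fun j hj => hx.2.2 _ (hg₂ f f.2 j hj)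
    have h5 := hm (s, t) hq f ⟨i, hiK⟩
    have h6 : l f ⟨i, hiK⟩ (s, t) ≤ l f (m f) (s, t) := h5
    rw [hl, hl, hs', hs', hs'] at h6
    have h7 := log_trm (b := b) (f := (f : R[X])) hxd (hgi i hiK) t
    have h8 := log_trm (b := b) (f := (f : R[X])) hxd (hgi (m f) (m f).2) t
    have h9 : trm b d (f : R[X]) i x (Real.exp t) = z'.v f := h2
    have h10 : trm b d (f : R[X]) (m f) x (Real.exp t) ≤ z'.v f :=
      h1 (m f) (mem_Kf.mp (m f).2).1
    have h11 := Real.log_le_log (trm_pos (b := b) (f := (f : R[X])) hxd (hgi (m f) (m f).2) t) h10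
    rw [h9] at h7
    rw [h8] at h11
    apply le_antisymm
    · rw [h7]
      linarith
    · exact h11
  -- the vectors
  have hvec : ∀ j, ((rs u₂ (v j), τ j) : (u₂ → ℝ) × ℝ) ∈ vectorSpan ℝ Cx := by
    intro j
    rw [hC4]
    exact mem_vectorSpan_prod hσne hI0 hI1 hI2 (hvσ j) (τ j)
  choose V' hV' using fun j => rs_surjective u₁ (Λ (rs u₂ (v j), τ j))
  have hco : ∀ j (f : R[X]) (hf : f ∈ u₁), V' j f =
      v j ((shp b d f).coeff (m ⟨f, hf⟩)) + ((m ⟨f, hf⟩ : ℕ) : ℝ) * (v j d + τ j) -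
        ((f.natDegree : ℕ) : ℝ) * v j d := by
    intro j f hf
    have h1 := congrFun (hV' j) ⟨f, hf⟩
    rw [hΛ] at h1
    exact h1
  refine ⟨V', ?_, ?_, ?_⟩
  · intro j a ha
    rw [hco j _ (hC₁ a ha)]
    have h1 := (mem_Kf.mp (m ⟨C a, hC₁ a ha⟩).2).1
    rw [natDegree_C, Nat.le_zero] at h1
    rw [h1, shp_C, coeff_C_zero, natDegree_C]
    simp
  · intro j
    rw [hco j _ hF₁]
    obtain ⟨h1, h2⟩ := mem_Kf.mp (m ⟨C d * X - C b, hF₁⟩).2
    rw [natDegree_lin b d hd0] at h1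
    have h3 : ((m ⟨C d * X - C b, hF₁⟩ : ℕ)) = 1 := by
      rcases Nat.le_one_iff_eq_zero_or_eq_one.mp h1 with h3 | h3
      · exfalso
        rw [h3, shp_lin b d hd0] at h2
        apply h2
        simp [y.zero]
      · exact h3
    rw [h3, shp_lin b d hd0, natDegree_lin b d hd0]
    simp
  · intro x w
    obtain ⟨x₁, hx₁⟩ := rs_surjective u₁ (Λ q₀)
    rw [hθ x x₁]
    apply hvan (Λ '' Cx) (hC1.linear_image Λ)
    · rintro _ ⟨q, hq, rfl⟩
      exact hA q hq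
    · rw [hx₁]
      exact ⟨q₀, hq₀, rfl⟩
    · intro i
      exact i.elim0
    · intro j
      rw [hV' j]
      exact vectorSpan_map_mem Λ (hvec j)

end U1

/-- Base forms are determined by their pull back to a Gauss point. -/
theorem gz_inj {p : ℕ} (b d : R) (y : Ber K R) (hd : y.v d ≠ 0) (ρ : ℝ) (hρ : 0 < ρ)
    (z : Ber K R[X]) (hz : IsGz b d y ρ z) (x0 : Raw R p 0) (hx : IsCst x0)
    (hx' : (berLS K R).SFat y x0) (h : (berLS K R[X]).Van z (pullR (prX K R).ix x0)) :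
    (berLS K R).Van y x0 := by
  obtain ⟨s, hs, hsd⟩ := hx'
  have hcst : IsCst (pullR (prX K R).ix x0) := fun x x' w v => hx _ _ _ _
  obtain ⟨u, hsu, W, hW, hWd, hkey⟩ := U1.key b d y hd ρ hρ z hz _ hcst h s hsd
  refine ⟨u, hs.mono hsu, W, hW, hWd, ?_⟩
  intro σ hσ hσW x w v hxσ _ hvσ
  obtain ⟨V, hV1, -, hV3⟩ := hkey σ hσ ⟨_, hxσ⟩ hσW v 0 hvσ
  have h1 := hV3 0 (fun i => i.elim0)
  have h2 : x0 ((0 : R[X] → ℝ) ∘ (prX K R).ix) (fun i : Fin 0 => (i.elim0 : R → ℝ))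
      (fun j => V j ∘ (prX K R).ix) = 0 := by
    rw [← h1]
    exact U1.isSF_congr hs hx fun j a _ => rfl
  rw [← h2]
  exact U1.isSF_congr hs hx fun j a ha => (hV1 j a ha).symm

/-- `x0 + dlog |d X - b| ∧ v = 0` implies `x0 = 0`, `v = 0`. -/
theorem gz_ind {p : ℕ} (b d : R) (y : Ber K R) (hd : y.v d ≠ 0) (ρ : ℝ) (hρ : 0 < ρ)
    (z : Ber K R[X]) (hz : IsGz b d y ρ z) (x0 : Raw R (p + 1) 0) (hx : IsCst x0)
    (hx' : (berLS K R).SFat y x0) (v0 : Raw R p 0) (hv : IsCst v0)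
    (hv' : (berLS K R).SFat y v0)
    (h : (berLS K R[X]).Van z
      (pullR (prX K R).ix x0 + wdg1 (dlg (C d * X - C b)) (pullR (prX K R).ix v0))) :
    (berLS K R).Van y x0 ∧ (berLS K R).Van y v0 := by
  obtain ⟨s, hs, hs', hsd⟩ := LogSpace.SFat.common (berLS K R) hx' hv'
  have hcst : IsCst (pullR (prX K R).ix x0 +
      wdg1 (dlg (C d * X - C b)) (pullR (prX K R).ix v0)) := by
    intro x x' w v
    show x0 _ _ _ + ∑ j : Fin (p + 1), (-1 : ℝ) ^ (j : ℕ) * v j (C d * X - C b) * v0 _ _ _ =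
      x0 _ _ _ + ∑ j : Fin (p + 1), (-1 : ℝ) ^ (j : ℕ) * v j (C d * X - C b) * v0 _ _ _
    rw [hx (x ∘ (prX K R).ix) (x' ∘ (prX K R).ix)]
    congr 1
    refine Finset.sum_congr rfl fun j _ => ?_
    rw [hv (x ∘ (prX K R).ix) (x' ∘ (prX K R).ix)]
  obtain ⟨u, hsu, W, hW, hWd, hkey⟩ := U1.key b d y hd ρ hρ z hz _ hcst h s hsd
  -- the relation
  have hrel : ∀ σ : Set (u → ℝ), Convex ℝ σ → σ.Nonempty → σ ⊆ (berLS K R).trop u '' W →
      ∀ (x : R → ℝ) (w : Fin 0 → R → ℝ) (v : Fin (p + 1) → R → ℝ) (τ : Fin (p + 1) → ℝ),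
        (∀ j, rs u (v j) ∈ vectorSpan ℝ σ) →
        x0 x w v + ∑ j : Fin (p + 1), (-1 : ℝ) ^ (j : ℕ) * (v j d + τ j) *
          v0 x w (fun i => v (j.succAbove i)) = 0 := by
    intro σ hσ hne hσW x w v τ hvσ
    obtain ⟨V, hV1, hV2, hV3⟩ := hkey σ hσ hne hσW v τ hvσ
    have h1 : x0 ((0 : R[X] → ℝ) ∘ (prX K R).ix) (fun i : Fin 0 => (i.elim0 : R[X] → ℝ) ∘ (prX K R).ix)
        (fun j => V j ∘ (prX K R).ix) + ∑ j : Fin (p + 1), (-1 : ℝ) ^ (j : ℕ) *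
          V j (C d * X - C b) * v0 ((0 : R[X] → ℝ) ∘ (prX K R).ix)
            (fun i : Fin 0 => (i.elim0 : R[X] → ℝ) ∘ (prX K R).ix)
            (fun i => V (j.succAbove i) ∘ (prX K R).ix) = 0 := hV3 0 (fun i => i.elim0)
    rw [← h1]
    congr 1
    · exact U1.isSF_congr hs hx fun j a ha => (hV1 j a ha).symm
    · refine Finset.sum_congr rfl fun j _ => ?_
      rw [hV2 j]
      congr 1
      exact U1.isSF_congr hs' hv fun i a ha => (hV1 _ a ha).symm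
  have hv0 : ∀ σ : Set (u → ℝ), Convex ℝ σ → σ.Nonempty → σ ⊆ (berLS K R).trop u '' W →
      ∀ (x : R → ℝ) (w : Fin 0 → R → ℝ) (v : Fin p → R → ℝ),
        (∀ j, rs u (v j) ∈ vectorSpan ℝ σ) → v0 x w v = 0 := by
    intro σ hσ hne hσW x w v hvσ
    have hv1 : ∀ j, rs u ((Fin.cons 0 v : Fin (p + 1) → R → ℝ) j) ∈ vectorSpan ℝ σ := by
      intro j
      refine Fin.cases ?_ (fun i => ?_) j
      · rw [Fin.cons_zero, rs_zero]
        exact Submodule.zero_mem _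
      · rw [Fin.cons_succ]
        exact hvσ i
    have e1 := hrel σ hσ hne hσW x w (Fin.cons 0 v : Fin (p + 1) → R → ℝ) 0 hv1
    have e2 := hrel σ hσ hne hσW x w (Fin.cons 0 v : Fin (p + 1) → R → ℝ)
      (Fin.cons 1 0 : Fin (p + 1) → ℝ) hv1
    rw [Fin.sum_univ_succ] at e1 e2
    simp only [Pi.zero_apply, add_zero, Fin.cons_zero, Fin.cons_succ, Fin.val_zero, pow_zero,
      one_mul, zero_add, Fin.succAbove_zero, mul_zero, zero_mul] at e1 e2
    linarith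
  constructor
  · refine ⟨u, hs.mono hsu, W, hW, hWd, ?_⟩
    intro σ hσ hσW x w v hxσ _ hvσ
    have e1 := hrel σ hσ ⟨_, hxσ⟩ hσW x w v 0 hvσ
    rw [Finset.sum_eq_zero, add_zero] at e1
    · exact e1
    · intro j _
      rw [hv0 σ hσ ⟨_, hxσ⟩ hσW x w _ (fun i => hvσ _), mul_zero]
  · refine ⟨u, hs'.mono hsu, W, hW, hWd, ?_⟩
    intro σ hσ hσW x w v hxσ _ hvσ
    exact hv0 σ hσ ⟨_, hxσ⟩ hσW x w v hvσ

end Pool.Agent.TD
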