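import Pool.Agent.TD.U.Lin4
import Pool.Agent.TD.U.U1
import Pool.Agent.TD.U.Abs3
import Pool.Agent.TD.U.Res2

/-! Block U: the residue systems of forms. -/

open scoped ContDiff Topology
open Polynomial

namespace Pool.Agent.TD

variable {K R k : Type} [NormedField K] [CommRing R] [Algebra K R] [NormedField k]
  [IsUltrametricDist k] {y : Ber K R} {ι : R →+* k}

namespace Sys1Aux

omit [IsUltrametricDist k]

theorem pb_germ (h : IsResF y ι) {p q : ℕ} (w : Ber k k[X]) {θ : Raw R p q}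
    (hθ : (berLS K R).SFat y θ) : h.pb p q w ((berLS K R).germ θ hθ) =
      (berLS K R[X]).germ (pullR (prX K R).ix θ) ((prX K R).sfatY (fibU_over h w) hθ) :=
  (prX K R).pullY_germ (fibU_over h w) hθ

theorem pb_wdS (h : IsResF y ι) {p q : ℕ} (w : Ber k k[X]) (a : (berLS K R).Stalk 1 0 y)
    (c : (berLS K R).Stalk p q y) : h.pb (p + 1) q w ((berLS K R).wdS p q y a c) =
      (berLS K R[X]).wdS p q _ (h.pb 1 0 w a) (h.pb p q w c) :=
  (prX K R).pullY_wdS (fibU_over h w) a c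

/-- The raw form of `dlog |X - β|`. -/
noncomputable def lr (h : IsResF y ι) (β : k) : Raw R[X] 1 0 :=
  dlg (h.lp β) - dlg (C (h.den β))

theorem lin_germ (h : IsResF y ι) (w : Ber k k[X]) (β : k) (hw : w.v (X - C β) ≠ 0) :
    ∃ kk : (berLS K R[X]).SFat (fibU h w) (lr h β),
      h.lin β w = (berLS K R[X]).germ (lr h β) kk := by
  have h1 : (fibU h w).v (h.lp β) ≠ 0 := by
    rw [h.fib_lp]
    exact mul_ne_zero (norm_ne_zero_iff.2 (h.den_ne β)) hw
  have h2 : (fibU h w).v (C (h.den β)) ≠ 0 := by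
    rw [h.fib_C]
    exact h.v_den β
  have s1 : (berLS K R[X]).SFat (fibU h w) (dlg (h.lp β)) :=
    ⟨{h.lp β}, isSF_dlg (Finset.mem_singleton_self _), fun f hf => by
      rw [Finset.mem_singleton.1 hf]
      exact h1⟩
  have s2 : (berLS K R[X]).SFat (fibU h w) (dlg (C (h.den β))) :=
    ⟨{C (h.den β)}, isSF_dlg (Finset.mem_singleton_self _), fun f hf => by
      rw [Finset.mem_singleton.1 hf]
      exact h2⟩
  refine ⟨s1.sub s2, ?_⟩
  unfold IsResF.lin
  rw [dif_pos ⟨h1, h2⟩]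
  exact (LogSpace.germ_sub _ s1 s2).symm

theorem sum_germ (h : IsResF y ι) {p : ℕ} (w : Ber k k[X]) (v0 : k → Raw R p 0)
    (hv0 : ∀ β, (berLS K R).SFat y (v0 β)) (S : Finset k)
    (hS : ∀ β ∈ S, w.v (X - C β) ≠ 0) :
    ∃ kk : (berLS K R[X]).SFat (fibU h w)
        (∑ β ∈ S, wdg1 (lr h β) (pullR (prX K R).ix (v0 β))),
      ∑ β ∈ S, (berLS K R[X]).wdS p 0 _ (h.lin β w)
        (h.pb p 0 w ((berLS K R).germ (v0 β) (hv0 β))) = (berLS K R[X]).germ _ kk := by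
  classical
  induction S using Finset.induction_on with
  | empty =>
    refine ⟨by rw [Finset.sum_empty]; exact LogSpace.SFat.zero _, ?_⟩
    rw [Finset.sum_empty]
    exact ((berLS K R[X]).germ_of_eq_zero Finset.sum_empty _).symm
  | insert β S hβ ih =>
    obtain ⟨k1, e1⟩ := ih fun β' h' => hS β' (Finset.mem_insert_of_mem h')
    obtain ⟨k2, e2⟩ := lin_germ h w β (hS β (Finset.mem_insert_self β S))
    have k3 := LogSpace.SFat.wdg1 _ k2 ((prX K R).sfatY (fibU_over h w) (hv0 β))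
    refine ⟨by rw [Finset.sum_insert hβ]; exact k3.add k1, ?_⟩
    rw [Finset.sum_insert hβ, e1, e2, pb_germ, LogSpace.wdS_germ, ← LogSpace.germ_add]
    exact (berLS K R[X]).germ_congr (Finset.sum_insert
      (f := fun β => wdg1 (lr h β) (pullR (prX K R).ix (v0 β))) hβ).symm _ _

/-- A relation at `w` holds near `w`. -/
theorem near (h : IsResF y ι) {p : ℕ} (w : Ber k k[X]) (x : (berLS K R).Stalk (p + 1) 0 y)
    (v : k → (berLS K R).Stalk p 0 y) (S : Finset k) (hS : ∀ β ∈ S, w.v (X - C β) ≠ 0)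
    (e : h.pb (p + 1) 0 w x +
      ∑ β ∈ S, (berLS K R[X]).wdS p 0 _ (h.lin β w) (h.pb p 0 w (v β)) = 0) :
    ∀ᶠ w' in 𝓝 w, h.pb (p + 1) 0 w' x +
      ∑ β ∈ S, (berLS K R[X]).wdS p 0 _ (h.lin β w') (h.pb p 0 w' (v β)) = 0 := by
  obtain ⟨x0, hx0, rfl⟩ := (berLS K R).exists_germ x
  choose v0 hv0 hv1 using fun β => (berLS K R).exists_germ (v β)
  obtain rfl : v = fun β => (berLS K R).germ (v0 β) (hv0 β) := funext fun β => (hv1 β).symm
  have key : ∀ w' : Ber k k[X], (∀ β ∈ S, w'.v (X - C β) ≠ 0) →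
      (h.pb (p + 1) 0 w' ((berLS K R).germ x0 hx0) +
        ∑ β ∈ S, (berLS K R[X]).wdS p 0 _ (h.lin β w')
          (h.pb p 0 w' ((berLS K R).germ (v0 β) (hv0 β))) = 0 ↔
        (berLS K R[X]).Van (fibU h w') (pullR (prX K R).ix x0 +
          ∑ β ∈ S, wdg1 (lr h β) (pullR (prX K R).ix (v0 β)))) := by
    intro w' hw'
    obtain ⟨k1, e1⟩ := sum_germ h w' v0 hv0 S hw'
    rw [e1, pb_germ, ← LogSpace.germ_add, LogSpace.germ_eq_zero]
  have hdom : ∀ᶠ w' in 𝓝 w, ∀ β ∈ S, w'.v (X - C β) ≠ 0 := by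
    rw [Filter.eventually_all_finset]
    exact fun β hβ =>
      (isOpen_ne_fun (Ber.continuous_v (X - C β)) continuous_const).mem_nhds (hS β hβ)
  have hcont : Continuous (fibU h) :=
    Ber.continuous_iff.2 fun a => Ber.continuous_v (a.map ι)
  have hvan := hcont.continuousAt.eventually (LogSpace.Van.nhds _ ((key w hS).1 e))
  filter_upwards [hdom, hvan] with w' h1 h2
  exact (key w' h1).2 h2

theorem wdg1_sub_left {Φ : Type} {p q : ℕ} (η η' : Raw Φ 1 0) (θ : Raw Φ p q) :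
    wdg1 (η - η') θ = wdg1 η θ - wdg1 η' θ := by
  have h1 : η - η' = η + (-1 : ℝ) • η' := by rw [neg_one_smul, sub_eq_add_neg]
  rw [h1, wdg1_add_left, wdg1_smul_left, neg_one_smul, sub_eq_add_neg]

/-- Independence of two terms at a Gauss point. -/
theorem two (h : IsResF y ι) {p : ℕ} (β : k) (r : ℝ) (hr : 0 < r) (w : Ber k k[X])
    (hw1 : w.v (X - C β) ≠ 0)
    (hw : ∀ f : k[X], w.v f = (⨆ i : Fin (f.natDegree + 1),
      ‖(f.comp (X + C β)).coeff i‖ * r ^ (i : ℕ)))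
    (x : (berLS K R).Stalk (p + 1) 0 y) (hx : x ∈ (berLS K R).Lp (p + 1) y)
    (v : (berLS K R).Stalk p 0 y) (hv : v ∈ (berLS K R).Lp p y)
    (e : h.pb (p + 1) 0 w x + (berLS K R[X]).wdS p 0 _ (h.lin β w) (h.pb p 0 w v) = 0) :
    v = 0 := by
  obtain ⟨x0, cx, hx0, rfl⟩ := (berLS K R).exists_cst hx
  obtain ⟨v0, cv, hv0, rfl⟩ := (berLS K R).exists_cst hv
  have hden : (berLS K R).SFat y (dlg (h.den β)) :=
    ⟨{h.den β}, isSF_dlg (Finset.mem_singleton_self _), fun f hf => by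
      rw [Finset.mem_singleton.1 hf]
      exact h.v_den β⟩
  have hg : IsGz (h.num β) (h.den β) y r (fibU h w) := by
    refine fibU_gz h (h.num β) (h.den β) (h.den_ne β) r hr w fun f => ?_
    rw [hw f, ← h.eq_div β]
  obtain ⟨k2, e2⟩ := lin_germ h w β hw1
  rw [e2, pb_germ, pb_germ, LogSpace.wdS_germ, ← LogSpace.germ_add,
    LogSpace.germ_eq_zero] at e
  have e3 : pullR (prX K R).ix x0 + wdg1 (lr h β) (pullR (prX K R).ix v0) =
      pullR (prX K R).ix (x0 - wdg1 (dlg (h.den β)) v0) +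
        wdg1 (dlg (C (h.den β) * X - C (h.num β))) (pullR (prX K R).ix v0) := by
    have e4 : pullR (prX K R).ix (x0 - wdg1 (dlg (h.den β)) v0) =
        pullR (prX K R).ix x0 - wdg1 (dlg (C (h.den β))) (pullR (prX K R).ix v0) := rfl
    have e5 : lr h β = dlg (C (h.den β) * X - C (h.num β)) - dlg (C (h.den β)) := rfl
    rw [e4, e5, wdg1_sub_left]
    abel
  rw [e3] at e
  have hcst : IsCst (x0 - wdg1 (dlg (h.den β)) v0) := by
    have h1 : x0 - wdg1 (dlg (h.den β)) v0 = x0 + (-1 : ℝ) • wdg1 (dlg (h.den β)) v0 := by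
      rw [neg_one_smul, sub_eq_add_neg]
    rw [h1]
    exact cx.add (((isCst_dlg _).wdg1 cv).smul _)
  have h2 := gz_ind (h.num β) (h.den β) y (h.v_den β) r hr (fibU h w) hg
    (x0 - wdg1 (dlg (h.den β)) v0) hcst (hx0.sub (LogSpace.SFat.wdg1 _ hden hv0)) v0 cv hv0 e
  exact ((berLS K R).germ_eq_zero hv0).2 h2.2

/-- Base germs are determined by their pull backs at Gauss points. -/
theorem one (h : IsResF y ι) {p : ℕ} (a : k) (r : ℝ) (hr : 0 < r) (w : Ber k k[X])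
    (hw : ∀ f : k[X], w.v f = (⨆ i : Fin (f.natDegree + 1),
      ‖(f.comp (X + C a)).coeff i‖ * r ^ (i : ℕ)))
    (x : (berLS K R).Stalk p 0 y) (hx : x ∈ (berLS K R).Lp p y)
    (e : h.pb p 0 w x = 0) : x = 0 := by
  obtain ⟨x0, cx, hx0, rfl⟩ := (berLS K R).exists_cst hx
  have hg : IsGz (h.num a) (h.den a) y r (fibU h w) := by
    refine fibU_gz h (h.num a) (h.den a) (h.den_ne a) r hr w fun f => ?_
    rw [hw f, ← h.eq_div a]
  rw [pb_germ, LogSpace.germ_eq_zero] at e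
  exact ((berLS K R).germ_eq_zero hx0).2
    (gz_inj (h.num a) (h.den a) y (h.v_den a) r hr (fibU h w) hg x0 cx hx0 e)

end Sys1Aux

namespace Sys1Aux

/-- The values of a Gauss point. -/
theorem gauss_eq [IsAlgClosed k] {a : k} {ρ : ℝ} (hρ : 0 < ρ) {w : Ber k k[X]}
    (hw : ∀ β, w.v (X - C β) = max ρ ‖a - β‖) : ∀ f : k[X], w.v f =
      (⨆ i : Fin (f.natDegree + 1), ‖(f.comp (X + C a)).coeff i‖ * ρ ^ (i : ℕ)) := by
  obtain ⟨w', h1, h2, -⟩ := exists_eta a ρ hρ.le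
  have e : w = w' := ext_lin fun β => by rw [hw, h1]
  rw [e]
  exact h2

theorem max_eq {a b c : k} {ρ : ℝ} (h : ‖a - b‖ ≤ ρ) : max ρ ‖b - c‖ = max ρ ‖a - c‖ := by
  apply le_antisymm
  · refine max_le (le_max_left _ _) ?_
    have h1 : b - c = (b - a) + (a - c) := by ring
    rw [h1]
    refine (IsUltrametricDist.norm_add_le_max _ _).trans (max_le ?_ (le_max_right _ _))
    rw [norm_sub_rev]
    exact h.trans (le_max_left _ _)
  · refine max_le (le_max_left _ _) ?_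
    have h1 : a - c = (a - b) + (b - c) := by ring
    rw [h1]
    exact (IsUltrametricDist.norm_add_le_max _ _).trans (max_le (h.trans (le_max_left _ _)) (le_max_right _ _))

theorem ind_v [IsAlgClosed k] (h : IsResF y ι) {p : ℕ} (a : k) (ρ : ℝ) (w : Ber k k[X])
    (hρ : 0 < ρ) (hw : ∀ β, w.v (X - C β) = max ρ ‖a - β‖) (S : Finset k)
    (x : (berLS K R).Stalk (p + 1) 0 y) (hx : x ∈ (berLS K R).Lp (p + 1) y)
    (v : k → (berLS K R).Stalk p 0 y) (hv : ∀ β, v β ∈ (berLS K R).Lp p y)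
    (h1 : ∀ β ∈ S, ‖a - β‖ ≤ ρ) (h2 : ∀ β ∈ S, ∀ β' ∈ S, β ≠ β' → ρ ≤ ‖β - β'‖)
    (e : h.pb (p + 1) 0 w x +
      ∑ β ∈ S, (berLS K R[X]).wdS p 0 _ (h.lin β w) (h.pb p 0 w (v β)) = 0) :
    ∀ β ∈ S, v β = 0 := by
  classical
  intro β0 hβ0
  have hne : ∀ β, w.v (X - C β) ≠ 0 := fun β => by
    rw [hw]
    exact (lt_max_of_lt_left hρ).ne'
  have hev := near h w x v S (fun β _ => hne β) e
  obtain ⟨r, -, hr, hrt⟩ := exists_seq_strictMono_tendsto' hρ
  choose W hW1 hW2 _ using fun n => exists_eta β0 (r n) (hr n).1.le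
  have ht : Filter.Tendsto W Filter.atTop (𝓝 w) := by
    refine tendsto_lin fun β => ?_
    have e1 : w.v (X - C β) = max ρ ‖β0 - β‖ := by rw [hw, max_eq (h1 β0 hβ0)]
    rw [e1]
    have e2 : (fun n => (W n).v (X - C β)) = fun n => max (r n) ‖β0 - β‖ :=
      funext fun n => hW1 n β
    rw [e2]
    exact hrt.max tendsto_const_nhds
  obtain ⟨n, hn⟩ := (ht.eventually hev).exists
  have hr0 : (W n).v (X - C β0) = r n := by
    rw [hW1, sub_self, norm_zero, max_eq_left (hr n).1.le]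
  have hfar : ∀ β ∈ S.erase β0, h.lin β (W n) = h.pb 1 0 (W n) (h.bl (β - β0)) := by
    intro β hβ
    have hβS := Finset.mem_of_mem_erase hβ
    have hβ' := Finset.ne_of_mem_erase hβ
    refine h.lin_far (W n) β β0 ?_
    rw [hr0, hW1]
    exact ((hr n).2.trans_le (h2 β0 hβ0 β hβS hβ'.symm)).trans_le (le_max_right _ _)
  obtain ⟨x', hx'⟩ : ∃ x', x' = x + ∑ β ∈ S.erase β0, (berLS K R).wdS p 0 y (h.bl (β - β0)) (v β) :=
    ⟨_, rfl⟩
  have hx'm : x' ∈ (berLS K R).Lp (p + 1) y := by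
    rw [hx']
    exact Submodule.add_mem _ hx (Submodule.sum_mem _ fun β _ =>
      (berLS K R).wdS_mem (h.bl_mem _) (hv β))
  refine two h β0 (r n) (hr n).1 (W n) (by rw [hr0]; exact (hr n).1.ne') (hW2 n) x' hx'm (v β0)
    (hv β0) ?_
  rw [← hn, ← Finset.add_sum_erase S _ hβ0, hx', map_add, map_sum]
  have e3 : ∑ β ∈ S.erase β0, (berLS K R[X]).wdS p 0 _ (h.lin β (W n)) (h.pb p 0 (W n) (v β)) =
      ∑ β ∈ S.erase β0, h.pb (p + 1) 0 (W n) ((berLS K R).wdS p 0 y (h.bl (β - β0)) (v β)) := by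
    refine Finset.sum_congr rfl fun β hβ => ?_
    rw [hfar β hβ, pb_wdS]
  rw [e3]
  abel

end Sys1Aux

namespace IsResF

/-- The residue system of the forms of type `(p+1, 0)`. -/
noncomputable def sys [IsAlgClosed k] (h : IsResF y ι) (p : ℕ) :
    RSys k ((berLS K R).Lp (p + 1) y) ((berLS K R).Lp p y) where
  E w := (berLS K R[X]).Stalk (p + 1) 0 (fibU h w)
  i w := ((h.pb (p + 1) 0 w).comp ((berLS K R).Lp (p + 1) y).subtype).toAddMonoidHom
  j w β := (((berLS K R[X]).wdS p 0 _ (h.lin β w)).comp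
    ((h.pb p 0 w).comp ((berLS K R).Lp p y).subtype)).toAddMonoidHom
  l γ := (LinearMap.codRestrict ((berLS K R).Lp (p + 1) y)
    (((berLS K R).wdS p 0 y (h.bl γ)).comp ((berLS K R).Lp p y).subtype)
    (fun v => (berLS K R).wdS_mem (h.bl_mem γ) v.2)).toAddMonoidHom
  j1 := by
    intro w β β' hw v
    show (berLS K R[X]).wdS p 0 _ (h.lin β w) (h.pb p 0 w v.1) =
      h.pb (p + 1) 0 w ((berLS K R).wdS p 0 y (h.bl (β - β')) v.1)
    rw [h.lin_far w β β' hw, Sys1Aux.pb_wdS]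
  j2 := by
    intro w β β' hw v
    show (berLS K R[X]).wdS p 0 _ (h.lin β w) (h.pb p 0 w v.1) =
      (berLS K R[X]).wdS p 0 _ (h.lin β' w) (h.pb p 0 w v.1)
    rw [h.lin_near w β β' hw]
  ind := by
    intro a ρ w hρ hw S x v h1 h2 e
    have e' : h.pb (p + 1) 0 w x.1 +
        ∑ β ∈ S, (berLS K R[X]).wdS p 0 _ (h.lin β w) (h.pb p 0 w (v β).1) = 0 := e
    have hv := Sys1Aux.ind_v h a ρ w hρ hw S x.1 x.2 (fun β => (v β).1) (fun β => (v β).2)
      h1 h2 e'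
    refine ⟨?_, fun β hβ => Subtype.ext (hv β hβ)⟩
    have e3 : ∑ β ∈ S, (berLS K R[X]).wdS p 0 _ (h.lin β w) (h.pb p 0 w (v β).1) = 0 :=
      Finset.sum_eq_zero fun β hβ => by
        have h4 : (v β).1 = 0 := hv β hβ
        rw [h4, map_zero, map_zero]
    rw [e3, add_zero] at e'
    exact Subtype.ext (Sys1Aux.one h a ρ hρ w (Sys1Aux.gauss_eq hρ hw) x.1 x.2 e')

/-- The residue system of the forms of type `(0, 0)`. -/
noncomputable def sys0 [IsAlgClosed k] (h : IsResF y ι) : RSys k ((berLS K R).Lp 0 y) PUnit where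
  E w := (berLS K R[X]).Stalk 0 0 (fibU h w)
  i w := ((h.pb 0 0 w).comp ((berLS K R).Lp 0 y).subtype).toAddMonoidHom
  j w β := 0
  l γ := 0
  j1 := by
    intro w β β' _ v
    show (0 : (berLS K R[X]).Stalk 0 0 (fibU h w)) = h.pb 0 0 w 0
    rw [map_zero]
  j2 := by
    intro w β β' _ v
    rfl
  ind := by
    intro a ρ w hρ hw S x v _ _ e
    refine ⟨?_, fun β _ => rfl⟩
    have e' : h.pb 0 0 w x.1 +
        ∑ β ∈ S, (0 : (berLS K R[X]).Stalk 0 0 (fibU h w)) = 0 := e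
    rw [Finset.sum_const_zero, add_zero] at e'
    exact Subtype.ext (Sys1Aux.one h a ρ hρ w (Sys1Aux.gauss_eq hρ hw) x.1 x.2 e')

end IsResF

end Pool.Agent.TD
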