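import Pool.Agent.TD.U.Sys1

/-! Block U: locally constant forms along the fibre are sections of the residue system. -/

open scoped ContDiff Topology
open Polynomial

namespace Pool.Agent.TD

variable {K R k : Type} [NormedField K] [CommRing R] [Algebra K R] [NormedField k]
  [IsUltrametricDist k] {y : Ber K R} {ι : R →+* k}

namespace IsResF

omit [IsUltrametricDist k] in
theorem Sys2.cont (h : IsResF y ι) : Continuous (fibU h) := by
  rw [Ber.continuous_iff]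
  intro a
  exact Ber.continuous_v (a.map ι)

/-- The germs along the fibre are given near `w` by one raw form. -/
def Sys2.LR (h : IsResF y ι) {p q : ℕ} (c : ∀ w, (berLS K R[X]).Stalk p q (fibU h w))
    (w : Ber k k[X]) : Prop :=
  ∃ Θ : Raw R[X] p q, ∀ᶠ w' in 𝓝 w, ∃ k' : (berLS K R[X]).SFat (fibU h w') Θ,
    c w' = (berLS K R[X]).germ Θ k'

omit [IsUltrametricDist k] in
theorem Sys2.LR.add {h : IsResF y ι} {p q : ℕ}
    {c c' : ∀ w, (berLS K R[X]).Stalk p q (fibU h w)} {w : Ber k k[X]}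
    (hc : Sys2.LR h c w) (hc' : Sys2.LR h c' w) : Sys2.LR h (fun w' => c w' + c' w') w := by
  obtain ⟨Θ, hΘ⟩ := hc
  obtain ⟨Θ', hΘ'⟩ := hc'
  refine ⟨Θ + Θ', (hΘ.and hΘ').mono ?_⟩
  rintro w' ⟨⟨k1, e1⟩, ⟨k2, e2⟩⟩
  exact ⟨k1.add k2, by beta_reduce; rw [e1, e2, (berLS K R[X]).germ_add]⟩

omit [IsUltrametricDist k] in
theorem Sys2.LR.zero {h : IsResF y ι} {p q : ℕ} {w : Ber k k[X]} :
    Sys2.LR h (p := p) (q := q) (fun _ => 0) w :=
  ⟨0, Filter.Eventually.of_forall fun _ =>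
    ⟨LogSpace.SFat.zero _, ((berLS K R[X]).germ_zero).symm⟩⟩

omit [IsUltrametricDist k] in
theorem Sys2.LR.sum {h : IsResF y ι} {p q : ℕ} {w : Ber k k[X]} (S : Finset k)
    {c : k → ∀ w, (berLS K R[X]).Stalk p q (fibU h w)} (hc : ∀ β ∈ S, Sys2.LR h (c β) w) :
    Sys2.LR h (fun w' => ∑ β ∈ S, c β w') w := by
  classical
  induction S using Finset.induction_on with
  | empty =>
    have : (fun w' : Ber k k[X] => ∑ β ∈ (∅ : Finset k), c β w') = fun _ => 0 := by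
      funext w'
      exact Finset.sum_empty
    rw [this]
    exact Sys2.LR.zero
  | insert a S ha ih =>
    have : (fun w' : Ber k k[X] => ∑ β ∈ insert a S, c β w') =
        fun w' => c a w' + ∑ β ∈ S, c β w' := by
      funext w'
      exact Finset.sum_insert ha
    rw [this]
    exact (hc a (Finset.mem_insert_self a S)).add
      (ih fun β hβ => hc β (Finset.mem_insert_of_mem hβ))

omit [IsUltrametricDist k] in
theorem Sys2.LR.wd {h : IsResF y ι} {p q : ℕ} {w : Ber k k[X]}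
    {a : ∀ w, (berLS K R[X]).Stalk 1 0 (fibU h w)}
    {c : ∀ w, (berLS K R[X]).Stalk p q (fibU h w)} (ha : Sys2.LR h a w) (hc : Sys2.LR h c w) :
    Sys2.LR h (fun w' => (berLS K R[X]).wdS p q _ (a w') (c w')) w := by
  obtain ⟨Θ, hΘ⟩ := ha
  obtain ⟨Θ', hΘ'⟩ := hc
  refine ⟨wdg1 Θ Θ', (hΘ.and hΘ').mono ?_⟩
  rintro w' ⟨⟨k1, e1⟩, ⟨k2, e2⟩⟩
  exact ⟨LogSpace.SFat.wdg1 _ k1 k2, by beta_reduce; rw [e1, e2, LogSpace.wdS_germ]⟩

omit [IsUltrametricDist k] in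
theorem Sys2.LR.pb (h : IsResF y ι) {p q : ℕ} (w : Ber k k[X])
    (x : (berLS K R).Stalk p q y) : Sys2.LR h (fun w' => h.pb p q w' x) w := by
  obtain ⟨θ, k1, rfl⟩ := (berLS K R).exists_germ x
  exact ⟨pullR (prX K R).ix θ, Filter.Eventually.of_forall fun w' =>
    ⟨(prX K R).sfatY (fibU_over h w') k1, (prX K R).pullY_germ (fibU_over h w') k1⟩⟩

omit [IsUltrametricDist k] in
theorem Sys2.LR.lin (h : IsResF y ι) (w : Ber k k[X]) (β : k) (hβ : w.v (X - C β) ≠ 0) :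
    Sys2.LR h (fun w' => h.lin β w') w := by
  have h2 : ∀ w' : Ber k k[X], (fibU h w').v (C (h.den β)) ≠ 0 := by
    intro w'
    rw [h.fib_C]
    exact h.v_den β
  have h1 : ∀ᶠ w' in 𝓝 w, (fibU h w').v (h.lp β) ≠ 0 := by
    have h3 : (fibU h w).v (h.lp β) ≠ 0 := by
      rw [h.fib_lp]
      exact mul_ne_zero (norm_ne_zero_iff.2 (h.den_ne β)) hβ
    have h4 : Continuous (fun w' : Ber k k[X] => (fibU h w').v (h.lp β)) :=
      (Ber.continuous_v (h.lp β)).comp (Sys2.cont h)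
    exact h4.continuousAt.eventually_ne h3
  refine ⟨dlg (h.lp β) - dlg (C (h.den β)), h1.mono fun w' hw' => ?_⟩
  have e : h.lin β w' = (berLS K R[X]).dlS (h.lp β) hw' -
      (berLS K R[X]).dlS (C (h.den β)) (h2 w') := by
    unfold IsResF.lin
    rw [dif_pos ⟨hw', h2 w'⟩]
  beta_reduce
  rw [e]
  unfold LogSpace.dlS
  exact ⟨_, ((berLS K R[X]).germ_sub _ _).symm⟩

omit [IsUltrametricDist k] in
theorem Sys2.LR.uniq {h : IsResF y ι} {p q : ℕ} {w : Ber k k[X]}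
    {c : ∀ w, (berLS K R[X]).Stalk p q (fibU h w)} (hc : Sys2.LR h c w) (θ : Raw R[X] p q)
    (hk : (berLS K R[X]).SFat (fibU h w) θ) (e : (berLS K R[X]).germ θ hk = c w) :
    ∀ᶠ w' in 𝓝 w, ∀ k' : (berLS K R[X]).SFat (fibU h w') θ,
      (berLS K R[X]).germ θ k' = c w' := by
  obtain ⟨Θ, hΘ⟩ := hc
  obtain ⟨k0, e0⟩ := hΘ.self_of_nhds
  have h1 : (berLS K R[X]).Van (fibU h w) (θ - Θ) :=
    ((berLS K R[X]).germ_eq_iff hk k0).1 (e.trans e0)
  have h2 : ∀ᶠ w' in 𝓝 w, (berLS K R[X]).Van (fibU h w') (θ - Θ) :=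
    (Sys2.cont h).continuousAt.eventually (LogSpace.Van.nhds _ h1)
  refine (hΘ.and h2).mono ?_
  rintro w' ⟨⟨k1, e1⟩, h3⟩ k'
  rw [e1]
  exact ((berLS K R[X]).germ_eq_iff k' k1).2 h3

/-- Locally constant forms along the fibre are sections of the system. -/
theorem lc_sys [IsAlgClosed k] (h : IsResF y ι) (p : ℕ) {D : Set (Ber k k[X])}
    (s : ∀ w, (berLS K R[X]).Stalk (p + 1) 0 (fibU h w)) (w : Ber k k[X])
    (θ : Raw R[X] (p + 1) 0) (hθ : IsCst θ) (hk : (berLS K R[X]).SFat (fibU h w) θ)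
    (hs : ∀ᶠ w' in 𝓝 w, w' ∈ D → ∃ k' : (berLS K R[X]).SFat (fibU h w') θ,
      s w' = (berLS K R[X]).germ θ k') : (h.sys p).LC s D w := by
  obtain ⟨x, S, v, hx, hv, hS, hc⟩ := h.gen w p ((berLS K R[X]).germ θ hk)
    (LogSpace.germ_cst_mem _ hθ hk)
  refine ⟨⟨x, hx⟩, S, fun β => ⟨v β, hv β⟩, hS, ?_⟩
  have hLR : Sys2.LR h (fun w' => h.pb (p + 1) 0 w' x +
      ∑ β ∈ S, (berLS K R[X]).wdS p 0 _ (h.lin β w') (h.pb p 0 w' (v β))) w :=
    (Sys2.LR.pb h w x).add (Sys2.LR.sum S fun β hβ =>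
      (Sys2.LR.lin h w β (hS β hβ)).wd (Sys2.LR.pb h w (v β)))
  refine ((hLR.uniq θ hk hc).and hs).mono ?_
  rintro w' ⟨h1, h2⟩ hw'
  obtain ⟨k', e⟩ := h2 hw'
  exact e.trans (h1 k')

theorem lc_sys0 [IsAlgClosed k] (h : IsResF y ι) {D : Set (Ber k k[X])}
    (s : ∀ w, (berLS K R[X]).Stalk 0 0 (fibU h w)) (w : Ber k k[X])
    (θ : Raw R[X] 0 0) (hθ : IsCst θ)
    (hs : ∀ᶠ w' in 𝓝 w, w' ∈ D → ∃ k' : (berLS K R[X]).SFat (fibU h w') θ,
      s w' = (berLS K R[X]).germ θ k') : h.sys0.LC s D w := by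
  obtain ⟨t, ht⟩ : ∃ t : ℝ, t = θ 0 ![] ![] := ⟨_, rfl⟩
  have hk0 : (berLS K R).SFat y (t • one0 : Raw R 0 0) :=
    LogSpace.SFat.smul t ⟨∅, isSF_one0 ∅, by simp⟩
  have hθt : pullR (prX K R).ix (t • one0 : Raw R 0 0) = θ := by
    funext x w' v
    change t * 1 = θ x w' v
    rw [hθ x 0 w' v, mul_one, ht]
    congr 1 <;> exact Subsingleton.elim _ _
  refine ⟨⟨(berLS K R).germ _ hk0, LogSpace.germ_cst_mem _ (isCst_one0.smul t) hk0⟩, ∅,
    fun _ => PUnit.unit, by simp, ?_⟩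
  refine hs.mono ?_
  intro w' h2 hw'
  obtain ⟨k', e⟩ := h2 hw'
  have h3 : h.pb 0 0 w' ((berLS K R).germ _ hk0) =
      (berLS K R[X]).germ (pullR (prX K R).ix (t • one0 : Raw R 0 0))
        ((prX K R).sfatY (fibU_over h w') hk0) :=
    (prX K R).pullY_germ (fibU_over h w') hk0
  have h4 : h.pb 0 0 w' ((berLS K R).germ _ hk0) = (berLS K R[X]).germ θ k' :=
    h3.trans ((berLS K R[X]).germ_congr hθt _ _)
  rw [Finset.sum_empty, add_zero]
  exact e.trans h4.symm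

end IsResF

end Pool.Agent.TD
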