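import Pool.Agent.TD.T.Basic
import Pool.Agent.TD.T.Gauss

/-! Block U: Gauss points of the line over a normed field. -/

open scoped Topology
open Polynomial

namespace Pool.Agent.TD

variable {k : Type} [NormedField k] [IsUltrametricDist k]

namespace U_TK1

/-- The absolute value of `k` as a point of `M(k)`. -/
noncomputable def nk (k : Type) [NormedField k] [IsUltrametricDist k] : Ber k k where
  v x := ‖x‖
  nonneg := norm_nonneg
  one := norm_one
  mul := norm_mul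
  add := IsUltrametricDist.norm_add_le_max
  ext _ := rfl

theorem gaussNorm_eq (q : k[X]) (n : ℕ) (hn : q.natDegree ≤ n) (ρ : ℝ) (hρ : 0 ≤ ρ) :
    q.gaussNorm (T_GAUSS.av (nk k)) ρ = ⨆ i : Fin (n + 1), ‖q.coeff i‖ * ρ ^ (i : ℕ) := by
  have hbdd : BddAbove (Set.range fun i : Fin (n + 1) => ‖q.coeff i‖ * ρ ^ (i : ℕ)) :=
    Set.Finite.bddAbove (Set.finite_range _)
  apply le_antisymm
  · obtain ⟨i, hi⟩ := exists_eq_gaussNorm (T_GAUSS.av (nk k)) ρ q
    rw [hi]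
    by_cases h : i ≤ n
    · exact le_ciSup hbdd (⟨i, Nat.lt_succ_of_le h⟩ : Fin (n + 1))
    · have h0 : q.coeff i = 0 := coeff_eq_zero_of_natDegree_lt (by omega)
      rw [h0, map_zero, zero_mul]
      have h1 : (0 : ℝ) ≤ ‖q.coeff (0 : Fin (n + 1))‖ * ρ ^ ((0 : Fin (n + 1)) : ℕ) := by positivity
      exact h1.trans (le_ciSup hbdd (0 : Fin (n + 1)))
  · refine ciSup_le fun i => ?_
    exact le_gaussNorm (T_GAUSS.av (nk k)) q hρ i

end U_TK1

/-- Gauss points. -/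
theorem exists_eta (a : k) (ρ : ℝ) (hρ : 0 ≤ ρ) : ∃ w : Ber k k[X],
    (∀ β, w.v (X - C β) = max ρ ‖a - β‖) ∧
    (∀ f : k[X], w.v f = (⨆ i : Fin (f.natDegree + 1),
      ‖(f.comp (X + C a)).coeff i‖ * ρ ^ (i : ℕ))) ∧
    ∀ w' : Ber k k[X], w'.v (X - C a) ≤ ρ → w' ≤ w := by
  refine ⟨T_GAUSS.gp (U_TK1.nk k) a ρ hρ, T_GAUSS.gp_lin (U_TK1.nk k) a ρ hρ, ?_, ?_⟩
  · intro f
    rw [T_GAUSS.gp_v]
    apply U_TK1.gaussNorm_eq _ _ _ _ hρ
    rw [natDegree_comp, natDegree_X_add_C, mul_one]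
  · intro w' hw' f
    rw [T_GAUSS.gp_v]
    set q : k[X] := f.comp (X + C a) with hq
    have hf : f = ∑ i ∈ Finset.range (q.natDegree + 1), C (q.coeff i) * (X - C a) ^ i := by
      have h1 : f = q.comp (X - C a) := by
        rw [hq, comp_assoc, add_comp, X_comp, C_comp, sub_add_cancel, comp_X]
      rw [h1]
      conv_lhs => rw [comp, eval₂_eq_sum_range]
    have h0 : 0 ≤ q.gaussNorm (T_GAUSS.av (U_TK1.nk k)) ρ :=
      gaussNorm_nonneg (T_GAUSS.av (U_TK1.nk k)) _ hρ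
    conv_lhs => rw [hf]
    refine w'.sum_le _ _ h0 fun i _ => ?_
    rw [w'.mul, w'.pow]
    refine le_trans ?_ (le_gaussNorm (T_GAUSS.av (U_TK1.nk k)) q hρ i)
    have h2 : w'.v (C (q.coeff i)) = ‖q.coeff i‖ := w'.ext (q.coeff i)
    rw [h2]
    exact mul_le_mul_of_nonneg_left (pow_le_pow_left₀ (w'.nonneg _) hw' i) (norm_nonneg _)

end Pool.Agent.TD
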