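import Pool.Agent.TD.U.U1

/-! Block U5: uniqueness. -/

open scoped ContDiff Topology
open Polynomial

namespace Pool.Agent.TD

/-- The circle of radius `r` in the fibre over `y`. -/
def circ {K A : Type} [NormedField K] [CommRing A] [Algebra K A] (y : Ber K A) (r : ℝ) :
    Set (Ber K A[X]) := {z | (prX K A).toFun z = y ∧ z.v X = r}

namespace U5bAux

theorem lin_eq {A : Type} [CommRing A] : (C (1 : A) * X - C 0 : A[X]) = X := by
  rw [C_1, one_mul, C_0, sub_zero]

/-- The Gauss point with centre `0` and radius `r` lies in the circle of radius `r`. -/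
theorem gz_mem_circ {K A : Type} [NormedField K] [CommRing A] [Algebra K A]
    (y : Ber K A) {r : ℝ} (hr : 0 < r) (h1 : y.v 1 ≠ 0) {z : Ber K A[X]}
    (hz : IsGz 0 1 y r z) : z ∈ circ y r := by
  refine ⟨?_, ?_⟩
  · apply Ber.ext_v
    intro a
    show z.v (C a) = y.v a
    exact gz_C 0 1 y h1 r hr z hz a
  · have h := gz_lin 0 1 y h1 r hr z hz
    rw [lin_eq, y.one, one_mul] at h
    exact h

end U5bAux

/-- Uniqueness, raw form. -/
theorem circ_inj {K A : Type} [NormedField K] [CommRing A] [Algebra K A]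
    (y : Ber K A) {r : ℝ} (hr : 0 < r) {p : ℕ} (x0 : Raw A (p + 1) 0) (v0 : Raw A p 0)
    (hx : IsCst x0) (hv : IsCst v0) (hx' : (berLS K A).SFat y x0) (hv' : (berLS K A).SFat y v0)
    (h : ∀ z ∈ circ y r, (berLS K A[X]).Van z (pullR (prX K A).ix x0 +
        wdg1 (dlg (X : A[X])) (pullR (prX K A).ix v0))) :
    (berLS K A).Van y x0 ∧ (berLS K A).Van y v0 := by
  have h1 : y.v 1 ≠ 0 := by
    rw [y.one]
    exact one_ne_zero
  obtain ⟨z, hz⟩ := exists_gz 0 1 y h1 r hr
  have h2 := h z (U5bAux.gz_mem_circ y hr h1 hz)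
  refine gz_ind 0 1 y h1 r hr z hz x0 hx hx' v0 hv hv' ?_
  rw [U5bAux.lin_eq]
  exact h2

theorem circ_inj0 {K A : Type} [NormedField K] [CommRing A] [Algebra K A]
    (y : Ber K A) {r : ℝ} (hr : 0 < r) (x0 : Raw A 0 0)
    (hx : IsCst x0) (hx' : (berLS K A).SFat y x0)
    (h : ∀ z ∈ circ y r, (berLS K A[X]).Van z (pullR (prX K A).ix x0)) :
    (berLS K A).Van y x0 := by
  have h1 : y.v 1 ≠ 0 := by
    rw [y.one]
    exact one_ne_zero
  obtain ⟨z, hz⟩ := exists_gz 0 1 y h1 r hr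
  exact gz_inj 0 1 y h1 r hr z hz x0 hx hx' (h z (U5bAux.gz_mem_circ y hr h1 hz))

end Pool.Agent.TD
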